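import Mathlib

/-!
Project FK (helper19): the flow roots of the complete graphs `K_n` accumulate at every point of the circle `|q - 1| = 1`
(problem MP_39ed1d_co).  Definitions and statements of the lemmas.
-/

set_option autoImplicit false

open Polynomial

namespace Pool.Agent.H19.FK

/-- `f i j` is the flow from `i` to `j` along the edge `ij` of `K_n`: a nowhere-zero flow with values in `ℤ/q`. -/
def IsNZFlow (n q : ℕ) (f : Fin n → Fin n → ZMod q) : Prop :=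
  (∀ i j, f j i = - f i j) ∧ (∀ i, f i i = 0) ∧ (∀ i j, i ≠ j → f i j ≠ 0) ∧ ∀ i, ∑ j, f i j = 0

/-- The number of nowhere-zero `ℤ/q`-flows on `K_n`. -/
noncomputable def flowCount (n q : ℕ) : ℕ := Nat.card {f : Fin n → Fin n → ZMod q // IsNZFlow n q f}

/-- `F` is the flow polynomial of `K_n`. -/
def IsFlowPoly (n : ℕ) (F : ℤ[X]) : Prop := ∀ q : ℕ, 1 ≤ q → F.eval (q : ℤ) = (flowCount n q : ℤ)

/-- Sum over the partitions of an `n`-set into `k` blocks of `X ^ (number of pairs inside the blocks)`. -/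
noncomputable def A : ℕ → ℕ → ℤ[X]
  | 0, 0 => 1
  | 0, _ + 1 => 0
  | _ + 1, 0 => 0
  | n + 1, k + 1 => ∑ m : Fin (n + 1), (n.choose m : ℤ[X]) * X ^ (((m : ℕ) + 1).choose 2) * A (n - m) k
  termination_by n => n

/-- pairs `i < j` -/
def prs (n : ℕ) : Finset (Fin n × Fin n) := Finset.univ.filter (fun p => p.1 < p.2)

/-- DUAL. Fourier duality (the Potts form of the flow polynomial).
PROOF. Let `ψ` be the standard additive character of `ZMod q` (`ZMod.stdAddChar`, primitive; or any primitive one into `ℂ`). An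
antisymmetric `f` is the same as its values on the pairs `i < j` (in `prs n`). For `f : prs n → ZMod q ∖ {0}` the indicator of
`∀ i, ∑_j f i j = 0` is `q^{-n} ∑_σ ∏_i ψ(σ_i ∑_j f i j)` (orthogonality, `AddChar.sum_mulShift` or `AddChar.sum_eq_ite`), and
`∏_i ψ(σ_i ∑_j f_ij) = ∏_{i<j} ψ((σ_i - σ_j) f_ij)`. Sum over `f` first: the sum factors over the pairs (`Finset.prod_univ_sum`),
and `∑_{x ≠ 0} ψ((σ_i-σ_j) x)` is `q - 1` if `σ_i = σ_j` and `-1` otherwise. -/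
def S_dual : Prop := ∀ (n q : ℕ) (_ : NeZero q),
  (q : ℤ) ^ n * (flowCount n q : ℤ) =
    ∑ σ : Fin n → Fin q, ∏ p ∈ prs n, (if σ p.1 = σ p.2 then (q : ℤ) - 1 else -1)

/-- PART. Sum over colourings by the partition into colour classes.
PROOF. Strong induction on `n` for all `q` simultaneously. For `n + 1` vertices: let `T` be the set of the vertices of the same
colour as vertex `0` (or the last vertex), `|T| = m + 1`; there are `q` choices of the colour and `n.choose m` choices of `T`; the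
pairs inside `T` give `y ^ ((m+1).choose 2)`, the pairs between `T` and its complement give `1`, and the rest is a colouring of
`n - m` vertices by `q - 1` colours. Then `q * (q-1).descFactorial k = q.descFactorial (k+1)` and the recursion of `A`.
(It may be convenient to prove it for an arbitrary finite type / finset of vertices with a symmetric form of the product, or to
do the recursion on `q` instead: `W(q+1,n) = ∑_m (n choose m) y^(m choose 2) W(q,n-m)`, as you like.) -/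
def S_part : Prop := ∀ (n q : ℕ) (y : ℤ),
  ∑ σ : Fin n → Fin q, ∏ p ∈ prs n, (if σ p.1 = σ p.2 then y else 1) =
    ∑ k ∈ Finset.range (n + 1), (q.descFactorial k : ℤ) * (A n k).eval y

/-- AFACT. Simple facts on `A` (induction on `n` from the recursion; `(m+1).choose 2 + (b+1).choose 2 ≤ (m+b+1).choose 2`). -/
def S_afact : Prop :=
  (∀ n k, n < k → A n k = 0) ∧ (∀ n, A n n = 1) ∧ (∀ n, 1 ≤ n → A n 1 = X ^ (n.choose 2)) ∧
  (∀ n, A (n + 1) 0 = 0) ∧ (∀ n k, k < n → (A n k).eval 0 = 0) ∧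
  (∀ n k, 1 ≤ k → k ≤ n → (A n k).natDegree ≤ (n - k + 1).choose 2)

/-- ABD. Bound for `A`. PROOF. Induction on `n`: the recursion, `(m+1).choose 2 + (n-m).choose 2 ≤ (n+1).choose 2` and
`∑_m (n choose m) (n-m)^(n-m) ≤ ∑_m (n choose m) n^(n-m) = (n+1)^n ≤ (n+1)^(n+1)` (`0 ^ 0 = 1`). -/
def S_abd : Prop := ∀ (n k : ℕ) (y : ℂ) (ρ : ℝ), 1 ≤ ρ → ‖y‖ ≤ ρ →
  ‖aeval y (A n k)‖ ≤ (n : ℝ) ^ n * ρ ^ (n.choose 2)

/-- QPOL. A monic polynomial with all roots in the open unit disc which is larger than `1` on `|z| ≥ 1 - ε` except near `1`.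
PROOF. May assume `r ≤ 1`. Fix an integer `K ≥ 2` with `K ≥ 32 / r²` and put `G(w) = ∑_{k=1}^{K-1} (K-k) w^k`. For `|w| = 1`,
`w ≠ 1`: `(1-w) (G(w)+K) = K - w S(w)`, `S(w) = ∑_{j<K} w^j = (1-w^K)/(1-w)`, `2 Re (1/(1-w)) = 1`, `w/(1-w)² = -1/|1-w|²`, so
`K + 2 Re G(w) = 2 (1 - Re w^K)/|1-w|² ≤ 4/|1-w|²`. (Or: `K + 2 Re G = |∑_{j<K} w^j|²`.) Let `g = -(2/K) G`; then
`Re g(w) = 1 - (K+2 Re G)/K ≥ 1 - 4/(K|1-w|²) ≥ 1/2` if `|w| = 1`, `|1-w| ≥ r/2`. For `|w| ≤ 1`: `|g| ≤ 2K`, `|g'| ≤ 2K²`. Let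
`N = K - 1 ≥ 1`, `Q(z) = z^N (1 + η g(1/z)) = z^N - (2η/K) ∑_{k=1}^{N} (K-k) z^(N-k)`, a monic polynomial of degree `N`, `η > 0`
small. Choose `a = min (r/2) (1/(8K²))`, `η ≤ 1/(8K)` and `2 η K ≤ a/4`. If `|z| ≥ 1 + a`: `|Q| ≥ |z|^N (1 - 2ηK) ≥ (1+a)(1-a/4) ≥ 1 + a/4`.
If `1 ≤ |z| ≤ 1 + a` and `|z-1| ≥ r`, let `u = z/|z|`: `|u-1| ≥ r/2` and `|1/z - 1/u| ≤ a`, so `Re g(1/z) ≥ 1/2 - 2K² a ≥ 1/4` and
`|Q(z)| ≥ 1 + η/4`. For all `|z| ≥ 1`: `|Q| ≥ 1 - 2ηK > 0`, so the roots of `Q` are in the open unit disc. Finally if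
`1 - ε ≤ |z| < 1`, `|z-1| ≥ r`, then `u = z/|z|` has `|u-1| ≥ r/2` and `|Q(z)| ≥ |Q(u)| - L ε ≥ 1 + η/4 - Lε` (first do the case
`|z| ≥ 1` with `r/2` instead of `r`; `L` = Lipschitz constant of `Q` on the unit disc). `δ = min(a/4, η/8)`. -/
def S_qpol : Prop := ∀ r : ℝ, 0 < r → ∃ (Q : ℂ[X]) (δ ε : ℝ), Q.Monic ∧ 0 < δ ∧ 0 < ε ∧ ε < 1 ∧
  (∀ z : ℂ, Q.eval z = 0 → ‖z‖ < 1) ∧
  ∀ z : ℂ, 1 - ε ≤ ‖z‖ → r ≤ ‖z - 1‖ → 1 + δ ≤ ‖Q.eval z‖

/-- JEN. Jensen. PROOF. `P.eval y = lc * ∏_{z ∈ roots} (y - z)` (`Polynomial.C_leadingCoeff_mul_prod_multiset_X_sub_C`,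
`IsAlgClosed.splits`), so the circle average of `log ‖P.eval y‖` over `|y-c| = s` is `log ‖lc‖ + ∑ circleAverage log ‖y - z‖`
and each of these is `log s + log⁺ (s⁻¹ ‖c - z‖) = log (max s ‖z-c‖)`
(Mathlib `circleAverage_log_norm_sub_const_eq_log_radius_add_posLog`); additivity of circle averages needs circle integrability
(`circleIntegrable_log_norm_meromorphicOn`...). The average is at most `log M` (`Real.circleAverage_mono_on_of_le_circle`).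
Or induction over the multiset of roots, or `AnalyticOnNhd.circleAverage_log_norm...`. -/
def S_jen : Prop := ∀ (P : ℂ[X]) (c : ℂ) (s M : ℝ), P ≠ 0 → 0 < s → 1 ≤ M →
  (∀ y : ℂ, ‖y - c‖ = s → ‖P.eval y‖ ≤ M) →
  Real.log ‖P.leadingCoeff‖ + (P.roots.map (fun z => Real.log (max s ‖z - c‖))).sum ≤ Real.log M

/-- ERD. Roots near every point of the unit circle. `S_qpol` and `S_jen` may be used.
PROOF. Replace `P` by `P.comp (C ζ * X)` (roots divided by `ζ`, same norms), so that `ζ = 1`. Let `Q, δ, ε` be as in `S_qpol` for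
`r`, `c_1, ..., c_K` the roots of `Q` (all in the open unit disc), `s ∈ (0,1)` with `|c_i| + s ≤ 1` for all `i`. Let `z_j` be the roots
of `P`, `D` its degree, `ℓ = log |lc P| ≥ 0`, `m = log M ≥ 0`. (1) `S_jen` with `c = 0`, `s = 1`: `ℓ + ∑ log⁺ |z_j| ≤ m`. (2) `|P(0)| = |lc| ∏ |z_j| ≥ 1`
gives `ℓ + ∑ log |z_j| ≥ 0`, so `∑ log⁻ |z_j| ≤ m` (`log⁻ = log (1/min(1,|z|))`). (3) `S_jen` at `c_i, s`: the closed disc lies in the unit disc, so
`∑_j log max(s, |z_j - c_i|) ≤ m - ℓ ≤ m`; sum over `i`: `∑_j G(z_j) ≤ K m`, `G(z) = ∑_i log max(s, |z - c_i|)`.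
(4) if `|z| ≥ 1 - ε`, `|z-1| ≥ r`: `G(z) ≥ log |Q(z)| ≥ log (1+δ)`. For `|z| < 1-ε`: `G(z) ≥ -K log(1/s)` and `log⁻ |z| ≥ ε`. So if no
`z_j` is in `B(1,r)`: for all `j`: `G(z_j) ≥ log(1+δ) - B log⁻ |z_j|` with `B = (log(1+δ) + K log(1/s))/ε`, and summing
`D log(1+δ) ≤ K m + B m`. -/
def S_erd : Prop := ∀ r : ℝ, 0 < r → ∃ C : ℝ, 0 < C ∧ ∀ (ζ : ℂ) (P : ℂ[X]) (M : ℝ), ‖ζ‖ = 1 → 1 ≤ M →
  1 ≤ ‖P.leadingCoeff‖ → 1 ≤ ‖P.eval 0‖ → (∀ y : ℂ, ‖y‖ ≤ 1 → ‖P.eval y‖ ≤ M) →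
  (∀ z : ℂ, P.eval z = 0 → r ≤ ‖z - ζ‖) → (P.natDegree : ℝ) ≤ C * Real.log M

/-- FORM. `S_dual` and `S_part` may be used. PROOF. `(q-1) = -(1-q)`: `∏ (if .. then q-1 else -1) = (-1)^(n choose 2) ∏ (if .. then 1-q else 1)`
(`#prs n = n.choose 2`), so both sides agree at all natural numbers `q ≥ 1` (`descPochhammer_eval_eq_descFactorial`), hence as
polynomials (`Polynomial.funext` / infinitely many points, `Polynomial.eq_of_infinite_eval_eq`). -/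
def S_form : Prop := ∀ (n : ℕ) (F : ℤ[X]), IsFlowPoly n F →
  X ^ n * F = (-1) ^ (n.choose 2) * ∑ k ∈ Finset.range (n + 1), descPochhammer ℤ k * (A n k).comp (1 - X)

/-- FFACT. `S_form` and `S_afact` may be used. PROOF. Degree: for `2 ≤ k ≤ n` the term `k` has degree
`≤ k + (n-k+1).choose 2 ≤ n.choose 2 < n.choose 2 + 1` (`n ≥ 3`), the term `k = 1` is `X * (1-X)^(n.choose 2)` of degree `n.choose 2 + 1` and the
term `k = 0` is zero. Simple zero: modulo `(X-1)^2` the terms `2 ≤ k < n` vanish (`X - 1 ∣ descPochhammer k`, and `1 - X ∣ (A n k).comp (1-X)` because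
`X ∣ A n k`), the term `k = 1` vanishes too (`n.choose 2 ≥ 2`), and the term `k = n` is `descPochhammer ℤ n = X (X-1) (X-2) ... (X-n+1)`, divisible by
`X-1` with a quotient whose value at `1` is `± (n-2)! ≠ 0`. So `F = (X - 1) * H` with `H.eval 1 ≠ 0`. -/
def S_ffact : Prop := ∀ (n : ℕ) (F : ℤ[X]), 3 ≤ n → IsFlowPoly n F →
  F.natDegree + n = n.choose 2 + 1 ∧ ∃ H : ℤ[X], F = (X - 1) * H ∧ H.eval 1 ≠ 0

/-- FBD. `S_form` and `S_abd` may be used. PROOF. On the circle `|q-1| = 1 + 1/n`: `|q| ≥ 1/n`, `|q| ≤ 3`, `|descPochhammer k (q)| ≤ (n+3)^n` for `k ≤ n`,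
`‖A n k (1-q)‖ ≤ n^n (1+1/n)^(n.choose 2) ≤ n^n e^n`, so `|F(q)| ≤ n^n (n+1) (n+3)^n n^n e^n ≤ n^(C n)` hence `≤ exp (C n log n)`. The maximum principle
(`Complex.norm_le_of_forall_mem_frontier_norm_le`) gives it on the disc. Any absolute constant `C` will do. -/
def S_fbd : Prop := ∃ C : ℝ, 0 < C ∧ ∀ (n : ℕ) (F : ℤ[X]), 3 ≤ n → IsFlowPoly n F →
  ∀ q : ℂ, ‖q - 1‖ ≤ 1 + 1 / (n : ℝ) → ‖aeval q F‖ ≤ Real.exp (C * n * Real.log n)

/-- END. Final statement: `S_ffact`, `S_fbd`, `S_erd` may be used. PROOF. `P(w) = H(1+w)` over `ℂ` (`H` from `S_ffact`): leading coefficient and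
`P(0) = H(1)` are nonzero integers, degree `n.choose 2 - n`. On `|w| = 1`: `|P(w)| = |F(1+w)| ≤ M = exp (C n log n)`, and by the maximum principle on
`|w| ≤ 1`. If `P` has no root with `|w - (ζ-1)| < ε` then `S_erd` gives `n.choose 2 - n ≤ C' C n log n`, false for large `n`. -/
def S_end : Prop := ∀ ζ : ℂ, ‖ζ - 1‖ = 1 → ∀ ε : ℝ, 0 < ε → ∃ N : ℕ, ∀ n : ℕ, N ≤ n → ∀ F : ℤ[X], IsFlowPoly n F →
  ∃ z : ℂ, aeval z F = 0 ∧ ‖z - ζ‖ < ε

end Pool.Agent.H19.FK
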