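import Mathlib
import Pool.Agent.H19.FK.Stm

set_option autoImplicit false

open Polynomial

namespace Pool.Agent.H19.FK.Abd

theorem choose_two_add (a b : ℕ) : a.choose 2 + b.choose 2 ≤ (a + b).choose 2 := by
  induction b with
  | zero => simp
  | succ b ih =>
    have h1 : (b + 1).choose 2 = b + b.choose 2 := by
      rw [Nat.choose_succ_succ' b 1, Nat.choose_one_right]
    have h2 : (a + (b + 1)).choose 2 = (a + b) + (a + b).choose 2 := by
      rw [← Nat.add_assoc, Nat.choose_succ_succ' (a + b) 1, Nat.choose_one_right]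
    rw [h1, h2]
    omega

theorem A_zero_zero : A 0 0 = 1 := by rw [A]

theorem A_zero_succ (k : ℕ) : A 0 (k + 1) = 0 := by rw [A]

theorem A_succ_zero (n : ℕ) : A (n + 1) 0 = 0 := by rw [A]

theorem A_succ_succ (n k : ℕ) : A (n + 1) (k + 1) =
    ∑ m : Fin (n + 1), (n.choose m : ℤ[X]) * X ^ (((m : ℕ) + 1).choose 2) * A (n - m) k := by
  rw [A]

theorem t_abd : S_abd := by
  intro n
  induction n using Nat.strong_induction_on with
  | _ n ih =>
    intro k y ρ hρ hy
    have hρ0 : 0 ≤ ρ := by linarith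
    rcases n with _ | n
    · rcases k with _ | k
      · rw [A_zero_zero]
        simp
      · rw [A_zero_succ]
        simp
    · rcases k with _ | k
      · rw [A_succ_zero, map_zero, norm_zero]
        positivity
      · rw [A_succ_succ, map_sum]
        have hterm : ∀ m : Fin (n + 1),
            ‖aeval y ((n.choose m : ℤ[X]) * X ^ (((m : ℕ) + 1).choose 2) * A (n - m) k)‖ ≤
              ((1 : ℝ) ^ (m : ℕ) * (n : ℝ) ^ (n - (m : ℕ)) * (n.choose m : ℝ)) * ρ ^ ((n + 1).choose 2) := by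
          intro m
          have hm : (m : ℕ) ≤ n := Nat.lt_succ_iff.1 m.2
          have h1 := ih (n - m) (by omega) k y ρ hρ hy
          have h2 : ‖y‖ ^ (((m : ℕ) + 1).choose 2) ≤ ρ ^ (((m : ℕ) + 1).choose 2) :=
            pow_le_pow_left₀ (norm_nonneg _) hy _
          have h3 : ((n - (m : ℕ) : ℕ) : ℝ) ^ (n - (m : ℕ)) ≤ (n : ℝ) ^ (n - (m : ℕ)) :=
            pow_le_pow_left₀ (Nat.cast_nonneg _) (by exact_mod_cast Nat.sub_le n m) _
          have h4 : ρ ^ (((m : ℕ) + 1).choose 2) * ρ ^ ((n - (m : ℕ)).choose 2) ≤ ρ ^ ((n + 1).choose 2) := by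
            rw [← pow_add]
            refine pow_le_pow_right₀ hρ ?_
            have h5 := choose_two_add ((m : ℕ) + 1) (n - (m : ℕ))
            have h6 : (m : ℕ) + 1 + (n - (m : ℕ)) = n + 1 := by omega
            rwa [h6] at h5
          rw [map_mul, map_mul, map_pow, aeval_X, map_natCast, norm_mul, norm_mul, norm_pow, Complex.norm_natCast]
          calc (n.choose m : ℝ) * ‖y‖ ^ (((m : ℕ) + 1).choose 2) * ‖aeval y (A (n - m) k)‖
              ≤ (n.choose m : ℝ) * ρ ^ (((m : ℕ) + 1).choose 2) *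
                (((n - (m : ℕ) : ℕ) : ℝ) ^ (n - (m : ℕ)) * ρ ^ ((n - (m : ℕ)).choose 2)) := by gcongr
            _ ≤ (n.choose m : ℝ) * ρ ^ (((m : ℕ) + 1).choose 2) *
                ((n : ℝ) ^ (n - (m : ℕ)) * ρ ^ ((n - (m : ℕ)).choose 2)) := by gcongr
            _ = (n : ℝ) ^ (n - (m : ℕ)) * (n.choose m : ℝ) *
                (ρ ^ (((m : ℕ) + 1).choose 2) * ρ ^ ((n - (m : ℕ)).choose 2)) := by ring
            _ ≤ (n : ℝ) ^ (n - (m : ℕ)) * (n.choose m : ℝ) * ρ ^ ((n + 1).choose 2) := by gcongr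
            _ = _ := by rw [one_pow]; ring
        have hsum : ∑ m : Fin (n + 1), (1 : ℝ) ^ (m : ℕ) * (n : ℝ) ^ (n - (m : ℕ)) * (n.choose m : ℝ) =
            (1 + (n : ℝ)) ^ n := by
          rw [add_pow, ← Fin.sum_univ_eq_sum_range
            (fun m => (1 : ℝ) ^ m * (n : ℝ) ^ (n - m) * (n.choose m : ℝ)) (n + 1)]
        calc ‖∑ m : Fin (n + 1), aeval y ((n.choose m : ℤ[X]) * X ^ (((m : ℕ) + 1).choose 2) * A (n - m) k)‖
            ≤ ∑ m : Fin (n + 1),
              ((1 : ℝ) ^ (m : ℕ) * (n : ℝ) ^ (n - (m : ℕ)) * (n.choose m : ℝ)) * ρ ^ ((n + 1).choose 2) :=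
              (norm_sum_le _ _).trans (Finset.sum_le_sum fun m _ => hterm m)
          _ = (1 + (n : ℝ)) ^ n * ρ ^ ((n + 1).choose 2) := by rw [← Finset.sum_mul, hsum]
          _ ≤ ((n + 1 : ℕ) : ℝ) ^ (n + 1) * ρ ^ ((n + 1).choose 2) := by
              refine mul_le_mul_of_nonneg_right ?_ (by positivity)
              push_cast
              rw [add_comm (1 : ℝ)]
              exact pow_le_pow_right₀ (by linarith [(Nat.cast_nonneg n : (0 : ℝ) ≤ n)]) (Nat.le_succ n)

end Pool.Agent.H19.FK.Abd
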