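import Mathlib
import Pool.Agent.H19.FK.Stm

set_option autoImplicit false

open Polynomial

namespace Pool.Agent.H19.FK.Afact

theorem A_zero_zero : A 0 0 = 1 := by rw [A]

theorem A_zero_succ (k : ℕ) : A 0 (k + 1) = 0 := by rw [A]

theorem A_succ_zero (n : ℕ) : A (n + 1) 0 = 0 := by rw [A]

theorem A_succ_succ (n k : ℕ) : A (n + 1) (k + 1) =
    ∑ m : Fin (n + 1), (n.choose m : ℤ[X]) * X ^ (((m : ℕ) + 1).choose 2) * A (n - m) k := by
  rw [A]

theorem A_of_lt (n : ℕ) : ∀ k, n < k → A n k = 0 := by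
  induction n using Nat.strong_induction_on with
  | _ n ih =>
    intro k hk
    obtain ⟨k, rfl⟩ : ∃ j, k = j + 1 := ⟨k - 1, by omega⟩
    cases n with
    | zero => exact A_zero_succ k
    | succ n =>
      rw [A_succ_succ]
      refine Finset.sum_eq_zero fun m _ => ?_
      rw [ih (n - m) (by omega) k (by omega), mul_zero]

theorem A_self (n : ℕ) : A n n = 1 := by
  induction n with
  | zero => exact A_zero_zero
  | succ n ih =>
    rw [A_succ_succ, Fin.sum_univ_succ]
    have h1 : ∑ i : Fin n, (n.choose (i.succ : Fin (n + 1)) : ℤ[X]) *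
        X ^ (((i.succ : Fin (n + 1)) : ℕ) + 1).choose 2 * A (n - (i.succ : Fin (n + 1))) n = 0 := by
      refine Finset.sum_eq_zero fun m _ => ?_
      have hm : n - ((m.succ : Fin (n + 1)) : ℕ) < n := by
        rw [Fin.val_succ]
        have := m.isLt
        omega
      rw [A_of_lt _ _ hm, mul_zero]
    rw [h1, add_zero]
    simp [ih]

theorem A_one (n : ℕ) : A (n + 1) 1 = X ^ ((n + 1).choose 2) := by
  rw [A_succ_succ, Fin.sum_univ_castSucc]
  have h1 : ∑ i : Fin n, (n.choose (i.castSucc : Fin (n + 1)) : ℤ[X]) *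
      X ^ (((i.castSucc : Fin (n + 1)) : ℕ) + 1).choose 2 * A (n - (i.castSucc : Fin (n + 1))) 0 = 0 := by
    refine Finset.sum_eq_zero fun m _ => ?_
    have hm : n - ((m.castSucc : Fin (n + 1)) : ℕ) = (n - 1 - m) + 1 := by
      rw [Fin.val_castSucc]
      have := m.isLt
      omega
    rw [hm, A_succ_zero, mul_zero]
  rw [h1, zero_add, Fin.val_last, Nat.sub_self, A_zero_zero, Nat.choose_self, Nat.cast_one, one_mul,
    mul_one]

theorem A_eval_zero (n : ℕ) : ∀ k, k < n → (A n k).eval 0 = 0 := by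
  induction n with
  | zero => intro k hk; omega
  | succ n ih =>
    intro k hk
    cases k with
    | zero => rw [A_succ_zero, Polynomial.eval_zero]
    | succ k =>
      rw [A_succ_succ, eval_finsetSum]
      refine Finset.sum_eq_zero fun m _ => ?_
      rw [eval_mul, eval_mul, eval_pow, eval_X]
      by_cases hm : (m : ℕ) = 0
      · rw [hm, Nat.sub_zero, ih k (by omega), mul_zero]
      · have h2 : ((m : ℕ) + 1).choose 2 ≠ 0 := (Nat.choose_pos (by omega)).ne'
        rw [zero_pow h2, mul_zero, zero_mul]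

theorem choose_add (a b : ℕ) : (a + 1).choose 2 + (b + 1).choose 2 ≤ (a + b + 1).choose 2 := by
  have h : ∀ c : ℕ, (c + 1).choose 2 * 2 = (c + 1) * c := by
    intro c
    have := Nat.triangle_succ c
    rw [Nat.choose_two_right, Nat.add_sub_cancel]
    exact Nat.div_mul_cancel (by rw [mul_comm]; exact (Nat.even_mul_succ_self c).two_dvd)
  have h1 := h a
  have h2 := h b
  have h3 := h (a + b)
  nlinarith [Nat.zero_le (a * b)]

theorem natDegree_le (n : ℕ) : ∀ k, 1 ≤ k → k ≤ n → (A n k).natDegree ≤ (n - k + 1).choose 2 := by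
  induction n using Nat.strong_induction_on with
  | _ n ih =>
    intro k hk1 hkn
    obtain ⟨k, rfl⟩ : ∃ j, k = j + 1 := ⟨k - 1, by omega⟩
    obtain ⟨n, rfl⟩ : ∃ j, n = j + 1 := ⟨n - 1, by omega⟩
    rcases Nat.eq_zero_or_pos k with rfl | hk
    · rw [zero_add, A_one, natDegree_X_pow, Nat.add_sub_cancel]
    · rw [A_succ_succ]
      refine natDegree_sum_le_of_forall_le _ _ fun m _ => ?_
      have hm := m.isLt
      by_cases hlt : n - (m : ℕ) < k
      · rw [A_of_lt _ _ hlt, mul_zero, natDegree_zero]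
        exact Nat.zero_le _
      · have h1 := ih (n - m) (by omega) k hk (by omega)
        have h2 : ((n.choose m : ℤ[X]) * X ^ (((m : ℕ) + 1).choose 2)).natDegree ≤
            ((m : ℕ) + 1).choose 2 := by
          refine natDegree_mul_le.trans ?_
          rw [natDegree_natCast, zero_add, natDegree_X_pow]
        refine (natDegree_mul_le.trans (Nat.add_le_add h2 h1)).trans ?_
        refine (choose_add (m : ℕ) (n - m - k)).trans (le_of_eq ?_)
        congr 1
        omega

theorem t_afact : S_afact := by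
  refine ⟨fun n k h => A_of_lt n k h, A_self, fun n hn => ?_, A_succ_zero, A_eval_zero, natDegree_le⟩
  obtain ⟨n, rfl⟩ : ∃ j, n = j + 1 := ⟨n - 1, by omega⟩
  exact A_one n

end Pool.Agent.H19.FK.Afact
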