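import Mathlib
import Pool.Agent.H19.FK.Stm

set_option autoImplicit false

open Polynomial

namespace Pool.Agent.H19.FK.Ann

open Pool.Agent.H19.FK

lemma one_le_norm_int (a : ℤ) (ha : a ≠ 0) : 1 ≤ ‖(a : ℂ)‖ := by
  rw [Complex.norm_intCast]
  exact_mod_cast Int.one_le_abs ha

lemma abs_log (x δ : ℝ) (hx : 0 < x) (hδ : 0 < δ) (hδ1 : δ ≤ 1) (h : δ ≤ |x - 1|) :
    δ / 2 ≤ 2 * Real.log (max 1 x) - Real.log x := by
  rcases le_abs.1 h with h1 | h1
  · have h2 : max 1 x = x := max_eq_right (by linarith)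
    rw [h2]
    have h3 : 1 - x⁻¹ ≤ Real.log x := Real.one_sub_inv_le_log_of_pos hx
    have h4 : x⁻¹ ≤ 1 - δ / 2 := by
      rw [inv_le_comm₀ hx (by linarith)]
      rw [inv_le_comm₀ (by linarith) hx]
      rw [inv_le_comm₀ hx (by linarith)]
      have h5 : (1 - δ / 2)⁻¹ ≤ 1 + δ := by
        rw [inv_le_iff_one_le_mul₀ (by linarith)]
        nlinarith
      linarith
    linarith
  · have h2 : max 1 x = 1 := max_eq_left (by linarith)
    rw [h2, Real.log_one]
    have h3 : Real.log x ≤ x - 1 := Real.log_le_sub_one_of_pos hx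
    linarith

lemma sum_log_ge (s : Multiset ℝ) (δ : ℝ) (hδ : 0 < δ) (hδ1 : δ ≤ 1) (hs : ∀ x ∈ s, 0 < x) :
    (s.countP (fun x => δ ≤ |x - 1|) : ℝ) * (δ / 2) ≤
      (s.map (fun x => 2 * Real.log (max 1 x) - Real.log x)).sum := by
  induction s using Multiset.induction_on with
  | empty => simp
  | cons a s ih =>
    have ih' := ih fun x hx => hs x (Multiset.mem_cons_of_mem hx)
    have ha := hs a (Multiset.mem_cons_self a s)
    rw [Multiset.map_cons, Multiset.sum_cons]
    by_cases h : δ ≤ |a - 1|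
    · rw [Multiset.countP_cons_of_pos (p := fun x : ℝ => δ ≤ |x - 1|) _ h]
      have := abs_log a δ ha hδ hδ1 h
      push_cast
      linarith
    · rw [Multiset.countP_cons_of_neg (p := fun x : ℝ => δ ≤ |x - 1|) _ h]
      have : 0 ≤ 2 * Real.log (max 1 a) - Real.log a := by
        have h1 : Real.log a ≤ Real.log (max 1 a) := Real.log_le_log ha (le_max_right _ _)
        have h2 : 0 ≤ Real.log (max 1 a) := Real.log_nonneg (le_max_left _ _)
        linarith
      linarith

/-- At most `C n log n / δ` flow roots of `K_n` are outside the annulus `1 - δ < |q - 1| < 1 + δ`. -/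
theorem t_ann (hF : S_ffact) (hB : S_fbd) (hJ : S_jen) : ∃ C : ℝ, 0 < C ∧ ∀ (n : ℕ) (F : ℤ[X]), 3 ≤ n → IsFlowPoly n F →
    ∀ δ : ℝ, 0 < δ → δ ≤ 1 →
      ((F.map (Int.castRingHom ℂ)).roots.countP (fun z => δ ≤ |‖z - 1‖ - 1|) : ℝ) ≤ C * n * Real.log n / δ := by
  obtain ⟨B, hC, hCb⟩ := hB
  refine ⟨4 * B + 1, by linarith, ?_⟩
  intro n F hn hFl δ hδ hδ1
  obtain ⟨hdeg, H, hFH, hH1⟩ := hF n F hn hFl
  have hn0 : (3 : ℝ) ≤ n := by exact_mod_cast hn
  have hlog : 1 ≤ Real.log n := by
    rw [← Real.log_exp 1]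
    apply Real.log_le_log (Real.exp_pos 1)
    have := Real.exp_one_lt_d9
    linarith
  have hH0 : H ≠ 0 := by
    rintro rfl
    simp at hH1
  set P : ℂ[X] := H.map (Int.castRingHom ℂ) with hP
  have hinj : Function.Injective (Int.castRingHom ℂ) := Int.cast_injective
  have hP0 : P ≠ 0 := (Polynomial.map_ne_zero_iff hinj).2 hH0
  have hFm : F.map (Int.castRingHom ℂ) = (X - C 1) * P := by
    rw [hFH, Polynomial.map_mul]
    simp [hP]
  have hroots : (F.map (Int.castRingHom ℂ)).roots = {1} + P.roots := by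
    rw [hFm, roots_mul (mul_ne_zero (X_sub_C_ne_zero 1) hP0), roots_X_sub_C]
  set M : ℝ := Real.exp (B * n * Real.log n) with hM
  have hM1 : 1 ≤ M := by
    rw [hM]
    apply Real.one_le_exp
    positivity
  -- bound on the circle
  have hPM : ∀ y : ℂ, ‖y - 1‖ = 1 → ‖P.eval y‖ ≤ M := by
    intro y hy
    have h1 := hCb n F hn hFl y (by rw [hy]; have : 0 ≤ 1 / (n : ℝ) := by positivity
                                    linarith)
    have h2 : aeval y F = (y - 1) * P.eval y := by
      have h3 : aeval y F = (F.map (Int.castRingHom ℂ)).eval y := by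
        rw [eval_map]
        rfl
      rw [h3, hFm, eval_mul]
      simp
    rw [h2, norm_mul, hy, one_mul] at h1
    exact h1
  have hJ1 := hJ P 1 1 M hP0 one_pos hM1 hPM
  have hlc : 1 ≤ ‖P.leadingCoeff‖ := by
    rw [hP, leadingCoeff_map_of_injective hinj]
    exact one_le_norm_int _ (leadingCoeff_ne_zero.2 hH0)
  have hP1 : 1 ≤ ‖P.eval 1‖ := by
    have h1 : P.eval 1 = ((H.eval 1 : ℤ) : ℂ) := by
      have h2 := Polynomial.eval_intCast_map (Int.castRingHom ℂ) H 1
      rw [hP]
      simpa using h2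
    rw [h1]
    exact one_le_norm_int _ hH1
  -- the product of the distances of the roots from `1`
  have hprod : P.eval 1 = P.leadingCoeff * (P.roots.map (fun z => 1 - z)).prod := by
    have h1 := Polynomial.C_leadingCoeff_mul_prod_multiset_X_sub_C (p := P)
      (IsAlgClosed.card_roots_eq_natDegree (p := P))
    conv_lhs => rw [← h1]
    rw [eval_mul, eval_C, eval_multiset_prod, Multiset.map_map]
    simp
  have hne : ∀ z ∈ P.roots, 0 < ‖z - 1‖ := by
    intro z hz
    rw [norm_pos_iff, sub_ne_zero]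
    rintro rfl
    have h1 : P.eval 1 = 0 := (mem_roots hP0).1 hz
    rw [h1, norm_zero] at hP1
    linarith
  have hsumlog : Real.log ‖P.eval 1‖ = Real.log ‖P.leadingCoeff‖ + (P.roots.map (fun z => Real.log ‖z - 1‖)).sum := by
    rw [hprod, norm_mul, Real.log_mul (by linarith [hlc]) (by
      rw [norm_ne_zero_iff]
      intro h0
      rw [hprod, h0, mul_zero, norm_zero] at hP1
      linarith)]
    congr 1
    have h1 : ∀ s : Multiset ℂ, (∀ z ∈ s, 0 < ‖z - 1‖) →
        Real.log ‖(s.map (fun z => 1 - z)).prod‖ = (s.map (fun z => Real.log ‖z - 1‖)).sum := by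
      intro s
      induction s using Multiset.induction_on with
      | empty => simp
      | cons a s ih =>
        intro hs
        rw [Multiset.map_cons, Multiset.prod_cons, norm_mul, Real.log_mul, ih, Multiset.map_cons, Multiset.sum_cons,
          norm_sub_rev]
        · exact fun z hz => hs z (Multiset.mem_cons_of_mem hz)
        · rw [norm_sub_rev]
          exact (hs a (Multiset.mem_cons_self a s)).ne'
        · rw [norm_ne_zero_iff]
          apply Multiset.prod_ne_zero
          intro h0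
          obtain ⟨z, hz, hz0⟩ := Multiset.mem_map.1 h0
          have := hs z (Multiset.mem_cons_of_mem hz)
          rw [norm_sub_rev, hz0, norm_zero] at this
          exact lt_irrefl _ this
    exact h1 _ hne
  have hS := sum_log_ge (P.roots.map (fun z => ‖z - 1‖)) δ hδ hδ1 (by
    intro x hx
    obtain ⟨z, hz, rfl⟩ := Multiset.mem_map.1 hx
    exact hne z hz)
  rw [Multiset.countP_map, Multiset.map_map] at hS
  have hsplit : (Multiset.map ((fun x => 2 * Real.log (max 1 x) - Real.log x) ∘ fun z => ‖z - 1‖) P.roots).sum =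
      2 * (P.roots.map (fun z => Real.log (max 1 ‖z - 1‖))).sum - (P.roots.map (fun z => Real.log ‖z - 1‖)).sum := by
    rw [← Multiset.sum_map_mul_left, ← Multiset.sum_map_sub]
    rfl
  rw [hsplit] at hS
  have hcard : (Multiset.filter (fun b => δ ≤ |‖b - 1‖ - 1|) P.roots).card = P.roots.countP (fun z => δ ≤ |‖z - 1‖ - 1|) :=
    (Multiset.countP_eq_card_filter _ _).symm
  rw [hcard] at hS
  have hlc0 : 0 ≤ Real.log ‖P.leadingCoeff‖ := Real.log_nonneg hlc
  have hP10 : 0 ≤ Real.log ‖P.eval 1‖ := Real.log_nonneg hP1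
  have hlogM : Real.log M = B * n * Real.log n := by rw [hM, Real.log_exp]
  have hmain : (P.roots.countP (fun z => δ ≤ |‖z - 1‖ - 1|) : ℝ) * (δ / 2) ≤ 2 * (B * n * Real.log n) := by
    rw [hlogM] at hJ1
    linarith
  rw [hroots, Multiset.countP_add]
  have h1 : (Multiset.countP (fun z : ℂ => δ ≤ |‖z - 1‖ - 1|) {1} : ℝ) ≤ 1 := by
    have := Multiset.countP_le_card (fun z : ℂ => δ ≤ |‖z - 1‖ - 1|) {1}
    rw [Multiset.card_singleton] at this
    exact_mod_cast this
  rw [le_div_iff₀ hδ]
  push_cast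
  have h3 : (1 : ℝ) ≤ n * Real.log n := by nlinarith
  nlinarith

end Pool.Agent.H19.FK.Ann
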