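import Mathlib
import Pool.Agent.H19.FK.Stm

set_option autoImplicit false

/-! Final assembly (helper956, for helper19). -/

open Polynomial

namespace Pool.Agent.H19.FK.End

/-- a nonzero integer has norm at least one -/
theorem one_le_int {a : ℤ} (h : a ≠ 0) : 1 ≤ ‖(a : ℂ)‖ := by
  have h1 : (1 : ℤ) ≤ |a| := Int.one_le_abs h
  have h2 : ‖(a : ℂ)‖ = ((|a| : ℤ) : ℝ) := by
    rw [Complex.norm_intCast]
    push_cast
    rfl
  rw [h2]
  exact_mod_cast h1

/-- the shifted cofactor -/
noncomputable def sh (H : ℤ[X]) : ℂ[X] := (H.map (Int.castRingHom ℂ)).comp (X + C 1)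

theorem sh_eval (H : ℤ[X]) (y : ℂ) : (sh H).eval y = aeval (y + 1) H := by
  unfold sh
  rw [eval_comp, eval_add, eval_X, eval_C, eval_map, aeval_def]
  rfl

theorem sh_zero (H : ℤ[X]) : (sh H).eval 0 = ((H.eval 1 : ℤ) : ℂ) := by
  rw [sh_eval, zero_add]
  have h1 : (1 : ℂ) = algebraMap ℤ ℂ 1 := by simp
  rw [h1, aeval_algebraMap_apply]
  simp

theorem sh_lc (H : ℤ[X]) : (sh H).leadingCoeff = ((H.leadingCoeff : ℤ) : ℂ) := by
  unfold sh
  rw [leadingCoeff_comp (by rw [natDegree_X_add_C]; norm_num), leadingCoeff_X_add_C, one_pow, mul_one,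
    leadingCoeff_map_of_injective (RingHom.injective_int _)]
  rfl

theorem sh_deg (H : ℤ[X]) : (sh H).natDegree = H.natDegree := by
  unfold sh
  rw [natDegree_comp, natDegree_X_add_C, mul_one,
    natDegree_map_eq_of_injective (RingHom.injective_int _)]

theorem aeval_prod (H : ℤ[X]) (z : ℂ) : aeval z ((X - 1) * H) = (z - 1) * aeval z H := by
  rw [map_mul, map_sub, aeval_X, map_one]

/-- the bound on the closed disc -/
theorem sh_bd (H : ℤ[X]) (M : ℝ) (h : ∀ y : ℂ, ‖y‖ = 1 → ‖aeval (y + 1) ((X - 1) * H)‖ ≤ M)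
    (y : ℂ) (hy : ‖y‖ ≤ 1) : ‖(sh H).eval y‖ ≤ M := by
  have hd : DiffContOnCl ℂ (fun y : ℂ => (sh H).eval y) (Metric.ball 0 1) :=
    (sh H).differentiable.diffContOnCl
  refine Complex.norm_le_of_forall_mem_frontier_norm_le Metric.isBounded_ball hd ?_ ?_
  · intro z hz
    rw [frontier_ball (0 : ℂ) one_ne_zero, mem_sphere_zero_iff_norm] at hz
    have h1 := h z hz
    rw [aeval_prod, add_sub_cancel_right, norm_mul, hz, one_mul] at h1
    rwa [sh_eval]
  · rw [closure_ball (0 : ℂ) one_ne_zero, mem_closedBall_zero_iff]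
    exact hy

theorem t_end (hF : S_ffact) (hB : S_fbd) (hE : S_erd) : S_end := by
  intro ζ hζ ε hε
  obtain ⟨C', hC', hE⟩ := hE ε hε
  obtain ⟨C, hC, hB⟩ := hB
  set K : ℝ := C' * C + 1 with hK
  have hK0 : 0 < K := by positivity
  have h1 := Real.isLittleO_log_id_atTop.def (show (0 : ℝ) < 1 / (4 * K) by positivity)
  have h2 := tendsto_natCast_atTop_atTop.eventually h1
  obtain ⟨N0, hN0⟩ := Filter.eventually_atTop.1 h2
  refine ⟨max N0 7, fun n hn F hFP => ?_⟩
  have hn0 : N0 ≤ n := (le_max_left _ _).trans hn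
  have hn7 : 7 ≤ n := (le_max_right _ _).trans hn
  by_contra hc
  push Not at hc
  obtain ⟨hdeg, H, hFH, hH1⟩ := hF n F (by omega) hFP
  have hH0 : H ≠ 0 := by
    rintro rfl
    exact hH1 (by simp)
  have hd : H.natDegree + n = n.choose 2 := by
    have hx : ((X : ℤ[X]) - 1) ≠ 0 := by
      have := X_sub_C_ne_zero (1 : ℤ)
      rwa [C_1] at this
    have h3 : F.natDegree = 1 + H.natDegree := by
      rw [hFH, natDegree_mul hx hH0]
      congr 1
      have := natDegree_X_sub_C (1 : ℤ)
      rwa [C_1] at this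
    omega
  set M : ℝ := Real.exp (C * n * Real.log n) with hM
  have hn1 : (7 : ℝ) ≤ n := by exact_mod_cast hn7
  have hlog : 0 ≤ Real.log n := Real.log_natCast_nonneg n
  have hM1 : 1 ≤ M := Real.one_le_exp (by positivity)
  have hb := hE (ζ - 1) (sh H) M hζ hM1
    (by
      rw [sh_lc]
      exact one_le_int (leadingCoeff_ne_zero.2 hH0))
    (by
      rw [sh_zero]
      exact one_le_int hH1)
    (fun y hy => sh_bd H M (fun z hz => by
      rw [← hFH]
      refine hB n F (by omega) hFP (z + 1) ?_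
      rw [add_sub_cancel_right, hz]
      have : (0 : ℝ) ≤ 1 / n := by positivity
      linarith) y hy)
    (fun w hw => by
      have h3 : aeval (w + 1) F = 0 := by
        rw [hFH, aeval_prod, ← sh_eval, hw, mul_zero]
      have h4 := hc (w + 1) h3
      have h5 : w - (ζ - 1) = w + 1 - ζ := by ring
      rwa [h5])
  rw [sh_deg, hM, Real.log_exp] at hb
  have h3 : (H.natDegree : ℝ) + n = n * (n - 1) / 2 := by
    rw [← Nat.cast_choose_two ℝ n, ← hd]
    push_cast
    ring
  have h4 := hN0 n hn0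
  simp only [id] at h4
  rw [Real.norm_of_nonneg hlog, Real.norm_of_nonneg (by positivity : (0 : ℝ) ≤ n)] at h4
  have h5 : K * Real.log n ≤ n / 4 := by
    calc K * Real.log n ≤ K * (1 / (4 * K) * n) := by gcongr
      _ = n / 4 := by field_simp
  have h6 : C' * C * Real.log n ≤ n / 4 := by
    have : C' * C * Real.log n ≤ K * Real.log n := by
      rw [hK]
      nlinarith
    linarith
  have h7 : C' * (C * n * Real.log n) ≤ n * (n / 4) := by
    calc C' * (C * n * Real.log n) = n * (C' * C * Real.log n) := by ring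
      _ ≤ n * (n / 4) := by gcongr
  nlinarith

end Pool.Agent.H19.FK.End
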