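import Mathlib
import Pool.Agent.H19.FK.Stm

set_option autoImplicit false

open Polynomial

namespace Pool.Agent.H19.FK.Erd

/-- a common radius -/
theorem exists_s (R : Multiset ℂ) : (∀ c ∈ R, ‖c‖ < 1) → ∃ s : ℝ, 0 < s ∧ s < 1 ∧ ∀ c ∈ R, ‖c‖ + s ≤ 1 := by
  induction R using Multiset.induction_on with
  | empty =>
    intro _
    exact ⟨1/2, by norm_num, by norm_num, by simp⟩
  | cons a R ih =>
    intro h
    obtain ⟨s, hs0, hs1, hs⟩ := ih (fun c hc => h c (Multiset.mem_cons_of_mem hc))
    have ha := h a (Multiset.mem_cons_self a R)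
    refine ⟨min s (1 - ‖a‖), lt_min hs0 (by linarith), lt_of_le_of_lt (min_le_left _ _) hs1, ?_⟩
    intro c hc
    rcases Multiset.mem_cons.1 hc with rfl | hc
    · have := min_le_right s (1 - ‖c‖)
      linarith
    · have := min_le_left s (1 - ‖a‖)
      have := hs c hc
      linarith

/-- the product form of the norm -/
theorem norm_eval_eq (P : ℂ[X]) (y : ℂ) :
    ‖P.eval y‖ = ‖P.leadingCoeff‖ * (P.roots.map (fun z => ‖y - z‖)).prod := by
  have h : P = C P.leadingCoeff * (P.roots.map (fun a => X - C a)).prod :=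
    (Polynomial.C_leadingCoeff_mul_prod_multiset_X_sub_C
      (IsAlgClosed.card_roots_eq_natDegree)).symm
  have h2 : P.eval y = P.leadingCoeff * (P.roots.map (fun z => y - z)).prod := by
    conv_lhs => rw [h]
    rw [eval_mul, eval_C, eval_multiset_prod, Multiset.map_map]
    simp
  rw [h2, norm_mul]
  congr 1
  generalize P.roots = R
  induction R using Multiset.induction_on with
  | empty => simp
  | cons a R ih => simp [ih]

/-- log of a product of nonzero numbers -/
theorem log_prod_map (R : Multiset ℂ) (f : ℂ → ℝ) :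
    (R.map f).prod ≠ 0 → Real.log (R.map f).prod = (R.map (fun z => Real.log (f z))).sum := by
  induction R using Multiset.induction_on with
  | empty => simp
  | cons a R ih =>
    intro h
    simp only [Multiset.map_cons, Multiset.prod_cons, Multiset.sum_cons] at h ⊢
    have h1 := left_ne_zero_of_mul h
    have h2 := right_ne_zero_of_mul h
    rw [Real.log_mul h1 h2, ih h2]

/-- the case of the point one -/
theorem main1 (hJ : S_jen) (r : ℝ) (hr : 0 < r) (Q : ℂ[X]) (δ ε : ℝ) (hQm : Q.Monic) (hδ : 0 < δ) (hε : 0 < ε)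
    (hε1 : ε < 1) (hroot : ∀ z : ℂ, Q.eval z = 0 → ‖z‖ < 1)
    (hlarge : ∀ z : ℂ, 1 - ε ≤ ‖z‖ → r ≤ ‖z - 1‖ → 1 + δ ≤ ‖Q.eval z‖)
    (s : ℝ) (hs0 : 0 < s) (hs1 : s < 1) (hs : ∀ c ∈ Q.roots, ‖c‖ + s ≤ 1)
    (P : ℂ[X]) (M : ℝ) (hM : 1 ≤ M)
    (hlc : 1 ≤ ‖P.leadingCoeff‖) (hP0 : 1 ≤ ‖P.eval 0‖) (hPM : ∀ y : ℂ, ‖y‖ ≤ 1 → ‖P.eval y‖ ≤ M)
    (hPr : ∀ z : ℂ, P.eval z = 0 → r ≤ ‖z - 1‖) :
    (P.natDegree : ℝ) * Real.log (1 + δ) ≤
      ((Multiset.card Q.roots : ℝ) + (Real.log (1 + δ) - (Multiset.card Q.roots : ℝ) * Real.log s) / ε) * Real.log M := by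
  set K : ℝ := (Multiset.card Q.roots : ℝ) with hK
  set B : ℝ := (Real.log (1 + δ) - K * Real.log s) / ε with hB
  have hPne : P ≠ 0 := by
    rintro rfl
    simp at hlc
    linarith
  have hKnn : 0 ≤ K := by rw [hK]; positivity
  have hls : Real.log s < 0 := Real.log_neg hs0 hs1
  have hld : 0 < Real.log (1 + δ) := Real.log_pos (by linarith)
  have hBnn : 0 ≤ B := by
    rw [hB]
    apply div_nonneg _ hε.le
    nlinarith
  have hm : 0 ≤ Real.log M := Real.log_nonneg hM
  have hl : 0 ≤ Real.log ‖P.leadingCoeff‖ := Real.log_nonneg hlc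
  -- (1)
  have h1 := hJ P 0 1 M hPne one_pos hM (fun y hy => hPM y (by rw [sub_zero] at hy; exact hy.le))
  -- (2)
  have hprod : (P.roots.map (fun z => ‖(0:ℂ) - z‖)).prod ≠ 0 := by
    intro h0
    have := norm_eval_eq P 0
    rw [h0, mul_zero] at this
    linarith
  have h2 : 0 ≤ Real.log ‖P.leadingCoeff‖ + (P.roots.map (fun z => Real.log ‖(0:ℂ) - z‖)).sum := by
    rw [← log_prod_map _ _ hprod, ← Real.log_mul (by linarith) hprod, ← norm_eval_eq]
    exact Real.log_nonneg hP0
  -- splitting of the logarithm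
  have hz0 : ∀ z ∈ P.roots, z ≠ 0 := by
    intro z hz hzz
    have h3 : P.eval z = 0 := (Polynomial.mem_roots hPne).1 hz
    rw [hzz] at h3
    rw [h3] at hP0
    simp at hP0
    linarith
  set nl : ℂ → ℝ := fun z => - Real.log (min 1 ‖z‖) with hnl
  have hsplit : ∀ z ∈ P.roots, nl z = Real.log (max 1 ‖z - 0‖) - Real.log ‖(0:ℂ) - z‖ := by
    intro z hz
    have hzz := hz0 z hz
    have hzp : 0 < ‖z‖ := norm_pos_iff.2 hzz
    simp only [hnl, sub_zero, zero_sub, norm_neg]
    rcases le_total 1 ‖z‖ with h | h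
    · rw [min_eq_left h, max_eq_right h]; simp
    · rw [min_eq_right h, max_eq_left h]; simp
  have hnlsum : (P.roots.map nl).sum ≤ Real.log M := by
    rw [Multiset.map_congr rfl hsplit, Multiset.sum_map_sub]
    linarith
  -- (3)
  set G : ℂ → ℝ := fun z => (Q.roots.map (fun c => Real.log (max s ‖z - c‖))).sum with hG
  have hGsum : (P.roots.map G).sum ≤ K * Real.log M := by
    have hswap : (P.roots.map G).sum =
        (Q.roots.map (fun c => (P.roots.map (fun z => Real.log (max s ‖z - c‖))).sum)).sum := by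
      simp only [hG]
      rw [Multiset.sum_map_sum_map]
    rw [hswap]
    have hle : ∀ c ∈ Q.roots, (P.roots.map (fun z => Real.log (max s ‖z - c‖))).sum ≤ Real.log M := by
      intro c hc
      have := hJ P c s M hPne hs0 hM (fun y hy => hPM y (by
        have h4 : ‖y‖ ≤ ‖y - c‖ + ‖c‖ := by
          have := norm_add_le (y - c) c
          simpa using this
        have := hs c hc
        linarith))
      linarith
    have := Multiset.sum_map_le_sum_map _ (fun _ => Real.log M) hle
    refine this.trans ?_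
    rw [Multiset.map_const', Multiset.sum_replicate, nsmul_eq_mul]
  -- lower bounds for G
  have hGK : ∀ z : ℂ, K * Real.log s ≤ G z := by
    intro z
    have := Multiset.sum_map_le_sum_map (s := Q.roots) (fun _ => Real.log s) (fun c => Real.log (max s ‖z - c‖))
      (fun c _ => Real.log_le_log hs0 (le_max_left _ _))
    rw [Multiset.map_const', Multiset.sum_replicate, nsmul_eq_mul] at this
    exact this
  have hGQ : ∀ z : ℂ, Q.eval z ≠ 0 → Real.log ‖Q.eval z‖ ≤ G z := by
    intro z hz
    have h5 := norm_eval_eq Q z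
    rw [hQm.leadingCoeff, norm_one, one_mul] at h5
    have h6 : (Q.roots.map (fun c => ‖z - c‖)).prod ≠ 0 := by
      rw [← h5]
      exact norm_ne_zero_iff.2 hz
    rw [h5, log_prod_map _ _ h6]
    apply Multiset.sum_map_le_sum_map
    intro c hc
    have h7 : z - c ≠ 0 := by
      intro h8
      apply hz
      have h9 : z = c := sub_eq_zero.1 h8
      rw [h9]
      exact (Polynomial.mem_roots hQm.ne_zero).1 hc
    exact Real.log_le_log (norm_pos_iff.2 h7) (le_max_right _ _)
  -- (4)
  have hpt : ∀ z ∈ P.roots, Real.log (1 + δ) - B * nl z ≤ G z := by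
    intro z hz
    have hzr : r ≤ ‖z - 1‖ := hPr z ((Polynomial.mem_roots hPne).1 hz)
    have hzz := hz0 z hz
    have hzp : 0 < ‖z‖ := norm_pos_iff.2 hzz
    rcases le_or_gt (1 - ε) ‖z‖ with h | h
    · have h10 := hlarge z h hzr
      have h11 : Q.eval z ≠ 0 := by
        intro h12
        rw [h12, norm_zero] at h10
        linarith
      have h13 := hGQ z h11
      have h14 : Real.log (1 + δ) ≤ Real.log ‖Q.eval z‖ := Real.log_le_log (by linarith) h10
      have h15 : 0 ≤ nl z := by
        simp only [hnl]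
        have : Real.log (min 1 ‖z‖) ≤ 0 := Real.log_nonpos (le_min zero_le_one hzp.le) (min_le_left _ _)
        linarith
      have := mul_nonneg hBnn h15
      linarith
    · have h16 : ε ≤ nl z := by
        simp only [hnl]
        rw [min_eq_right (by linarith)]
        have := Real.log_le_sub_one_of_pos hzp
        linarith
      have h17 := hGK z
      have h18 : B * ε = Real.log (1 + δ) - K * Real.log s := by
        rw [hB]
        field_simp
      have h19 : B * ε ≤ B * nl z := mul_le_mul_of_nonneg_left h16 hBnn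
      linarith
  have hsum := Multiset.sum_map_le_sum_map _ _ hpt
  have hcard : (Multiset.card P.roots : ℝ) = P.natDegree := by
    rw [IsAlgClosed.card_roots_eq_natDegree]
  have hLHS : (P.roots.map (fun z => Real.log (1 + δ) - B * nl z)).sum =
      (P.natDegree : ℝ) * Real.log (1 + δ) - B * (P.roots.map nl).sum := by
    rw [Multiset.sum_map_sub, Multiset.map_const', Multiset.sum_replicate, nsmul_eq_mul, hcard, Multiset.sum_map_mul_left]
  rw [hLHS] at hsum
  have h20 : B * (P.roots.map nl).sum ≤ B * Real.log M := mul_le_mul_of_nonneg_left hnlsum hBnn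
  nlinarith

theorem t_erd (hQ : S_qpol) (hJ : S_jen) : S_erd := by
  intro r hr
  obtain ⟨Q, δ, ε, hQm, hδ, hε, hε1, hroot, hlarge⟩ := hQ r hr
  obtain ⟨s, hs0, hs1, hs⟩ := exists_s Q.roots
    (fun c hc => hroot c ((Polynomial.mem_roots hQm.ne_zero).1 hc))
  have hld : 0 < Real.log (1 + δ) := Real.log_pos (by linarith)
  have hls : Real.log s < 0 := Real.log_neg hs0 hs1
  have hKnn : (0 : ℝ) ≤ (Multiset.card Q.roots : ℝ) := by positivity
  have hBpos : 0 < (Real.log (1 + δ) - (Multiset.card Q.roots : ℝ) * Real.log s) / ε := by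
    apply div_pos _ hε
    nlinarith
  refine ⟨((Multiset.card Q.roots : ℝ) + (Real.log (1 + δ) - (Multiset.card Q.roots : ℝ) * Real.log s) / ε) /
    Real.log (1 + δ), by positivity, ?_⟩
  intro ζ P M hζ hM hlc hP0 hPM hPr
  have hζ0 : ζ ≠ 0 := by
    intro h
    rw [h, norm_zero] at hζ
    exact zero_ne_one hζ
  have hnd : (C ζ * X : ℂ[X]).natDegree = 1 := Polynomial.natDegree_C_mul_X ζ hζ0
  have hcomp : ∀ z : ℂ, (P.comp (C ζ * X)).eval z = P.eval (ζ * z) := by
    intro z
    simp [Polynomial.eval_comp]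
  have hmain := main1 hJ r hr Q δ ε hQm hδ hε hε1 hroot hlarge s hs0 hs1 hs (P.comp (C ζ * X)) M hM
    (by
      rw [Polynomial.leadingCoeff_comp (by rw [hnd]; exact one_ne_zero)]
      simp [norm_mul, norm_pow, hζ, hlc])
    (by rw [hcomp, mul_zero]; exact hP0)
    (fun y hy => by
      rw [hcomp]
      exact hPM _ (by rw [norm_mul, hζ, one_mul]; exact hy))
    (fun z hz => by
      rw [hcomp] at hz
      have h1 := hPr _ hz
      have h2 : ζ * z - ζ = ζ * (z - 1) := by ring
      rw [h2, norm_mul, hζ, one_mul] at h1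
      exact h1)
  rw [Polynomial.natDegree_comp, hnd, mul_one] at hmain
  rw [div_mul_eq_mul_div, le_div_iff₀ hld]
  exact hmain

end Pool.Agent.H19.FK.Erd
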