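import Mathlib
import Pool.Agent.H19.FK.Stm

set_option autoImplicit false

open Polynomial

namespace Pool.Agent.H19.FK.Exist

open Pool.Agent.H19.FK

lemma X_pow_dvd (n : ℕ) (G : ℤ[X]) (h : ∀ q : ℕ, 1 ≤ q → (q : ℤ) ^ n ∣ G.eval (q : ℤ)) : X ^ n ∣ G := by
  induction n with
  | zero => simp
  | succ n ih =>
    obtain ⟨G', rfl⟩ := ih fun q hq => (pow_dvd_pow _ (Nat.le_succ n)).trans (h q hq)
    have h1 : ∀ q : ℕ, 1 ≤ q → (q : ℤ) ∣ G'.eval (q : ℤ) := by
      intro q hq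
      have h2 := h q hq
      rw [eval_mul, eval_pow, eval_X, pow_succ] at h2
      have hq0 : (q : ℤ) ^ n ≠ 0 := pow_ne_zero _ (by exact_mod_cast (by omega : q ≠ 0))
      exact (mul_dvd_mul_iff_left hq0).1 h2
    have h2 : ∀ q : ℕ, 1 ≤ q → (q : ℤ) ∣ G'.eval 0 := by
      intro q hq
      have h3 : ((q : ℤ) - 0) ∣ G'.eval (q : ℤ) - G'.eval 0 := Polynomial.sub_dvd_eval_sub _ _ _
      rw [sub_zero] at h3
      have h4 := dvd_sub (h1 q hq) h3
      simpa using h4
    have h3 : G'.eval 0 = 0 := by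
      have h4 := h2 ((G'.eval 0).natAbs + 1) (by omega)
      apply Int.eq_zero_of_abs_lt_dvd h4
      push_cast
      rw [Int.abs_eq_natAbs]
      simp
    have h4 : X ∣ G' := by
      rw [X_dvd_iff, coeff_zero_eq_eval_zero]
      exact h3
    rw [pow_succ]
    exact mul_dvd_mul_left _ h4

theorem t_exist (hD : S_dual) (hP : S_part) (n : ℕ) : ∃ F : ℤ[X], IsFlowPoly n F := by
  set G : ℤ[X] := (-1) ^ (prs n).card * ∑ k ∈ Finset.range (n + 1), descPochhammer ℤ k * (A n k).comp (1 - X) with hG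
  have hev : ∀ q : ℕ, 1 ≤ q → G.eval (q : ℤ) = (q : ℤ) ^ n * (flowCount n q : ℤ) := by
    intro q hq
    have hq0 : NeZero q := ⟨by omega⟩
    rw [hD n q hq0, hG, eval_mul, eval_pow, eval_neg, eval_one, eval_finset_sum]
    have h1 : ∑ k ∈ Finset.range (n + 1), eval (q : ℤ) (descPochhammer ℤ k * (A n k).comp (1 - X)) =
        ∑ σ : Fin n → Fin q, ∏ p ∈ prs n, (if σ p.1 = σ p.2 then 1 - (q : ℤ) else 1) := by
      rw [hP n q (1 - q)]
      apply Finset.sum_congr rfl
      intro k _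
      rw [eval_mul, descPochhammer_eval_eq_descFactorial, eval_comp]
      simp
    rw [h1, Finset.mul_sum]
    apply Finset.sum_congr rfl
    intro σ _
    rw [← Finset.prod_const, ← Finset.prod_mul_distrib]
    apply Finset.prod_congr rfl
    intro p _
    split_ifs <;> ring
  obtain ⟨F, hF⟩ := X_pow_dvd n G fun q hq => by
    rw [hev q hq]
    exact dvd_mul_right _ _
  refine ⟨F, fun q hq => ?_⟩
  have h1 := hev q hq
  rw [hF, eval_mul, eval_pow, eval_X] at h1
  have hq0 : (q : ℤ) ^ n ≠ 0 := pow_ne_zero _ (by exact_mod_cast (by omega : q ≠ 0))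
  exact mul_left_cancel₀ hq0 h1

end Pool.Agent.H19.FK.Exist
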