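import Mathlib
import Pool.Agent.H19.FK.Stm

/-! Project FK (helper19), `S_fbd` (helper137). -/

set_option autoImplicit false

open Polynomial

namespace Pool.Agent.H19.FK.Fbd

theorem desc_bd (n : ℕ) (q : ℂ) (hq : ‖q‖ ≤ 3) : ∀ k, k ≤ n →
    ‖aeval q (descPochhammer ℤ k)‖ ≤ ((n : ℝ) + 3) ^ k := by
  intro k
  induction k with
  | zero => intro _; simp
  | succ k ih =>
    intro hk
    rw [descPochhammer_succ_right, map_mul, norm_mul, pow_succ]
    refine mul_le_mul (ih (by omega)) ?_ (norm_nonneg _) (by positivity)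
    rw [map_sub, aeval_X, map_natCast]
    refine (norm_sub_le _ _).trans ?_
    rw [Complex.norm_natCast]
    have : (k : ℝ) ≤ n := by exact_mod_cast (by omega : k ≤ n)
    linarith

theorem circ (hF : S_form) (hA : S_abd) (n : ℕ) (F : ℤ[X]) (hn : 3 ≤ n) (h : IsFlowPoly n F) (q : ℂ)
    (hq : ‖q - 1‖ = 1 + 1 / (n : ℝ)) : ‖aeval q F‖ ≤ Real.exp (6 * n * Real.log n) := by
  have hn3 : (3 : ℝ) ≤ n := by exact_mod_cast hn
  have hn0 : (0 : ℝ) < n := by linarith
  have h1n : (0 : ℝ) < 1 / n := by positivity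
  have h1n' : 1 / (n : ℝ) ≤ 1 := by
    rw [div_le_one hn0]; linarith
  have hq3 : ‖q‖ ≤ 3 := by
    have : ‖q‖ ≤ ‖q - 1‖ + ‖(1 : ℂ)‖ := by
      have := norm_add_le (q - 1) 1
      simpa using this
    rw [norm_one, hq] at this
    linarith
  have hq1 : 1 / (n : ℝ) ≤ ‖q‖ := by
    have : ‖q - 1‖ ≤ ‖q‖ + ‖(1 : ℂ)‖ := norm_sub_le _ _
    rw [norm_one, hq] at this
    linarith
  have hform := congrArg (aeval q) (hF n F h)
  rw [map_mul, map_mul, map_pow, map_pow, map_neg, map_one, aeval_X, map_sum] at hform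
  have hnorm := congrArg norm hform
  rw [norm_mul, norm_mul, norm_pow, norm_pow, norm_neg, norm_one, one_pow, one_mul] at hnorm
  have hterm : ∀ k ∈ Finset.range (n + 1),
      ‖aeval q (descPochhammer ℤ k * (A n k).comp (1 - X))‖ ≤
        ((n : ℝ) + 3) ^ n * ((n : ℝ) ^ n * (1 + 1 / (n : ℝ)) ^ (n.choose 2)) := by
    intro k hk
    rw [Finset.mem_range] at hk
    rw [map_mul, norm_mul]
    refine mul_le_mul ?_ ?_ (norm_nonneg _) (by positivity)
    · refine (desc_bd n q hq3 k (by omega)).trans ?_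
      exact pow_le_pow_right₀ (by linarith) (by omega)
    · rw [aeval_comp, map_sub, map_one, aeval_X]
      refine hA n k (1 - q) (1 + 1 / (n : ℝ)) (by linarith) ?_
      rw [norm_sub_rev, hq]
  have hsum : ‖q‖ ^ n * ‖aeval q F‖ ≤
      ((n : ℝ) + 1) * (((n : ℝ) + 3) ^ n * ((n : ℝ) ^ n * (1 + 1 / (n : ℝ)) ^ (n.choose 2))) := by
    rw [hnorm]
    refine (norm_sum_le _ _).trans ?_
    refine (Finset.sum_le_sum hterm).trans ?_
    rw [Finset.sum_const, Finset.card_range, nsmul_eq_mul]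
    push_cast
    exact le_rfl
  have hlow : (1 / (n : ℝ)) ^ n * ‖aeval q F‖ ≤ ‖q‖ ^ n * ‖aeval q F‖ := by
    apply mul_le_mul_of_nonneg_right _ (norm_nonneg _)
    exact pow_le_pow_left₀ h1n.le hq1 n
  have hF1 : ‖aeval q F‖ ≤ (n : ℝ) ^ n *
      (((n : ℝ) + 1) * (((n : ℝ) + 3) ^ n * ((n : ℝ) ^ n * (1 + 1 / (n : ℝ)) ^ (n.choose 2)))) := by
    have h2 := hlow.trans hsum
    have h3 := mul_le_mul_of_nonneg_left h2 (pow_nonneg hn0.le n)
    have h4 : (n : ℝ) ^ n * ((1 / (n : ℝ)) ^ n * ‖aeval q F‖) = ‖aeval q F‖ := by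
      rw [← mul_assoc, ← mul_pow, mul_one_div_cancel hn0.ne', one_pow, one_mul]
    rw [h4] at h3
    exact h3
  -- numerical bounds
  have hlog1 : (1 : ℝ) ≤ Real.log n := by
    rw [Real.le_log_iff_exp_le hn0]
    have := Real.exp_one_lt_d9
    linarith
  have hexp : ∀ m : ℕ, (n : ℝ) ^ m = Real.exp (m * Real.log n) := by
    intro m
    rw [Real.exp_nat_mul, Real.exp_log hn0]
  have b1 : (n : ℝ) + 1 ≤ (n : ℝ) ^ n := by
    have : (n : ℝ) + 1 ≤ (n : ℝ) ^ 2 := by nlinarith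
    exact this.trans (pow_le_pow_right₀ (by linarith) (by omega))
  have b2 : ((n : ℝ) + 3) ^ n ≤ (n : ℝ) ^ (2 * n) := by
    rw [pow_mul]
    apply pow_le_pow_left₀ (by linarith)
    nlinarith
  have b3 : (1 + 1 / (n : ℝ)) ^ (n.choose 2) ≤ (n : ℝ) ^ n := by
    have h5 : (1 + 1 / (n : ℝ)) ≤ Real.exp (1 / n) := by
      have := Real.add_one_le_exp (1 / (n : ℝ))
      linarith
    have h6 : (1 + 1 / (n : ℝ)) ^ (n.choose 2) ≤ Real.exp (1 / n) ^ (n.choose 2) :=
      pow_le_pow_left₀ (by linarith) h5 _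
    refine h6.trans ?_
    rw [← Real.exp_nat_mul, hexp]
    apply Real.exp_le_exp.2
    have h7 : ((n.choose 2 : ℕ) : ℝ) * (1 / n) ≤ n := by
      rw [Nat.cast_choose_two, mul_one_div, div_le_iff₀ hn0]
      nlinarith
    nlinarith
  have hall : (n : ℝ) ^ n *
      (((n : ℝ) + 1) * (((n : ℝ) + 3) ^ n * ((n : ℝ) ^ n * (1 + 1 / (n : ℝ)) ^ (n.choose 2)))) ≤
      (n : ℝ) ^ n * ((n : ℝ) ^ n * ((n : ℝ) ^ (2 * n) * ((n : ℝ) ^ n * (n : ℝ) ^ n))) := by
    gcongr
  refine (hF1.trans hall).trans ?_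
  rw [← pow_add, ← pow_add, ← pow_add, ← pow_add, hexp]
  apply le_of_eq
  congr 1
  push_cast
  ring



theorem t_fbd (hF : S_form) (hA : S_abd) : S_fbd := by
  refine ⟨6, by norm_num, ?_⟩
  intro n F hn h q hq
  have hn0 : (0 : ℝ) < n := by
    have : (3 : ℝ) ≤ n := by exact_mod_cast hn
    linarith
  have hr : (1 : ℝ) + 1 / (n : ℝ) ≠ 0 := by positivity
  have hd : DiffContOnCl ℂ (fun z : ℂ => aeval z F) (Metric.ball (1 : ℂ) (1 + 1 / (n : ℝ))) := by
    have : Differentiable ℂ (fun z : ℂ => aeval z F) := F.differentiable_aeval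
    exact this.diffContOnCl
  refine Complex.norm_le_of_forall_mem_frontier_norm_le (U := Metric.ball (1 : ℂ) (1 + 1 / (n : ℝ)))
    Metric.isBounded_ball hd ?_ ?_
  · intro z hz
    rw [frontier_ball _ hr, mem_sphere_iff_norm] at hz
    exact circ hF hA n F hn h z hz
  · rw [closure_ball _ hr, mem_closedBall_iff_norm]
    exact hq

end Pool.Agent.H19.FK.Fbd
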