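import Mathlib
import Pool.Agent.H19.FK.Stm

/-!
Project FK (helper19), leaf FFACT: degree of the flow polynomial of `K_n`, simple zero at `1`.
-/

set_option autoImplicit false

open Polynomial

namespace Pool.Agent.H19.FK.Ffact

theorem natDegree_one_sub : (1 - X : ℤ[X]).natDegree = 1 := by
  have h : (1 - X : ℤ[X]) = -(X - C 1) := by
    rw [map_one]; ring
  rw [h, natDegree_neg, natDegree_X_sub_C]

theorem one_sub_ne : (1 - X : ℤ[X]) ≠ 0 := by
  intro h
  have := natDegree_one_sub
  rw [h] at this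
  simp at this

theorem comb {n k : ℕ} (hn : 3 ≤ n) (h2 : 2 ≤ k) (hk : k ≤ n) :
    k + (n - k + 1).choose 2 ≤ n.choose 2 := by
  obtain ⟨j, rfl⟩ := Nat.exists_eq_add_of_le hk
  rw [Nat.add_sub_cancel_left]
  have h1 : ∀ m : ℕ, (m + 1).choose 2 * 2 = (m + 1) * m := by
    intro m
    rw [Nat.choose_two_right, Nat.add_sub_cancel]
    exact Nat.div_mul_cancel (Nat.even_mul_succ_self m |>.two_dvd |> fun h => by rwa [mul_comm] at h)
  obtain ⟨i, rfl⟩ := Nat.exists_eq_add_of_le h2
  have e1 := h1 j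
  have e2 := h1 (1 + i + j)
  rw [show 1 + i + j + 1 = 2 + i + j by ring] at e2
  have h3 : 1 ≤ i + j := by omega
  nlinarith [Nat.zero_le i, Nat.zero_le j, Nat.zero_le (i * j), Nat.zero_le (i * i)]

theorem desc_factor : ∀ n : ℕ, 2 ≤ n → ∃ D : ℤ[X], descPochhammer ℤ n = (X - 1) * D ∧ D.eval 1 ≠ 0 := by
  intro n hn
  induction n, hn using Nat.le_induction with
  | base =>
    refine ⟨X, ?_, by simp⟩
    rw [descPochhammer_succ_right, descPochhammer_one]
    push_cast
    ring
  | succ n hn ih =>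
    obtain ⟨D, hD, hD1⟩ := ih
    refine ⟨D * (X - (n : ℤ[X])), ?_, ?_⟩
    · rw [descPochhammer_succ_right, hD]
      ring
    · rw [eval_mul]
      apply mul_ne_zero hD1
      simp only [eval_sub, eval_X, eval_natCast]
      intro h
      have h1 : (n : ℤ) = 1 := by linarith
      have h2 : n = 1 := by exact_mod_cast h1
      omega

theorem t_ffact (hF : S_form) (hA : S_afact) : S_ffact := by
  intro n F hn hfl
  obtain ⟨-, hA2, hA3, hA4, hA5, hA6⟩ := hA
  have hform := hF n F hfl
  set S : ℤ[X] := ∑ k ∈ Finset.range (n + 1), descPochhammer ℤ k * (A n k).comp (1 - X) with hS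
  set N := n.choose 2 with hN
  have hN3 : 3 ≤ N := by
    calc 3 = (3 : ℕ).choose 2 := by decide
      _ ≤ N := Nat.choose_le_choose 2 hn
  -- the terms 0 and 1
  have ht0 : descPochhammer ℤ 0 * (A n 0).comp (1 - X) = 0 := by
    obtain ⟨m, rfl⟩ : ∃ m, n = m + 1 := ⟨n - 1, by omega⟩
    rw [hA4, zero_comp, mul_zero]
  have ht1 : descPochhammer ℤ 1 * (A n 1).comp (1 - X) = X * (1 - X) ^ N := by
    rw [descPochhammer_one, hA3 n (by omega), pow_comp, X_comp]
  have hsplit : S = X * (1 - X) ^ N +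
      ∑ k ∈ Finset.Ico 2 (n + 1), descPochhammer ℤ k * (A n k).comp (1 - X) := by
    rw [hS, Finset.range_eq_Ico, Finset.sum_eq_sum_Ico_succ_bot (by omega),
      Finset.sum_eq_sum_Ico_succ_bot (by omega), ht0, zero_add, zero_add, ht1]
  -- degree
  have hd1 : (X * (1 - X) ^ N : ℤ[X]).natDegree = N + 1 := by
    rw [natDegree_mul X_ne_zero (pow_ne_zero _ one_sub_ne), natDegree_pow, natDegree_one_sub,
      natDegree_X]
    ring
  have hd2 : (∑ k ∈ Finset.Ico 2 (n + 1), descPochhammer ℤ k * (A n k).comp (1 - X)).natDegree ≤ N := by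
    apply natDegree_sum_le_of_forall_le
    intro k hk
    rw [Finset.mem_Ico] at hk
    have hk2 : 2 ≤ k := hk.1
    have hkn : k ≤ n := by omega
    calc (descPochhammer ℤ k * (A n k).comp (1 - X)).natDegree
        ≤ (descPochhammer ℤ k).natDegree + ((A n k).comp (1 - X)).natDegree := natDegree_mul_le
      _ ≤ k + (n - k + 1).choose 2 := by
          apply Nat.add_le_add
          · exact le_of_eq (descPochhammer_natDegree ℤ k)
          · rw [natDegree_comp, natDegree_one_sub, mul_one]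
            exact hA6 n k (by omega) hkn
      _ ≤ N := comb hn hk2 hkn
  have hdS : S.natDegree = N + 1 := by
    rw [hsplit, natDegree_add_eq_left_of_natDegree_lt (by omega), hd1]
  have hneg : (((-1 : ℤ[X]) ^ N) * S).natDegree = N + 1 := by
    rcases neg_one_pow_eq_or ℤ[X] N with h | h
    · rw [h, one_mul, hdS]
    · rw [h, neg_one_mul, natDegree_neg, hdS]
  have hF0 : F ≠ 0 := by
    rintro rfl
    rw [← hform, mul_zero, natDegree_zero] at hneg
    omega
  refine ⟨?_, ?_⟩
  · rw [← hform, natDegree_mul (pow_ne_zero _ X_ne_zero) hF0, natDegree_X_pow] at hneg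
    omega
  · -- the simple zero
    obtain ⟨D, hD, hD1⟩ := desc_factor n (by omega)
    have hmid : ∀ k ∈ Finset.Ico 2 n, ((X - 1) ^ 2 : ℤ[X]) ∣ descPochhammer ℤ k * (A n k).comp (1 - X) := by
      intro k hk
      rw [Finset.mem_Ico] at hk
      obtain ⟨D', hD', -⟩ := desc_factor k hk.1
      have h1 : X ∣ A n k := by
        rw [X_dvd_iff, coeff_zero_eq_eval_zero]
        exact hA5 n k hk.2
      obtain ⟨B, hB⟩ := h1
      rw [hD', hB, mul_comp, X_comp]
      refine ⟨-(D' * B.comp (1 - X)), ?_⟩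
      ring
    have hlast : descPochhammer ℤ n * (A n n).comp (1 - X) = (X - 1) * D := by
      rw [hA2, one_comp, mul_one, hD]
    have hfirst : ((X - 1) ^ 2 : ℤ[X]) ∣ X * (1 - X) ^ N := by
      obtain ⟨M, hM⟩ : ∃ M, N = 2 + M := Nat.exists_eq_add_of_le (by omega)
      rw [hM, pow_add]
      refine ⟨X * (1 - X) ^ M, ?_⟩
      ring
    obtain ⟨U, hU⟩ : ((X - 1) ^ 2 : ℤ[X]) ∣ X * (1 - X) ^ N +
        ∑ k ∈ Finset.Ico 2 n, descPochhammer ℤ k * (A n k).comp (1 - X) :=
      dvd_add hfirst (Finset.dvd_sum hmid)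
    have hSU : S = (X - 1) * ((X - 1) * U + D) := by
      rw [hsplit, Finset.sum_Ico_succ_top (by omega : 2 ≤ n), hlast, ← add_assoc, hU]
      ring
    have hX1 : (X - 1 : ℤ[X]) = X - C 1 := by rw [map_one]
    have hroot : F.eval 1 = 0 := by
      have h1 := congrArg (eval 1) hform
      rw [hSU] at h1
      simpa using h1
    obtain ⟨H, hH⟩ : (X - C 1 : ℤ[X]) ∣ F := dvd_iff_isRoot.2 hroot
    refine ⟨H, by rw [hX1]; exact hH, ?_⟩
    have h2 : (X - 1 : ℤ[X]) * (X ^ n * H) = (X - 1) * ((-1) ^ N * ((X - 1) * U + D)) := by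
      have h3 := hform
      rw [hSU, hH, ← hX1] at h3
      linear_combination h3
    have hne : (X - 1 : ℤ[X]) ≠ 0 := by
      rw [hX1]
      exact X_sub_C_ne_zero 1
    have h4 := mul_left_cancel₀ hne h2
    have h5 := congrArg (eval 1) h4
    simp only [eval_mul, eval_pow, eval_X, one_pow, one_mul, eval_add, eval_sub, eval_one, sub_self,
      zero_mul, zero_add, eval_neg] at h5
    rw [h5]
    exact mul_ne_zero (pow_ne_zero _ (by norm_num)) hD1

end Pool.Agent.H19.FK.Ffact
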