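import Mathlib
import Pool.Agent.H19.FK.Stm

set_option autoImplicit false

open Polynomial

namespace Pool.Agent.H19.FK.Form

theorem card_prs (n : ℕ) : (prs n).card = n.choose 2 := by
  unfold prs
  rw [Finset.card_filter, Fintype.sum_prod_type_right]
  have h : ∀ j : Fin n, ∑ i : Fin n, (if ((i, j) : Fin n × Fin n).1 < ((i, j) : Fin n × Fin n).2 then 1 else 0) =
      (j : ℕ) := by
    intro j
    rw [← Finset.card_filter]
    have e : (Finset.univ.filter fun i : Fin n => ((i, j) : Fin n × Fin n).1 < ((i, j) : Fin n × Fin n).2) =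
        Finset.Iio j := by
      ext i
      simp
    rw [e, Fin.card_Iio]
  rw [Finset.sum_congr rfl fun j _ => h j, Fin.sum_univ_eq_sum_range (fun i => i) n, Finset.sum_range_id,
    Nat.choose_two_right]

theorem t_form (hD : S_dual) (hP : S_part) : S_form := by
  intro n F hF
  apply Polynomial.eq_of_infinite_eval_eq
  have hinf : (Set.range fun q : ℕ => ((q + 1 : ℕ) : ℤ)).Infinite := by
    apply Set.infinite_range_of_injective
    intro a b h
    have h' : ((a + 1 : ℕ) : ℤ) = ((b + 1 : ℕ) : ℤ) := h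
    have := Int.natCast_inj.1 h'
    omega
  refine hinf.mono ?_
  rintro _ ⟨q', rfl⟩
  have hq : 1 ≤ q' + 1 := by omega
  change (X ^ n * F).eval ((q' + 1 : ℕ) : ℤ) =
    ((-1) ^ (n.choose 2) * ∑ k ∈ Finset.range (n + 1), descPochhammer ℤ k * (A n k).comp (1 - X)).eval
      ((q' + 1 : ℕ) : ℤ)
  generalize q' + 1 = q at hq ⊢
  have hne : NeZero q := ⟨by omega⟩
  have h1 : (X ^ n * F).eval (q : ℤ) = (q : ℤ) ^ n * (flowCount n q : ℤ) := by
    rw [eval_mul, eval_pow, eval_X, hF q hq]
  have h2 : ((-1) ^ (n.choose 2) * ∑ k ∈ Finset.range (n + 1),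
      descPochhammer ℤ k * (A n k).comp (1 - X) : ℤ[X]).eval (q : ℤ) =
      (-1) ^ (n.choose 2) * ∑ k ∈ Finset.range (n + 1), (q.descFactorial k : ℤ) * (A n k).eval (1 - (q : ℤ)) := by
    rw [eval_mul, eval_pow, eval_neg, eval_one, eval_finsetSum]
    congr 1
    refine Finset.sum_congr rfl fun k _ => ?_
    rw [eval_mul, descPochhammer_eval_eq_descFactorial, eval_comp, eval_sub, eval_one, eval_X]
  rw [h1, h2, hD n q hne, ← hP n q (1 - (q : ℤ)), Finset.mul_sum]
  refine Finset.sum_congr rfl fun σ _ => ?_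
  rw [← card_prs n, ← Finset.prod_const, ← Finset.prod_mul_distrib]
  refine Finset.prod_congr rfl fun p _ => ?_
  split_ifs <;> ring

end Pool.Agent.H19.FK.Form
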