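import Mathlib
import Pool.Agent.H19.FK.Stm

set_option autoImplicit false

open Polynomial

namespace Pool.Agent.H19.FK.Jen

/-- the logarithm of the maximum, scaled -/
theorem log_max_scale {s : ℝ} (hs : 0 < s) (x : ℂ) :
    Real.log (max s ‖(s : ℂ) * x‖) = Real.log s + Real.posLog ‖x‖ := by
  rw [norm_mul, Complex.norm_of_nonneg hs.le]
  have h1 : max s (s * ‖x‖) = s * max 1 ‖x‖ := by
    rw [mul_max_of_nonneg _ _ hs.le, mul_one]
  rw [h1, Real.log_mul hs.ne' (by positivity), Real.posLog_eq_log_max_one (norm_nonneg _)]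

theorem t_jen : S_jen := by
  intro P c s M hP hs hM hbd
  have hsC : (s : ℂ) ≠ 0 := by exact_mod_cast hs.ne'
  set L : ℂ[X] := C (s : ℂ) * X + C c with hL
  have hLdeg : L.natDegree = 1 := natDegree_linear hsC
  have hLlc : L.leadingCoeff = (s : ℂ) := leadingCoeff_linear hsC
  have hroots : (P.comp L).roots.map (fun x => (s : ℂ) * x + c) = P.roots :=
    P.map_roots_comp_C_mul_X_add_C (s : ℂ) c (isUnit_iff_ne_zero.2 hsC)
  have hcard : Multiset.card (P.comp L).roots = P.natDegree := by
    have h1 := congrArg Multiset.card hroots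
    rw [Multiset.card_map] at h1
    rw [h1]
    exact splits_iff_card_roots.1 (IsAlgClosed.splits P)
  have hlc : Real.log ‖(P.comp L).leadingCoeff‖ =
      Real.log ‖P.leadingCoeff‖ + P.natDegree * Real.log s := by
    rw [leadingCoeff_comp (by rw [hLdeg]; exact one_ne_zero), hLlc, norm_mul, norm_pow,
      Complex.norm_of_nonneg hs.le, Real.log_mul, Real.log_pow]
    · exact norm_ne_zero_iff.2 (leadingCoeff_ne_zero.2 hP)
    · positivity
  have hsum : (P.roots.map (fun z => Real.log (max s ‖z - c‖))).sum =
      P.natDegree * Real.log s + ((P.comp L).roots.map (fun x => Real.posLog ‖x‖)).sum := by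
    rw [← hroots, Multiset.map_map]
    have h1 : ((fun z : ℂ => Real.log (max s ‖z - c‖)) ∘ fun x => (s : ℂ) * x + c) =
        fun x => Real.log s + Real.posLog ‖x‖ := by
      funext x
      simp only [Function.comp_apply, add_sub_cancel_right]
      exact log_max_scale hs x
    rw [h1, Multiset.sum_map_add, Multiset.map_const', Multiset.sum_replicate, hcard,
      nsmul_eq_mul]
  have hJ := logMahlerMeasure_eq_log_leadingCoeff_add_sum_log_roots (P.comp L)
  have hle : (P.comp L).logMahlerMeasure ≤ Real.log M := by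
    rw [logMahlerMeasure_def]
    refine Real.circleAverage_mono_on_of_le_circle (intervalIntegrable_mahlerMeasure (P.comp L)) ?_
    intro w hw
    rw [abs_one, mem_sphere_iff_norm, sub_zero] at hw
    have h1 : ‖(P.comp L).eval w‖ ≤ M := by
      rw [eval_comp]
      refine hbd _ ?_
      rw [hL]
      simp only [eval_add, eval_mul, eval_C, eval_X, add_sub_cancel_right]
      rw [norm_mul, hw, mul_one, Complex.norm_of_nonneg hs.le]
    rcases (norm_nonneg ((P.comp L).eval w)).eq_or_lt with h0 | h0
    · rw [← h0, Real.log_zero]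
      exact Real.log_nonneg hM
    · exact Real.log_le_log h0 h1
  rw [hsum]
  rw [hJ, hlc] at hle
  linarith

end Pool.Agent.H19.FK.Jen
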