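import Mathlib
import Pool.Agent.H19.FK.Stm

/-!
# PART: sum over colourings by the colour classes (helper331, for helper19)
-/

set_option autoImplicit false

open Finset Polynomial

namespace Pool.Agent.H19.FK.Part

theorem pairs_card {n : ℕ} (S : Finset (Fin n)) :
    (univ.filter fun p : Fin n × Fin n => p.1 < p.2 ∧ p.1 ∈ S ∧ p.2 ∈ S).card =
      S.card.choose 2 := by
  induction S using Finset.induction_on_max with
  | empty => simp
  | insert a S ha ih =>
    have haS : a ∉ S := fun h => lt_irrefl _ (ha a h)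
    have h1 : (univ.filter fun p : Fin n × Fin n =>
        p.1 < p.2 ∧ p.1 ∈ insert a S ∧ p.2 ∈ insert a S) =
        (univ.filter fun p : Fin n × Fin n => p.1 < p.2 ∧ p.1 ∈ S ∧ p.2 ∈ S) ∪
          S.image (fun x => (x, a)) := by
      ext ⟨x, z⟩
      simp only [mem_filter, mem_univ, true_and, mem_insert, mem_union, mem_image, Prod.mk.injEq]
      constructor
      · rintro ⟨h1, h2, h3⟩
        rcases h2 with rfl | h2
        · rcases h3 with rfl | h3
          · exact absurd h1 (lt_irrefl _)
          · exact absurd (ha z h3) (not_lt.2 h1.le)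
        · rcases h3 with rfl | h3
          · exact Or.inr ⟨x, h2, rfl, rfl⟩
          · exact Or.inl ⟨h1, h2, h3⟩
      · rintro (⟨h1, h2, h3⟩ | ⟨x', h2, rfl, rfl⟩)
        · exact ⟨h1, Or.inr h2, Or.inr h3⟩
        · exact ⟨ha _ h2, Or.inr h2, Or.inl rfl⟩
    have h2 : Disjoint (univ.filter fun p : Fin n × Fin n => p.1 < p.2 ∧ p.1 ∈ S ∧ p.2 ∈ S)
        (S.image (fun x => (x, a))) := by
      rw [Finset.disjoint_left]
      intro p hp hp2
      rw [mem_filter] at hp
      obtain ⟨x, -, rfl⟩ := mem_image.1 hp2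
      exact haS hp.2.2.2
    rw [h1, card_union_of_disjoint h2, ih, card_image_of_injective, card_insert_of_notMem haS,
      Nat.choose_succ_succ' S.card 1, Nat.choose_one_right, add_comm]
    intro x x' h
    exact (Prod.mk.injEq _ _ _ _ ▸ h).1

theorem weight {n q : ℕ} (y : ℤ) (σ : Fin n → Fin q) :
    ∏ p ∈ prs n, (if σ p.1 = σ p.2 then y else 1) =
      ∏ c : Fin q, y ^ ((univ.filter fun v => σ v = c).card.choose 2) := by
  rw [Finset.prod_pow_eq_pow_sum, Finset.prod_ite, Finset.prod_const_one, mul_one,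
    Finset.prod_const]
  congr 1
  rw [Finset.card_eq_sum_card_fiberwise (f := fun p : Fin n × Fin n => σ p.1) (t := univ)
    (fun _ _ => mem_coe.2 (mem_univ _))]
  refine sum_congr rfl fun c _ => ?_
  rw [← pairs_card]
  congr 1
  ext p
  simp only [prs, mem_filter, mem_univ, true_and]
  constructor
  · rintro ⟨⟨h1, h2⟩, h3⟩
    exact ⟨h1, h3, h2 ▸ h3⟩
  · rintro ⟨h1, h2, h3⟩
    exact ⟨⟨h1, h2.trans h3.symm⟩, h2⟩

/-- the sum over the colourings with weights of the colour classes -/
def B (g : ℕ → ℤ) (q : ℕ) (V : Type) [Fintype V] [DecidableEq V] : ℤ :=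
  ∑ σ : V → Fin q, ∏ c : Fin q, g (univ.filter fun v => σ v = c).card

theorem B_congr (g : ℕ → ℤ) (q : ℕ) {V V' : Type} [Fintype V] [DecidableEq V] [Fintype V']
    [DecidableEq V'] (e : V ≃ V') : B g q V = B g q V' := by
  unfold B
  refine Fintype.sum_equiv (e.arrowCongr (Equiv.refl (Fin q))) _ _ fun σ => ?_
  refine prod_congr rfl fun c _ => ?_
  congr 1
  refine Finset.card_bij (fun v _ => e v) ?_ ?_ ?_
  · intro v hv
    rw [mem_filter] at hv ⊢
    refine ⟨mem_univ _, ?_⟩
    show σ (e.symm (e v)) = c
    rw [e.symm_apply_apply]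
    exact hv.2
  · intro v _ v' _ h
    exact e.injective h
  · intro v' hv'
    refine ⟨e.symm v', ?_, e.apply_symm_apply v'⟩
    rw [mem_filter] at hv' ⊢
    exact ⟨mem_univ _, hv'.2⟩

theorem split (g h : ℕ → ℤ) (q : ℕ) (V : Type) [Fintype V] [DecidableEq V] :
    ∑ σ : V → Fin (q + 1), (h (univ.filter fun v => σ v = Fin.last q).card *
      ∏ c : Fin q, g (univ.filter fun v => σ v = c.castSucc).card) =
    ∑ T : Finset V, h T.card * B g q {v // v ∉ T} := by
  rw [← Finset.sum_fiberwise (s := univ)
    (g := fun σ : V → Fin (q + 1) => univ.filter fun v => σ v = Fin.last q)]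
  refine sum_congr rfl fun T _ => ?_
  unfold B
  rw [mul_sum]
  symm
  refine Finset.sum_bij
    (fun τ _ => fun v => if hv : v ∈ T then Fin.last q else (τ ⟨v, hv⟩).castSucc) ?_ ?_ ?_ ?_
  · intro τ _
    simp only [mem_filter, mem_univ, true_and]
    ext v
    simp only [mem_filter, mem_univ, true_and]
    by_cases hv : v ∈ T
    · rw [dif_pos hv]
      exact ⟨fun _ => hv, fun _ => rfl⟩
    · rw [dif_neg hv]
      exact ⟨fun h1 => absurd h1 (Fin.castSucc_lt_last _).ne, fun h1 => absurd h1 hv⟩
  · intro τ _ τ' _ heq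
    funext ⟨v, hv⟩
    have h1 := congrFun heq v
    simp only [dif_neg hv] at h1
    exact Fin.castSucc_injective _ h1
  · intro σ hσ
    simp only [mem_filter, mem_univ, true_and] at hσ
    have hσ' : ∀ v, σ v = Fin.last q ↔ v ∈ T := by
      intro v
      rw [← hσ, mem_filter]
      exact ⟨fun h1 => ⟨mem_univ _, h1⟩, fun h1 => h1.2⟩
    refine ⟨fun v => (σ v).castPred (fun h1 => v.2 ((hσ' v).1 h1)), mem_univ _, ?_⟩
    funext v
    by_cases hv : v ∈ T
    · simp only [dif_pos hv]
      exact ((hσ' v).2 hv).symm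
    · simp only [dif_neg hv]
      exact Fin.castSucc_castPred _ _
  · intro τ _
    have h1 : (univ.filter fun v : V =>
        (if hv : v ∈ T then Fin.last q else (τ ⟨v, hv⟩).castSucc) = Fin.last q) = T := by
      ext v
      simp only [mem_filter, mem_univ, true_and]
      by_cases hv : v ∈ T
      · rw [dif_pos hv]
        exact ⟨fun _ => hv, fun _ => rfl⟩
      · rw [dif_neg hv]
        exact ⟨fun h1 => absurd h1 (Fin.castSucc_lt_last _).ne, fun h1 => absurd h1 hv⟩
    have h2 : ∀ c : Fin q, (univ.filter fun v : V =>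
        (if hv : v ∈ T then Fin.last q else (τ ⟨v, hv⟩).castSucc) = c.castSucc).card =
        (univ.filter fun v : {v // v ∉ T} => τ v = c).card := by
      intro c
      symm
      refine Finset.card_bij (fun v _ => (v : V)) ?_ ?_ ?_
      · rintro ⟨v, hv⟩ h3
        rw [mem_filter] at h3 ⊢
        refine ⟨mem_univ _, ?_⟩
        rw [dif_neg hv, h3.2]
      · intro v _ v' _ h3
        exact Subtype.ext h3
      · intro v h3
        rw [mem_filter] at h3
        by_cases hv : v ∈ T
        · have h4 := h3.2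
          rw [dif_pos hv] at h4
          exact absurd h4.symm (Fin.castSucc_lt_last _).ne
        · have h4 := h3.2
          rw [dif_neg hv] at h4
          exact ⟨⟨v, hv⟩, mem_filter.2 ⟨mem_univ _, Fin.castSucc_injective _ h4⟩, rfl⟩
    show h T.card * _ = h (univ.filter fun v : V =>
        (if hv : v ∈ T then Fin.last q else (τ ⟨v, hv⟩).castSucc) = Fin.last q).card *
      ∏ c : Fin q, g (univ.filter fun v : V =>
        (if hv : v ∈ T then Fin.last q else (τ ⟨v, hv⟩).castSucc) = c.castSucc).card
    rw [h1]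
    congr 1
    exact prod_congr rfl fun c _ => by rw [h2 c]

theorem split2 (g h : ℕ → ℤ) (q n : ℕ) :
    ∑ σ : Fin n → Fin (q + 1), (h (univ.filter fun v => σ v = Fin.last q).card *
      ∏ c : Fin q, g (univ.filter fun v => σ v = c.castSucc).card) =
    ∑ m ∈ range (n + 1), (n.choose m : ℤ) * (h m * B g q (Fin (n - m))) := by
  rw [split g h q (Fin n)]
  have h1 : ∀ T : Finset (Fin n), h T.card * B g q {v // v ∉ T} =
      (fun m => h m * B g q (Fin (n - m))) T.card := by
    intro T
    show h T.card * B g q {v // v ∉ T} = h T.card * B g q (Fin (n - T.card))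
    congr 1
    refine B_congr g q (Fintype.equivFinOfCardEq ?_)
    rw [Fintype.card_subtype_compl, Fintype.card_fin, Fintype.card_coe]
  rw [Finset.sum_congr rfl fun T _ => h1 T, ← Finset.powerset_univ,
    Finset.sum_powerset_apply_card (fun m => h m * B g q (Fin (n - m))), Finset.card_univ,
    Fintype.card_fin]
  refine sum_congr rfl fun m _ => ?_
  rw [nsmul_eq_mul]

theorem cons_card {n q : ℕ} (c : Fin (q + 1)) (σ : Fin n → Fin (q + 1)) (c' : Fin (q + 1)) :
    (univ.filter fun v : Fin (n + 1) => (Fin.cons c σ : Fin (n + 1) → Fin (q + 1)) v = c').card =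
      (univ.filter fun v => σ v = c').card + (if c = c' then 1 else 0) := by
  rw [Fin.card_filter_univ_succ]
  simp only [Fin.cons_zero, Fin.cons_succ]
  split_ifs with h
  · rfl
  · rfl

theorem swap_sum (g : ℕ → ℤ) (q n : ℕ) (c : Fin (q + 1)) :
    ∑ σ : Fin n → Fin (q + 1), ∏ c' : Fin (q + 1),
      g ((univ.filter fun v => σ v = c').card + (if c = c' then 1 else 0)) =
    ∑ σ : Fin n → Fin (q + 1), (g ((univ.filter fun v => σ v = Fin.last q).card + 1) *
      ∏ c' : Fin q, g (univ.filter fun v => σ v = c'.castSucc).card) := by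
  refine Fintype.sum_equiv ((Equiv.refl (Fin n)).arrowCongr (Equiv.swap c (Fin.last q))) _ _
    fun σ => ?_
  have h1 : ∀ v, ((Equiv.refl (Fin n)).arrowCongr (Equiv.swap c (Fin.last q)) σ) v =
      Equiv.swap c (Fin.last q) (σ v) := fun v => rfl
  have h2 : ∀ c' : Fin (q + 1), (univ.filter fun v =>
      ((Equiv.refl (Fin n)).arrowCongr (Equiv.swap c (Fin.last q)) σ) v = c').card =
      (univ.filter fun v => σ v = Equiv.swap c (Fin.last q) c').card := by
    intro c'
    congr 1
    ext v
    rw [mem_filter, mem_filter, h1]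
    constructor
    · rintro ⟨h3, h4⟩
      refine ⟨h3, ?_⟩
      rw [← h4, Equiv.swap_apply_self]
    · rintro ⟨h3, h4⟩
      refine ⟨h3, ?_⟩
      rw [h4, Equiv.swap_apply_self]
  have h3 : (g ((univ.filter fun v =>
        ((Equiv.refl (Fin n)).arrowCongr (Equiv.swap c (Fin.last q)) σ) v = Fin.last q).card + 1) *
      ∏ c' : Fin q, g (univ.filter fun v =>
        ((Equiv.refl (Fin n)).arrowCongr (Equiv.swap c (Fin.last q)) σ) v = c'.castSucc).card) =
      ∏ c' : Fin (q + 1), g ((univ.filter fun v => σ v = Equiv.swap c (Fin.last q) c').card +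
        (if Fin.last q = c' then 1 else 0)) := by
    rw [Fin.prod_univ_castSucc, mul_comm, h2, if_pos rfl]
    congr 1
    refine prod_congr rfl fun c' _ => ?_
    rw [h2, if_neg (Fin.castSucc_lt_last c').ne', add_zero]
  rw [h3]
  refine Fintype.prod_equiv (Equiv.swap c (Fin.last q)) _ _ fun c' => ?_
  rw [Equiv.swap_apply_self]
  congr 2
  by_cases h4 : c = c'
  · subst h4
    rw [if_pos rfl, Equiv.swap_apply_left, if_pos rfl]
  · rw [if_neg h4, if_neg]
    intro h5
    apply h4
    have h6 := congrArg (Equiv.swap c (Fin.last q)) h5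
    rw [Equiv.swap_apply_right, Equiv.swap_apply_self] at h6
    exact h6

theorem B_rec (g : ℕ → ℤ) (q n : ℕ) : B g (q + 1) (Fin (n + 1)) =
    (q + 1) * ∑ m ∈ range (n + 1), (n.choose m : ℤ) * (g (m + 1) * B g q (Fin (n - m))) := by
  unfold B
  rw [← (Fin.consEquiv (fun _ => Fin (q + 1))).sum_comp, Fintype.sum_prod_type]
  have h1 : ∀ c : Fin (q + 1), ∑ σ : Fin n → Fin (q + 1), ∏ c' : Fin (q + 1),
      g (univ.filter fun v : Fin (n + 1) =>
        (Fin.consEquiv (fun _ => Fin (q + 1))) (c, σ) v = c').card =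
      ∑ m ∈ range (n + 1), (n.choose m : ℤ) * (g (m + 1) * B g q (Fin (n - m))) := by
    intro c
    rw [← split2 g (fun m => g (m + 1)) q n, ← swap_sum g q n c]
    refine sum_congr rfl fun σ _ => prod_congr rfl fun c' _ => ?_
    rw [← cons_card c σ c']
    rfl
  rw [Finset.sum_congr rfl fun c _ => h1 c, Finset.sum_const, Finset.card_univ, Fintype.card_fin,
    nsmul_eq_mul]
  push_cast
  rfl

theorem A_zero_zero : A 0 0 = 1 := by
  rw [A]

theorem A_zero_succ (k : ℕ) : A 0 (k + 1) = 0 := by
  rw [A]

theorem A_succ_zero (n : ℕ) : A (n + 1) 0 = 0 := by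
  rw [A]

theorem A_succ_succ (n k : ℕ) : A (n + 1) (k + 1) =
    ∑ m : Fin (n + 1), (n.choose m : ℤ[X]) * X ^ (((m : ℕ) + 1).choose 2) * A (n - m) k := by
  rw [A]

theorem A_high : ∀ n k, n < k → A n k = 0 := by
  intro n
  induction n using Nat.strong_induction_on with
  | _ n ih =>
    intro k hk
    obtain ⟨k, rfl⟩ : ∃ k', k = k' + 1 := ⟨k - 1, by omega⟩
    cases n with
    | zero => exact A_zero_succ k
    | succ n =>
      rw [A_succ_succ]
      refine sum_eq_zero fun m _ => ?_
      rw [ih (n - m) (by omega) k (by omega), mul_zero]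

theorem main (y : ℤ) : ∀ n q : ℕ, B (fun m => y ^ (m.choose 2)) q (Fin n) =
    ∑ k ∈ range (n + 1), (q.descFactorial k : ℤ) * (A n k).eval y := by
  intro n
  induction n using Nat.strong_induction_on with
  | _ n ih =>
    intro q
    cases n with
    | zero =>
      unfold B
      simp [A_zero_zero]
    | succ n =>
      rw [Finset.sum_range_succ', A_succ_zero, Polynomial.eval_zero, mul_zero, add_zero]
      cases q with
      | zero =>
        have h1 : B (fun m => y ^ (m.choose 2)) 0 (Fin (n + 1)) = 0 := by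
          unfold B
          exact Finset.sum_eq_zero fun σ _ => (σ 0).elim0
        rw [h1]
        symm
        refine sum_eq_zero fun k _ => ?_
        rw [Nat.zero_descFactorial_succ, Nat.cast_zero, zero_mul]
      | succ q =>
        rw [B_rec]
        have h1 : ∀ k, (A (n + 1) (k + 1)).eval y = ∑ m ∈ range (n + 1),
            (n.choose m : ℤ) * (y ^ ((m + 1).choose 2) * (A (n - m) k).eval y) := by
          intro k
          rw [A_succ_succ, Polynomial.eval_finsetSum, ← Fin.sum_univ_eq_sum_range (fun m =>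
            (n.choose m : ℤ) * (y ^ ((m + 1).choose 2) * (A (n - m) k).eval y))]
          refine sum_congr rfl fun m _ => ?_
          rw [Polynomial.eval_mul, Polynomial.eval_mul, Polynomial.eval_pow, Polynomial.eval_X,
            Polynomial.eval_natCast, mul_assoc]
        have h2 : ∀ k ∈ range (n + 1), ((q + 1).descFactorial (k + 1) : ℤ) *
            (A (n + 1) (k + 1)).eval y = ∑ m ∈ range (n + 1), ((q : ℤ) + 1) *
              ((n.choose m : ℤ) * (y ^ ((m + 1).choose 2) *
                ((q.descFactorial k : ℤ) * (A (n - m) k).eval y))) := by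
          intro k _
          rw [h1 k, Nat.succ_descFactorial_succ, mul_sum]
          refine sum_congr rfl fun m _ => ?_
          push_cast
          ring
        rw [Finset.sum_congr rfl h2, Finset.sum_comm, mul_sum]
        refine sum_congr rfl fun m hm => ?_
        have hm' := mem_range.1 hm
        rw [← mul_sum, ← mul_sum, ← mul_sum]
        congr 3
        rw [ih (n - m) (by omega) q]
        refine Finset.sum_subset (range_subset_range.2 (by omega)) fun k _ hk => ?_
        rw [mem_range, not_lt] at hk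
        rw [A_high (n - m) k (by omega), Polynomial.eval_zero, mul_zero]

theorem t_part : S_part := by
  intro n q y
  rw [← main y n q]
  unfold B
  exact Finset.sum_congr rfl fun σ _ => weight y σ

end Pool.Agent.H19.FK.Part
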