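import Mathlib
import Pool.Agent.H19.FK.Stm

/-!
QPOL of project FK (helper19), proved by helper887.
`Q = (X - b) * ∑_{i<N} X^i a^(N-1-i)`, `a = 1 - 2t`, `b = 1 - t`, so that
`Q(z) (z - a) = (z - b) (z^N - a^N)`.
-/

set_option autoImplicit false

open Polynomial

namespace Pool.Agent.H19.FK.Qpol

/-- the polynomial -/
private noncomputable def QQ (a b : ℝ) (N : ℕ) : ℂ[X] :=
  (X - C (b : ℂ)) * (∑ i ∈ Finset.range N, X ^ i * (C (a : ℂ)) ^ (N - 1 - i))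

private theorem QQ_monic (a b : ℝ) (N : ℕ) (hN : N ≠ 0) : (QQ a b N).Monic := by
  unfold QQ
  refine (monic_X_sub_C _).mul ?_
  have h := geom_sum₂_mul (X : ℂ[X]) (C (a : ℂ)) N
  have h1 : ((X - C (a : ℂ)) * (∑ i ∈ Finset.range N, X ^ i * (C (a : ℂ)) ^ (N - 1 - i))).Monic := by
    rw [mul_comm, h, ← C_pow]
    exact monic_X_pow_sub_C _ hN
  exact (monic_X_sub_C (a : ℂ)).of_mul_monic_left h1

private theorem QQ_eval (a b : ℝ) (N : ℕ) (z : ℂ) :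
    (QQ a b N).eval z * (z - (a : ℂ)) = (z - (b : ℂ)) * (z ^ N - (a : ℂ) ^ N) := by
  have h := geom_sum₂_mul (X : ℂ[X]) (C (a : ℂ)) N
  have h2 := congrArg (Polynomial.eval z) h
  rw [eval_mul, eval_sub, eval_sub, eval_pow, eval_pow, eval_X, eval_C] at h2
  unfold QQ
  rw [eval_mul, mul_assoc, h2, eval_sub, eval_X, eval_C]

private theorem normsq_sub (z : ℂ) (c : ℝ) : ‖z - (c : ℂ)‖ ^ 2 = (z.re - c) ^ 2 + z.im ^ 2 := by
  rw [← Complex.normSq_eq_norm_sq, Complex.normSq_apply]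
  simp only [Complex.sub_re, Complex.sub_im, Complex.ofReal_re, Complex.ofReal_im, sub_zero]
  ring

private theorem normsq (z : ℂ) : ‖z‖ ^ 2 = z.re ^ 2 + z.im ^ 2 := by
  rw [← Complex.normSq_eq_norm_sq, Complex.normSq_apply]
  ring

/-- near the unit circle and off a neighbourhood of `1` -/
private theorem caseA (t δ : ℝ) (ht : 0 < t) (ht8 : t ≤ 1 / 8) (hδ : δ = t ^ 2 / 16) (z : ℂ)
    (h1 : ‖z‖ ≤ 1 + t) (h2 : 8 * t ≤ ‖z - 1‖ ^ 2) :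
    (1 + 2 * δ) * ‖z - ((1 - 2 * t : ℝ) : ℂ)‖ ≤ ‖z - ((1 - t : ℝ) : ℂ)‖ := by
  have hδ0 : 0 < δ := by rw [hδ]; positivity
  have hδ1 : δ ≤ 1 := by rw [hδ]; nlinarith only [ht, ht8]
  have e1 : ‖z - 1‖ ^ 2 = (z.re - 1) ^ 2 + z.im ^ 2 := by
    have := normsq_sub z 1
    simpa using this
  rw [e1] at h2
  have e2 := normsq z
  have h1' : ‖z‖ ^ 2 ≤ (1 + t) ^ 2 := by
    exact pow_le_pow_left₀ (norm_nonneg _) h1 2
  rw [e2] at h1'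
  have ea := normsq_sub z (1 - 2 * t)
  have eb := normsq_sub z (1 - t)
  have hD : ‖z - ((1 - 2 * t : ℝ) : ℂ)‖ ≤ 2 := by
    calc ‖z - ((1 - 2 * t : ℝ) : ℂ)‖ ≤ ‖z‖ + ‖((1 - 2 * t : ℝ) : ℂ)‖ := norm_sub_le _ _
      _ = ‖z‖ + |1 - 2 * t| := by rw [Complex.norm_real, Real.norm_eq_abs]
      _ = ‖z‖ + (1 - 2 * t) := by rw [abs_of_nonneg (by linarith)]
      _ ≤ 2 := by linarith
  have hD2 : ‖z - ((1 - 2 * t : ℝ) : ℂ)‖ ^ 2 ≤ 4 := by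
    calc ‖z - ((1 - 2 * t : ℝ) : ℂ)‖ ^ 2 ≤ 2 ^ 2 := pow_le_pow_left₀ (norm_nonneg _) hD 2
      _ = 4 := by norm_num
  have hdiff : ‖z - ((1 - 2 * t : ℝ) : ℂ)‖ ^ 2 + 2 * t ^ 2 ≤ ‖z - ((1 - t : ℝ) : ℂ)‖ ^ 2 := by
    rw [ea, eb]
    have h3 : 2 * z.re ≤ 2 - 6 * t + t ^ 2 := by nlinarith only [h2, h1']
    have h4 : 0 ≤ t * (2 - 5 * t - 2 * z.re) := by
      apply mul_nonneg ht.le
      have : t ^ 2 ≤ t := by nlinarith only [ht, ht8]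
      linarith
    have h5 : (z.re - (1 - t)) ^ 2 + z.im ^ 2 - ((z.re - (1 - 2 * t)) ^ 2 + z.im ^ 2 + 2 * t ^ 2) =
        t * (2 - 5 * t - 2 * z.re) := by ring
    linarith
  have hsq : ((1 + 2 * δ) * ‖z - ((1 - 2 * t : ℝ) : ℂ)‖) ^ 2 ≤ ‖z - ((1 - t : ℝ) : ℂ)‖ ^ 2 := by
    have h5 : (4 * δ + 4 * δ ^ 2) * ‖z - ((1 - 2 * t : ℝ) : ℂ)‖ ^ 2 ≤ (4 * δ + 4 * δ ^ 2) * 4 :=
      mul_le_mul_of_nonneg_left hD2 (by positivity)
    have h6 : (4 * δ + 4 * δ ^ 2) * 4 ≤ 2 * t ^ 2 := by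
      have : t ^ 2 = 16 * δ := by rw [hδ]; ring
      have h7 : δ ^ 2 ≤ δ := by nlinarith only [hδ0, hδ1]
      rw [this]
      linarith
    calc ((1 + 2 * δ) * ‖z - ((1 - 2 * t : ℝ) : ℂ)‖) ^ 2
        = ‖z - ((1 - 2 * t : ℝ) : ℂ)‖ ^ 2 + (4 * δ + 4 * δ ^ 2) * ‖z - ((1 - 2 * t : ℝ) : ℂ)‖ ^ 2 := by
          ring
      _ ≤ _ := by linarith
  exact (pow_le_pow_iff_left₀ (by positivity) (norm_nonneg _) two_ne_zero).mp hsq

theorem t_qpol : S_qpol := by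
  intro r hr
  obtain ⟨t, ht, ht8, htr⟩ : ∃ t : ℝ, 0 < t ∧ t ≤ 1 / 8 ∧ 8 * t ≤ r ^ 2 := by
    refine ⟨(min r 1) ^ 2 / 8, ?_, ?_, ?_⟩
    · have : 0 < min r 1 := lt_min hr one_pos
      positivity
    · have h0 : 0 < min r 1 := lt_min hr one_pos
      have h1 : min r 1 ≤ 1 := min_le_right _ _
      nlinarith
    · have h0 : 0 < min r 1 := lt_min hr one_pos
      have h1 : min r 1 ≤ r := min_le_left _ _
      nlinarith
  obtain ⟨δ, hδ⟩ : ∃ δ : ℝ, δ = t ^ 2 / 16 := ⟨_, rfl⟩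
  have hδ0 : 0 < δ := by rw [hδ]; positivity
  have hδt : δ ≤ t / 16 := by rw [hδ]; nlinarith
  have hδ1 : δ ≤ 1 / 128 := by linarith
  have ha0 : 0 < 1 - 2 * t := by linarith
  have ha1 : 1 - 2 * t < 1 := by linarith
  obtain ⟨n1, hn1⟩ := exists_pow_lt_of_lt_one (show (0 : ℝ) < δ / 4 by linarith) ha1
  obtain ⟨n2, hn2⟩ := exists_nat_ge (6 / t ^ 2)
  obtain ⟨N, hN⟩ : ∃ N : ℕ, N = max n1 n2 := ⟨_, rfl⟩
  have hNa : (1 - 2 * t) ^ N ≤ δ / 4 :=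
    (pow_le_pow_of_le_one ha0.le ha1.le (by rw [hN]; exact le_max_left _ _)).trans hn1.le
  have hNt : 6 ≤ (N : ℝ) * t ^ 2 := by
    have h1 : 6 / t ^ 2 ≤ (N : ℝ) := hn2.trans (by rw [hN]; exact_mod_cast le_max_right _ _)
    rwa [div_le_iff₀ (by positivity)] at h1
  have hN0 : N ≠ 0 := by
    rintro rfl
    norm_num at hNt
  have hNpos : (1 : ℝ) ≤ N := by exact_mod_cast Nat.one_le_iff_ne_zero.mpr hN0
  obtain ⟨ε, hε⟩ : ∃ ε : ℝ, ε = δ / (4 * N) := ⟨_, rfl⟩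
  have hε0 : 0 < ε := by rw [hε]; positivity
  have hNε : (N : ℝ) * ε = δ / 4 := by rw [hε]; field_simp
  have hεδ : ε ≤ δ / 4 := by nlinarith
  have hε1 : ε < 1 := by linarith
  refine ⟨QQ (1 - 2 * t) (1 - t) N, δ, ε, QQ_monic _ _ _ hN0, hδ0, hε0, hε1, ?_, ?_⟩
  · intro z hz
    have h := QQ_eval (1 - 2 * t) (1 - t) N z
    rw [hz, zero_mul] at h
    rcases mul_eq_zero.mp h.symm with h1 | h1
    · rw [sub_eq_zero.mp h1, Complex.norm_real, Real.norm_eq_abs, abs_of_pos (by linarith)]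
      linarith
    · by_contra hc
      push Not at hc
      have h2 : ‖z ^ N‖ = ‖((1 - 2 * t : ℝ) : ℂ) ^ N‖ := by rw [sub_eq_zero.mp h1]
      rw [norm_pow, norm_pow, Complex.norm_real, Real.norm_eq_abs, abs_of_pos ha0] at h2
      have h3 : (1 : ℝ) ≤ ‖z‖ ^ N := one_le_pow₀ hc
      linarith
  · intro z hz1 hz2
    have h := congrArg norm (QQ_eval (1 - 2 * t) (1 - t) N z)
    rw [norm_mul, norm_mul] at h
    have h1 : ‖z‖ ^ N - (1 - 2 * t) ^ N ≤ ‖z ^ N - ((1 - 2 * t : ℝ) : ℂ) ^ N‖ := by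
      have := norm_sub_norm_le (z ^ N) (((1 - 2 * t : ℝ) : ℂ) ^ N)
      rwa [norm_pow, norm_pow, Complex.norm_real, Real.norm_eq_abs, abs_of_pos ha0] at this
    have hnz : 0 < ‖z - ((1 - 2 * t : ℝ) : ℂ)‖ := by
      rw [norm_pos_iff, sub_ne_zero]
      intro h2
      rw [h2, Complex.norm_real, Real.norm_eq_abs, abs_of_pos ha0] at hz1
      linarith
    have hna : ‖z - ((1 - 2 * t : ℝ) : ℂ)‖ ≤ ‖z‖ + 1 := by
      have := norm_sub_le z ((1 - 2 * t : ℝ) : ℂ)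
      rw [Complex.norm_real, Real.norm_eq_abs, abs_of_pos ha0] at this
      linarith
    have hnb : ‖z‖ - 1 ≤ ‖z - ((1 - t : ℝ) : ℂ)‖ := by
      have := norm_sub_norm_le z ((1 - t : ℝ) : ℂ)
      rw [Complex.norm_real, Real.norm_eq_abs, abs_of_pos (show 0 < 1 - t by linarith)] at this
      linarith
    refine le_of_mul_le_mul_right ?_ hnz
    rw [h]
    rcases le_total ‖z‖ (1 + t) with hc | hc
    · have hA := caseA t δ ht ht8 hδ z hc (htr.trans (by gcongr))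
      have hb : 1 - δ / 2 ≤ ‖z ^ N - ((1 - 2 * t : ℝ) : ℂ) ^ N‖ := by
        have h3 : (1 - ε) ^ N ≤ ‖z‖ ^ N := pow_le_pow_left₀ (by linarith) hz1 N
        have h4 : 1 + (N : ℝ) * (-ε) ≤ (1 + (-ε)) ^ N := one_add_mul_le_pow (by linarith) N
        have h5 : (1 + (-ε)) = 1 - ε := by ring
        rw [h5] at h4
        linarith
      calc (1 + δ) * ‖z - ((1 - 2 * t : ℝ) : ℂ)‖
          ≤ ((1 + 2 * δ) * ‖z - ((1 - 2 * t : ℝ) : ℂ)‖) * (1 - δ / 2) := by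
            have h6 : (1 + δ) ≤ (1 + 2 * δ) * (1 - δ / 2) := by nlinarith
            have := mul_le_mul_of_nonneg_right h6 hnz.le
            linarith
        _ ≤ ‖z - ((1 - t : ℝ) : ℂ)‖ * ‖z ^ N - ((1 - 2 * t : ℝ) : ℂ) ^ N‖ :=
            mul_le_mul hA hb (by linarith) (norm_nonneg _)
    · have hb : (N : ℝ) * t ≤ ‖z ^ N - ((1 - 2 * t : ℝ) : ℂ) ^ N‖ := by
        have h3 : (1 + t) ^ N ≤ ‖z‖ ^ N := pow_le_pow_left₀ (by linarith) hc N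
        have h4 : 1 + (N : ℝ) * t ≤ (1 + t) ^ N := one_add_mul_le_pow (by linarith) N
        linarith
      have hu : t ≤ ‖z‖ - 1 := by linarith
      have hkey : 2 * (‖z‖ + 1) ≤ (‖z‖ - 1) * ((N : ℝ) * t) := by
        have h5 : t * (2 * (‖z‖ + 1)) ≤ t * ((‖z‖ - 1) * ((N : ℝ) * t)) := by
          have h6 : 6 * (‖z‖ - 1) ≤ ((N : ℝ) * t ^ 2) * (‖z‖ - 1) :=
            mul_le_mul_of_nonneg_right hNt (by linarith)
          nlinarith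
        exact le_of_mul_le_mul_left h5 ht
      calc (1 + δ) * ‖z - ((1 - 2 * t : ℝ) : ℂ)‖
          ≤ 2 * (‖z‖ + 1) := mul_le_mul (by linarith) hna hnz.le (by norm_num)
        _ ≤ (‖z‖ - 1) * ((N : ℝ) * t) := hkey
        _ ≤ ‖z - ((1 - t : ℝ) : ℂ)‖ * ‖z ^ N - ((1 - 2 * t : ℝ) : ℂ) ^ N‖ :=
            mul_le_mul hnb hb (by positivity) (norm_nonneg _)

end Pool.Agent.H19.FK.Qpol
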