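import Mathlib
import Pool.Agent.H19.FK.Stm

/-! Project FK, second wave: equidistribution of the flow roots of `K_n` on the circle `|q - 1| = 1`, and no flow roots outside. -/

set_option autoImplicit false

open Polynomial

namespace Pool.Agent.H19.FK

/-- WEYL. `S_jen` may be used.
PROOF. Let `u = z/|z|` for a root `z` (`z ≠ 0`), `D` the degree, `ℓ = log ‖lc‖ ≥ 0`, `m = log M ≥ 0`. It suffices: for every unimodular `b`: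
`∑ Re (b u^(-k)) ≤ (ε) D + C m` (take `b` = the unimodular number which makes `∑ conj(u)^k b` nonnegative real; `u^(-k) = conj u^k`, the norm of the
sum of conjugates is the norm of the sum).
(0) as in ERD: `S_jen` at `c = 0, s = 1`: `ℓ + ∑ log⁺|z| ≤ m`; `|P(0)| = ‖lc‖ ∏|z| ≥ 1`: `ℓ + ∑ log |z| ≥ 0`; so `∑ |log |z|| ≤ 2m` and at most `4m/ε'` roots
have `||z| - 1| ≥ ε'` (`0 < ε' ≤ 1/2`).
(1) Let `0 < η ≤ 1/2`, `Q(z) = z^k + η b`, with roots `c_1..c_k`, `|c_i| = η^(1/k) < 1`; `s > 0` with `|c_i| + s ≤ 1`, `s ≤ 1`. `S_jen` at all `c_i`: `∑_j G(z_j) ≤ k m`,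
`G(z) = ∑_i log max(s,|z-c_i|) ≥ log |Q(z)|` and `G(z) ≥ k log s`.
(2) if `|z| ≥ 1`: `|Q(z)| ≥ 1 - η ≥ 1/2`. If `||z|-1| < ε'`: `|Q(z) - Q(u)| ≤ 2^k k ε'` (or any `L ε'`), and `log |Q(u)| = log |1 + η b u^(-k)| ≥ η Re (b u^(-k)) - η²`
(`log |1+x| ≥ Re x - |x|²` for `|x| ≤ 1/2`), `|Q(u)| ≥ 1/2`, so `G(z) ≥ η Re (b u^(-k)) - η² - 4 L ε'` if `L ε' ≤ 1/8`.
(3) the other roots are at most `4m/ε'`, with `G ≥ -k log (1/s)`. Summing: `η ∑ Re (b u^(-k)) ≤ k m + D (η² + 4Lε') + (4m/ε')(k log(1/s) + 1)`. Divide by `η`, take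
`η = min (ε/2) (1/2)` and `ε'` with `4Lε' ≤ η ε/2`. Note that `s` can be chosen independently of `b` (only `η, k` matter) so that `C` depends on `k, ε` only. -/
def S_weyl : Prop := ∀ k : ℕ, 1 ≤ k → ∀ ε : ℝ, 0 < ε → ∃ C : ℝ, 0 < C ∧ ∀ (P : ℂ[X]) (M : ℝ), 1 ≤ M →
  1 ≤ ‖P.leadingCoeff‖ → 1 ≤ ‖P.eval 0‖ → (∀ y : ℂ, ‖y‖ ≤ 1 → ‖P.eval y‖ ≤ M) →
  ‖(P.roots.map (fun z => (z / (‖z‖ : ℂ)) ^ k)).sum‖ ≤ ε * P.natDegree + C * Real.log M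

/-- ANN (proved by helper19 from S_ffact, S_fbd, S_jen). -/
def S_ann : Prop := ∃ C : ℝ, 0 < C ∧ ∀ (n : ℕ) (F : ℤ[X]), 3 ≤ n → IsFlowPoly n F →
    ∀ δ : ℝ, 0 < δ → δ ≤ 1 →
      ((F.map (Int.castRingHom ℂ)).roots.countP (fun z => δ ≤ |‖z - 1‖ - 1|) : ℝ) ≤ C * n * Real.log n / δ

/-- FWEYL. Weyl sums of the flow roots. `S_weyl, S_ffact, S_fbd` may be used.
PROOF. As END: `P(w) = H(1+w)` over `ℂ`, `log M = B n log n`, `D = n.choose 2 - n`; the roots of `F` are `1` (which contributes `0`, `0/0 = 0`, `k ≥ 1`) and `1 + w`, `w` a root of `P`. -/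
def S_fweyl : Prop := ∀ k : ℕ, 1 ≤ k → ∀ ε : ℝ, 0 < ε → ∃ N : ℕ, ∀ n : ℕ, N ≤ n → ∀ F : ℤ[X], IsFlowPoly n F →
  ‖((F.map (Int.castRingHom ℂ)).roots.map (fun z => ((z - 1) / (‖z - 1‖ : ℂ)) ^ k)).sum‖ ≤ ε * F.natDegree

/-- EQD. Equidistribution. `S_fweyl, S_ann, S_ffact` may be used (`natDegree F = n.choose 2 + 1 - n`, number of complex roots `= natDegree`).
PROOF. Let `|f| ≤ B`. Roots with `||z-1|-1| ≥ δ`: at most `C n log n/δ`, negligible against the degree `~ n²/2`. For the others `|f(z) - f(1+u)| ≤ ε`, `u = (z-1)/|z-1|`,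
for `δ` small (uniform continuity on the compact ball of radius `3`). The function `t ↦ f(1 + e^{it})` is uniformly within `ε` of a trigonometric polynomial
(`span_fourier_closure_eq_top`), whose mean is its constant coefficient and whose average over the `u` tends to the constant coefficient by FWEYL (negative `k`: complex conjugates). -/
def S_eqd : Prop := ∀ f : ℂ → ℝ, Continuous f → (∃ B : ℝ, ∀ z, |f z| ≤ B) → ∀ ε : ℝ, 0 < ε → ∃ N : ℕ, ∀ n : ℕ, N ≤ n →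
  ∀ F : ℤ[X], IsFlowPoly n F →
  |((F.map (Int.castRingHom ℂ)).roots.map f).sum / (F.natDegree : ℝ) - Real.circleAverage f 1 1| < ε

/-- BREC. Recursion for the normalised sums. Write `a n k = (A n k).eval₂ (Int.castRingHom ℝ) ρ = aeval ρ (A n k)`, `β n = (∑_{k=1}^n a n k t^(k-1)) / ρ^(n.choose 2)`.
PROOF. From the recursion of `A`, with `j = n - m`: `(n+1).choose 2 = (m+1).choose 2 + j.choose 2 + (m+1) j`, `A 0 0 = 1`, `A j 0 = 0` for `j ≥ 1` (`S_afact`). -/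
def S_brec : Prop := ∀ (ρ t : ℝ), 1 ≤ ρ → 0 < t → ∀ β : ℕ → ℝ,
  (∀ n, β n = (∑ k ∈ Finset.Icc 1 n, aeval ρ (A n k) * t ^ (k - 1)) / ρ ^ (n.choose 2)) →
  ∀ n, β (n + 1) = 1 + t * ∑ j ∈ Finset.Icc 1 n, (n.choose j : ℝ) * β j / ρ ^ ((n + 1 - j) * j)

/-- BCRU. Crude bound `t β_n ≤ (t + n)^n`. PROOF. Strong induction with BREC (may be used), `ρ ≥ 1`: `t β_{n+1} ≤ t (1 + ∑_{j=1}^n (n choose j) (t+j)^j) ≤ t ∑_{j=0}^n (n choose j) (t+n)^j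
= t (t+n+1)^n ≤ (t+n+1)^(n+1)`. -/
def S_bcru : Prop := ∀ (ρ t : ℝ), 1 ≤ ρ → 0 < t → ∀ β : ℕ → ℝ,
  (∀ n, β n = (∑ k ∈ Finset.Icc 1 n, aeval ρ (A n k) * t ^ (k - 1)) / ρ ^ (n.choose 2)) →
  ∀ n, 1 ≤ n → 0 ≤ β n ∧ t * β n ≤ (t + n) ^ n

/-- BLIM. For every `δ > 0` and all large `N`: `β_N < 2` where `t = ρ + N`, uniformly in `ρ ≥ 1 + δ`. BREC and BCRU may be used.
PROOF. Let `t = ρ + N`. For `n ≤ N`: in `β_{n+1} = 1 + t ∑_{j=1}^n (n choose j) ρ^{-(n+1-j) j} β_j` the terms `j ≤ n/2` are at most `(n (t+n) ρ^{-n/2})^j` (`n choose j ≤ n^j`, `t β_j ≤ (t+j)^j`,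
`(n+1-j) j ≥ j n/2`), and for `j > n/2`, `m = n - j`: `n choose j ≤ n^m`, `(m+1) j ≥ (m+1) n/2`, so they sum to at most `t ρ^{-n/2} ∑_m (n ρ^{-n/2})^m B_n`, `B_n = max_{1≤j≤n} β_j`. So if
`x_n := n (t+n) ρ^{-n/2} ≤ 1/8` then `β_{n+1} ≤ 1 + 2 x_n + 2 x_n B_n` (`n ≥ 1`). Let `n₀ = ⌊√N⌋`. For large `N`, all `ρ ≥ 1+δ` and `n₀ ≤ n ≤ N`: `x_n ≤ 2N(ρ+2N) ρ^{-n₀/2} ≤ 1/8` so `B_{n+1} ≤ max (B_n) (5/4 + B_n/4) ≤ max (B_n) 2`, hence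
`B_N ≤ max (2, B_{n₀})`, `B_{n₀} ≤ (t+n₀)^{n₀}` (BCRU, `t ≥ 1`), and `β_N ≤ 1 + 2 x + 2 x (2 + (ρ+2N)^{n₀})` with `x = x_{N-1} ≤ N (ρ+2N) ρ^{-(N-1)/2}`, which tends to `1` uniformly in `ρ ≥ 1+δ`
(`(ρ+2N) ≤ (1+2N) ρ`, `ρ^{n₀ + 1 - (N-1)/2} ≤ (1+δ)^{...}`). -/
def S_blim : Prop := ∀ δ : ℝ, 0 < δ → ∃ N₀ : ℕ, ∀ N : ℕ, N₀ ≤ N → ∀ ρ : ℝ, 1 + δ ≤ ρ →
  (∑ k ∈ Finset.Icc 1 N, aeval ρ (A N k) * (ρ + N) ^ (k - 1)) < 2 * ρ ^ (N.choose 2)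

/-- OUT. No flow roots outside. `S_form, S_afact, S_blim` may be used.
PROOF. Let `y = 1 - q`, `ρ = |y| ≥ 1 + δ`. `|descPochhammer k (q)| = ∏_{j<k} |q - j| ≤ |q| (ρ + N)^(k-1)` for `1 ≤ k ≤ N` (`|q - j| = |(1-j) - y| ≤ ρ + j - 1` for `j ≥ 1`), `|A N k (y)| ≤ A N k (ρ)`
(nonnegative coefficients, by induction from the recursion), `A N 1 (y) = y^(N choose 2)`, the term `k = 0` vanishes. So
`|q^N F(q)| ≥ |q| (ρ^(N choose 2) - ∑_{k≥2} A N k (ρ) (ρ+N)^(k-1)) > 0` (`|q| ≥ ρ - 1 > 0`), by `S_blim` (its `k = 1` term is `ρ^(N choose 2)`). -/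
def S_out : Prop := ∀ δ : ℝ, 0 < δ → ∃ N : ℕ, ∀ n : ℕ, N ≤ n → ∀ F : ℤ[X], IsFlowPoly n F →
  ∀ q : ℂ, 1 + δ ≤ ‖q - 1‖ → aeval q F ≠ 0

end Pool.Agent.H19.FK
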