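import Pool.Agent.H19.FK.Dual
import Pool.Agent.H19.FK.Part
import Pool.Agent.H19.FK.Afact
import Pool.Agent.H19.FK.Abd
import Pool.Agent.H19.FK.Qpol
import Pool.Agent.H19.FK.Jen
import Pool.Agent.H19.FK.Erd
import Pool.Agent.H19.FK.Form
import Pool.Agent.H19.FK.Ffact
import Pool.Agent.H19.FK.Fbd
import Pool.Agent.H19.FK.End
import Pool.Agent.H19.FK.Exist
import Pool.Agent.H19.FK.Ann
import Pool.Agent.H19.FK.Stm2

set_option autoImplicit false

namespace Pool.Agent.H19.FK

theorem u_form : S_form := Form.t_form Dual.t_dual Part.t_part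
theorem u_ffact : S_ffact := Ffact.t_ffact u_form Afact.t_afact
theorem u_fbd : S_fbd := Fbd.t_fbd u_form Abd.t_abd
theorem u_erd : S_erd := Erd.t_erd Qpol.t_qpol Jen.t_jen
theorem u_end : S_end := End.t_end u_ffact u_fbd u_erd
theorem u_exist (n : ℕ) : ∃ F : Polynomial ℤ, IsFlowPoly n F := Exist.t_exist Dual.t_dual Part.t_part n
theorem u_ann : S_ann := Ann.t_ann u_ffact u_fbd Jen.t_jen

end Pool.Agent.H19.FK
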