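import Mathlib
import Pool.Agent.H19.FK.Stm2

set_option autoImplicit false

open Polynomial

namespace Pool.Agent.H19.FK.Bcru

theorem t_bcru (hR : S_brec) : S_bcru := by
  intro ρ t hρ ht β hβ n
  have rec1 := hR ρ t hρ ht β hβ
  have hρ0 : 0 < ρ := by linarith
  induction n using Nat.strong_induction_on with
  | _ n ih =>
    intro hn
    obtain ⟨m, rfl⟩ : ∃ m, n = m + 1 := ⟨n - 1, by omega⟩
    have h0 : ∀ j ∈ Finset.Icc 1 m, 0 ≤ (m.choose j : ℝ) * β j / ρ ^ ((m + 1 - j) * j) := by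
      intro j hj
      rw [Finset.mem_Icc] at hj
      have := (ih j (by omega) hj.1).1
      positivity
    have h1 : 0 ≤ ∑ j ∈ Finset.Icc 1 m, (m.choose j : ℝ) * β j / ρ ^ ((m + 1 - j) * j) :=
      Finset.sum_nonneg h0
    refine ⟨by rw [rec1 m]; positivity, ?_⟩
    have h2 : t * ∑ j ∈ Finset.Icc 1 m, (m.choose j : ℝ) * β j / ρ ^ ((m + 1 - j) * j) ≤
        ∑ j ∈ Finset.Icc 1 m, (m.choose j : ℝ) * (t + m) ^ j := by
      rw [Finset.mul_sum]
      refine Finset.sum_le_sum fun j hj => ?_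
      have hj' := Finset.mem_Icc.mp hj
      obtain ⟨hb0, hb1⟩ := ih j (by omega) hj'.1
      have hjm : (j : ℝ) ≤ m := by exact_mod_cast hj'.2
      have h3 : t * β j ≤ (t + m) ^ j := by
        refine hb1.trans ?_
        gcongr
      have h4 : (1 : ℝ) ≤ ρ ^ ((m + 1 - j) * j) := one_le_pow₀ hρ
      have h5 : (m.choose j : ℝ) * β j / ρ ^ ((m + 1 - j) * j) ≤ (m.choose j : ℝ) * β j :=
        div_le_self (by positivity) h4
      calc t * ((m.choose j : ℝ) * β j / ρ ^ ((m + 1 - j) * j)) ≤ t * ((m.choose j : ℝ) * β j) :=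
            mul_le_mul_of_nonneg_left h5 ht.le
        _ = (m.choose j : ℝ) * (t * β j) := by ring
        _ ≤ _ := mul_le_mul_of_nonneg_left h3 (by positivity)
    have h6 : (t + m + 1) ^ m = 1 + ∑ j ∈ Finset.Icc 1 m, (m.choose j : ℝ) * (t + m) ^ j := by
      rw [add_pow, Finset.range_eq_Ico, Finset.sum_eq_sum_Ico_succ_bot (by omega)]
      have : Finset.Ico (0 + 1) (m + 1) = Finset.Icc 1 m := by
        ext j
        rw [Finset.mem_Ico, Finset.mem_Icc]
        omega
      rw [this]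
      simp only [pow_zero, one_pow, Nat.choose_zero_right, Nat.cast_one, mul_one]
      congr 1
      exact Finset.sum_congr rfl fun j _ => by ring
    rw [rec1 m]
    have h7 : (0 : ℝ) ≤ t + m + 1 := by positivity
    have h8 : t ≤ t + m + 1 := by
      have : (0 : ℝ) ≤ m := by positivity
      linarith
    calc t * (1 + t * ∑ j ∈ Finset.Icc 1 m, (m.choose j : ℝ) * β j / ρ ^ ((m + 1 - j) * j))
        ≤ t * (t + m + 1) ^ m := by
          rw [h6]
          exact mul_le_mul_of_nonneg_left (by linarith) ht.le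
      _ ≤ (t + m + 1) * (t + m + 1) ^ m := mul_le_mul_of_nonneg_right h8 (by positivity)
      _ = (t + ((m + 1 : ℕ) : ℝ)) ^ (m + 1) := by
          push_cast
          ring

end Pool.Agent.H19.FK.Bcru
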