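import Mathlib
import Pool.Agent.H19.FK.Stm2

/-! Project FK (helper19), task BLIM (by helper797). -/

set_option autoImplicit false

open Polynomial

namespace Pool.Agent.H19.FK.Blim

open Pool.Agent.H19.FK

theorem geo (x : ℝ) (h0 : 0 ≤ x) (h1 : x ≤ 1 / 2) (n : ℕ) :
    ∑ j ∈ Finset.Icc 1 n, x ^ j ≤ 2 * x * (1 - (1 / 2) ^ n) := by
  induction n with
  | zero => simp
  | succ n ih =>
    rw [Finset.sum_Icc_succ_top (by omega)]
    have h2 : x ^ (n + 1) ≤ x * (1 / 2) ^ n := by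
      rw [pow_succ, mul_comm]
      exact mul_le_mul_of_nonneg_left (pow_le_pow_left₀ h0 h1 n) h0
    calc ∑ j ∈ Finset.Icc 1 n, x ^ j + x ^ (n + 1)
        ≤ 2 * x * (1 - (1 / 2) ^ n) + x * (1 / 2) ^ n := add_le_add ih h2
      _ = 2 * x * (1 - (1 / 2) ^ (n + 1)) := by ring

theorem geo2 (x : ℝ) (h0 : 0 ≤ x) (h1 : x ≤ 1 / 2) (n : ℕ) :
    ∑ j ∈ Finset.Icc 1 n, x ^ j ≤ 2 * x := by
  refine (geo x h0 h1 n).trans ?_
  have h2 : (0 : ℝ) ≤ (1 / 2) ^ n := by positivity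
  nlinarith

theorem refl_sum (x : ℝ) (n : ℕ) :
    ∑ j ∈ Finset.Icc 1 n, x ^ (n + 1 - j) = ∑ j ∈ Finset.Icc 1 n, x ^ j := by
  refine Finset.sum_nbij' (fun j => n + 1 - j) (fun j => n + 1 - j) ?_ ?_ ?_ ?_ ?_
  · intro j hj
    rw [Finset.mem_Icc] at hj ⊢
    omega
  · intro j hj
    rw [Finset.mem_Icc] at hj ⊢
    omega
  · intro j hj
    rw [Finset.mem_Icc] at hj
    omega
  · intro j hj
    rw [Finset.mem_Icc] at hj
    omega
  · intro j hj
    rfl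

theorem choose_le (n j : ℕ) : (n.choose j : ℝ) ≤ (n : ℝ) ^ j := by
  exact_mod_cast Nat.choose_le_pow n j

theorem term {ρ t x B : ℝ} {N n j : ℕ} {b : ℝ} (hρ : 1 ≤ ρ) (hN : 1 ≤ N) (ht : t = ρ + N)
    (hb0 : 0 ≤ b) (hcr : t * b ≤ (t + j) ^ j) (hj1 : 1 ≤ j) (hjn : j ≤ n) (hnN : n ≤ N)
    (hx : x = N * (1 + 2 * N) / ρ ^ (n / 2)) (hB : b ≤ B) (hB0 : 0 ≤ B) :
    t * ((n.choose j : ℝ) * b / ρ ^ ((n + 1 - j) * j)) ≤ x ^ j + B * x ^ (n + 1 - j) := by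
  have hρ0 : 0 < ρ := by linarith
  have hN1 : (1 : ℝ) ≤ N := by exact_mod_cast hN
  have hnN' : (n : ℝ) ≤ N := by exact_mod_cast hnN
  have hjN' : (j : ℝ) ≤ N := by exact_mod_cast hjn.trans hnN
  have hn0 : (0 : ℝ) ≤ n := Nat.cast_nonneg n
  have hj0 : (0 : ℝ) ≤ j := Nat.cast_nonneg j
  have hx0 : 0 ≤ x := by
    rw [hx]
    positivity
  have ht0 : 0 < t := by
    rw [ht]
    positivity
  have hP : (0 : ℝ) < ρ ^ (n / 2) := by positivity
  rcases le_or_gt j (n / 2) with h | h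
  · -- small `j`
    have h1 : t + j ≤ ρ * (1 + 2 * N) := by
      rw [ht]
      nlinarith
    have h2 : (ρ * ρ ^ (n / 2)) ^ j ≤ ρ ^ ((n + 1 - j) * j) := by
      rw [pow_mul]
      refine pow_le_pow_left₀ (by positivity) ?_ j
      rw [← pow_succ']
      exact pow_le_pow_right₀ hρ (by omega)
    have h3 : t * ((n.choose j : ℝ) * b / ρ ^ ((n + 1 - j) * j)) ≤ x ^ j := by
      calc t * ((n.choose j : ℝ) * b / ρ ^ ((n + 1 - j) * j))
          = (n.choose j : ℝ) * (t * b) / ρ ^ ((n + 1 - j) * j) := by ring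
        _ ≤ (N : ℝ) ^ j * (ρ * (1 + 2 * N)) ^ j / (ρ * ρ ^ (n / 2)) ^ j := by
            apply div_le_div₀ (by positivity) _ (by positivity) h2
            apply mul_le_mul _ _ (by positivity) (by positivity)
            · exact (choose_le n j).trans (pow_le_pow_left₀ hn0 hnN' j)
            · exact hcr.trans (pow_le_pow_left₀ (by positivity) h1 j)
        _ = x ^ j := by
            rw [← mul_pow, ← div_pow, hx]
            congr 1
            field_simp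
    have h4 : 0 ≤ B * x ^ (n + 1 - j) := by positivity
    linarith
  · -- large `j`
    obtain ⟨m, hm⟩ : ∃ m, n = m + j := ⟨n - j, by omega⟩
    have e1 : n + 1 - j = m + 1 := by omega
    have h1 : (n.choose j : ℝ) ≤ (N : ℝ) ^ m := by
      have e2 : n.choose j = n.choose m := by
        rw [hm]
        exact (Nat.choose_symm_add).symm
      rw [e2]
      exact (choose_le n m).trans (pow_le_pow_left₀ hn0 hnN' m)
    have h2 : (ρ * ρ ^ (n / 2)) ^ (m + 1) ≤ ρ ^ ((n + 1 - j) * j) := by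
      rw [e1, mul_comm (m + 1) j, pow_mul]
      refine pow_le_pow_left₀ (by positivity) ?_ _
      rw [← pow_succ']
      exact pow_le_pow_right₀ hρ (by omega)
    have h5 : t * (N : ℝ) ^ m ≤ (ρ * (N * (1 + 2 * N))) ^ (m + 1) := by
      rw [pow_succ' _ m]
      apply mul_le_mul _ _ (by positivity) (by positivity)
      · rw [ht]
        nlinarith [mul_nonneg (sub_nonneg.2 hρ) (sub_nonneg.2 hN1),
          mul_nonneg (sub_nonneg.2 hρ) (mul_self_nonneg ((N : ℝ) - 1)), mul_self_nonneg ((N : ℝ) - 1)]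
      · refine pow_le_pow_left₀ (by positivity) ?_ m
        have h6 : (1 : ℝ) ≤ ρ * (1 + 2 * N) := by nlinarith
        calc (N : ℝ) = 1 * N := by ring
          _ ≤ (ρ * (1 + 2 * N)) * N := mul_le_mul_of_nonneg_right h6 (by positivity)
          _ = ρ * (N * (1 + 2 * N)) := by ring
    have h3 : t * ((n.choose j : ℝ) * b / ρ ^ ((n + 1 - j) * j)) ≤ B * x ^ (n + 1 - j) := by
      calc t * ((n.choose j : ℝ) * b / ρ ^ ((n + 1 - j) * j))
          = b * (t * (n.choose j : ℝ)) / ρ ^ ((n + 1 - j) * j) := by ring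
        _ ≤ B * (ρ * (N * (1 + 2 * N))) ^ (m + 1) / (ρ * ρ ^ (n / 2)) ^ (m + 1) := by
            apply div_le_div₀ (by positivity) _ (by positivity) h2
            apply mul_le_mul hB _ (by positivity) hB0
            exact (mul_le_mul_of_nonneg_left h1 ht0.le).trans h5
        _ = B * x ^ (n + 1 - j) := by
            rw [mul_div_assoc, ← div_pow, hx, e1]
            congr 2
            field_simp
    have h4 : 0 ≤ x ^ j := by positivity
    linarith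

theorem step {ρ t x B : ℝ} {N n : ℕ} {β : ℕ → ℝ} (hρ : 1 ≤ ρ) (hN : 1 ≤ N) (ht : t = ρ + N)
    (hrec : β (n + 1) = 1 + t * ∑ j ∈ Finset.Icc 1 n,
      (n.choose j : ℝ) * β j / ρ ^ ((n + 1 - j) * j))
    (hcr : ∀ j, 1 ≤ j → 0 ≤ β j ∧ t * β j ≤ (t + j) ^ j)
    (hnN : n ≤ N) (hx : x = N * (1 + 2 * N) / ρ ^ (n / 2)) (hx2 : x ≤ 1 / 2)
    (hB : ∀ j, 1 ≤ j → j ≤ n → β j ≤ B) (hB0 : 0 ≤ B) :
    β (n + 1) ≤ 1 + 2 * x * (1 + B) := by
  have hx0 : 0 ≤ x := by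
    rw [hx]
    positivity
  rw [hrec, Finset.mul_sum]
  have h1 : ∑ j ∈ Finset.Icc 1 n, t * ((n.choose j : ℝ) * β j / ρ ^ ((n + 1 - j) * j)) ≤
      ∑ j ∈ Finset.Icc 1 n, (x ^ j + B * x ^ (n + 1 - j)) := by
    refine Finset.sum_le_sum fun j hj => ?_
    rw [Finset.mem_Icc] at hj
    exact term hρ hN ht (hcr j hj.1).1 (hcr j hj.1).2 hj.1 hj.2 hnN hx (hB j hj.1 hj.2) hB0
  have e : ∑ j ∈ Finset.Icc 1 n, B * x ^ (n + 1 - j) = B * ∑ j ∈ Finset.Icc 1 n, x ^ j := by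
    rw [← Finset.mul_sum, refl_sum]
  rw [Finset.sum_add_distrib, e] at h1
  have h2 := geo2 x hx0 hx2 n
  have h3 : B * ∑ j ∈ Finset.Icc 1 n, x ^ j ≤ B * (2 * x) := mul_le_mul_of_nonneg_left h2 hB0
  linarith

theorem large (R : ℝ) (hR : 1 < R) : ∃ S₀ : ℕ, ∀ m : ℕ, S₀ ≤ m →
    8 * ((m : ℝ) + 1) ^ 12 ≤ R ^ m := by
  have h := tendsto_pow_const_div_const_pow_of_one_lt 12 hR
  have h2 := h.eventually_lt_const (show (0 : ℝ) < 1 / (8 * 2 ^ 12) by positivity)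
  obtain ⟨S, hS⟩ := Filter.eventually_atTop.1 h2
  refine ⟨S + 1, fun m hm => ?_⟩
  have h3 := hS m (by omega)
  have hR0 : (0 : ℝ) < R ^ m := by positivity
  rw [div_lt_div_iff₀ hR0 (by positivity)] at h3
  have h4 : (m : ℝ) + 1 ≤ 2 * m := by
    have : (1 : ℝ) ≤ m := by exact_mod_cast (by omega : 1 ≤ m)
    linarith
  calc 8 * ((m : ℝ) + 1) ^ 12 ≤ 8 * (2 * m) ^ 12 := by gcongr
    _ = (m : ℝ) ^ 12 * (8 * 2 ^ 12) := by ring
    _ ≤ R ^ m := by linarith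

/-- the natural number inequalities -/
theorem exps {S₀ N s : ℕ} (hs : 2 * S₀ + 21 ≤ s) (h1 : s ^ 2 ≤ N) :
    s * ((3 * s + 5) / 12 + 1) + s ≤ (N - 1) / 2 := by
  have h2 : (3 * s + 5) / 12 * 12 ≤ 3 * s + 5 := Nat.div_mul_le_self _ _
  obtain ⟨e, he⟩ : ∃ e, e = (3 * s + 5) / 12 + 1 := ⟨_, rfl⟩
  rw [← he]
  have h3 : 12 * e ≤ 3 * s + 17 := by omega
  have h4 : 12 * (s * e) ≤ s * (3 * s + 17) := by
    calc 12 * (s * e) = s * (12 * e) := by ring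
      _ ≤ s * (3 * s + 17) := Nat.mul_le_mul_left _ h3
  have h5 : s * (3 * s + 17) + 12 * s + 12 ≤ 6 * s ^ 2 := by nlinarith
  omega

theorem cond2 {R : ℝ} (hR : 1 < R) {N s e h : ℕ} (hs : 1 ≤ s) (h2 : N < (s + 1) ^ 2)
    (hP : 8 * ((s : ℝ) + 1) ^ 12 ≤ R ^ s) (he : 3 * s + 5 < 12 * e) (hh : s * e + s ≤ h) :
    8 * (N : ℝ) * (1 + 2 * N) ^ (s + 1) < R ^ (h - s) := by
  have hN : (N : ℝ) ≤ ((s : ℝ) + 1) ^ 2 := by
    exact_mod_cast h2.le
  have hs1 : (1 : ℝ) ≤ s := by exact_mod_cast hs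
  have hN2 : (1 : ℝ) + 2 * N ≤ ((s : ℝ) + 1) ^ 3 := by
    have h3 : (N : ℝ) + 1 ≤ ((s : ℝ) + 1) ^ 2 := by exact_mod_cast h2
    have h4 : (2 : ℝ) * ((s : ℝ) + 1) ^ 2 ≤ ((s : ℝ) + 1) ^ 3 := by
      rw [pow_succ ((s : ℝ) + 1) 2, mul_comm]
      exact mul_le_mul_of_nonneg_left (by linarith) (by positivity)
    linarith
  have he1 : 1 ≤ e := by omega
  calc 8 * (N : ℝ) * (1 + 2 * N) ^ (s + 1)
      ≤ 8 * ((s : ℝ) + 1) ^ 2 * (((s : ℝ) + 1) ^ 3) ^ (s + 1) := by gcongr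
    _ = 8 * ((s : ℝ) + 1) ^ (3 * s + 5) := by
        rw [← pow_mul, mul_assoc, ← pow_add]
        congr 2
        ring
    _ < 8 * ((s : ℝ) + 1) ^ (12 * e) := by
        have := pow_lt_pow_right₀ (show (1 : ℝ) < (s : ℝ) + 1 by linarith) he
        linarith
    _ = 8 * (((s : ℝ) + 1) ^ 12) ^ e := by rw [pow_mul]
    _ ≤ 8 ^ e * (((s : ℝ) + 1) ^ 12) ^ e := by
        have : (8 : ℝ) ≤ 8 ^ e := le_self_pow₀ (by norm_num) (by omega)
        exact mul_le_mul_of_nonneg_right this (by positivity)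
    _ = (8 * ((s : ℝ) + 1) ^ 12) ^ e := by rw [mul_pow]
    _ ≤ (R ^ s) ^ e := pow_le_pow_left₀ (by positivity) hP e
    _ = R ^ (s * e) := by rw [pow_mul]
    _ ≤ R ^ (h - s) := pow_le_pow_right₀ hR.le (by omega)

theorem cond1 {R : ℝ} (hR : 1 < R) {N s m n : ℕ} (hm : m = s / 2) (hm1 : 10 ≤ m)
    (h2 : N < (s + 1) ^ 2) (hP : 8 * ((m : ℝ) + 1) ^ 12 ≤ R ^ m) (hn : m ≤ n) :
    8 * ((N : ℝ) * (1 + 2 * N)) ≤ R ^ n := by
  have hN : (N : ℝ) + 1 ≤ ((s : ℝ) + 1) ^ 2 := by exact_mod_cast h2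
  have hs : (s : ℝ) + 1 ≤ 2 * ((m : ℝ) + 1) := by exact_mod_cast (by omega : s + 1 ≤ 2 * (m + 1))
  have hm0 : (10 : ℝ) ≤ m := by exact_mod_cast hm1
  have hN2 : (N : ℝ) + 1 ≤ 4 * ((m : ℝ) + 1) ^ 2 := by
    calc (N : ℝ) + 1 ≤ ((s : ℝ) + 1) ^ 2 := hN
      _ ≤ (2 * ((m : ℝ) + 1)) ^ 2 := by gcongr
      _ = 4 * ((m : ℝ) + 1) ^ 2 := by ring
  have hN0 : (0 : ℝ) ≤ N := Nat.cast_nonneg N
  calc 8 * ((N : ℝ) * (1 + 2 * N)) ≤ 8 * ((4 * ((m : ℝ) + 1) ^ 2) * (8 * ((m : ℝ) + 1) ^ 2)) := by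
        gcongr
        · linarith
        · linarith
    _ = 8 * (32 * ((m : ℝ) + 1) ^ 4) := by ring
    _ ≤ 8 * (((m : ℝ) + 1) ^ 8 * ((m : ℝ) + 1) ^ 4) := by
        have : (32 : ℝ) ≤ ((m : ℝ) + 1) ^ 8 := by
          calc (32 : ℝ) ≤ 2 ^ 8 := by norm_num
            _ ≤ ((m : ℝ) + 1) ^ 8 := by
              gcongr
              linarith
        gcongr
    _ = 8 * ((m : ℝ) + 1) ^ 12 := by ring
    _ ≤ R ^ m := hP
    _ ≤ R ^ n := pow_le_pow_right₀ hR.le hn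

theorem t_blim (hR : S_brec) (hC : S_bcru) : S_blim := by
  intro δ hδ
  obtain ⟨S₀, hS₀⟩ := large (1 + δ) (by linarith)
  refine ⟨(2 * S₀ + 21) ^ 2, fun N hN ρ hρ => ?_⟩
  obtain ⟨s, hs⟩ : ∃ s, s = Nat.sqrt N := ⟨_, rfl⟩
  have hs1 : 2 * S₀ + 21 ≤ s := by
    rw [hs]
    exact Nat.le_sqrt'.2 hN
  have hs2 : s ^ 2 ≤ N := by
    rw [hs]
    exact Nat.sqrt_le' N
  have hs3 : N < (s + 1) ^ 2 := by
    rw [hs]
    exact Nat.lt_succ_sqrt' N
  have hsN : s ≤ N := le_trans (Nat.le_self_pow (by norm_num) s) hs2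
  have hN1 : 1 ≤ N := by omega
  have hρ1 : 1 ≤ ρ := by linarith
  have hρ0 : 0 < ρ := by linarith
  have hNr : (1 : ℝ) ≤ N := by exact_mod_cast hN1
  have ht0 : 0 < ρ + (N : ℝ) := by positivity
  have ht1 : 1 ≤ ρ + (N : ℝ) := by linarith
  obtain ⟨β, hβ⟩ : ∃ β : ℕ → ℝ, ∀ n, β n = (∑ k ∈ Finset.Icc 1 n,
      aeval ρ (A n k) * (ρ + N) ^ (k - 1)) / ρ ^ (n.choose 2) := ⟨_, fun _ => rfl⟩
  have hrec := hR ρ (ρ + N) hρ1 ht0 β hβ
  have hcr := hC ρ (ρ + N) hρ1 ht0 β hβ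
  obtain ⟨E, hE⟩ : ∃ E : ℝ, E = (ρ * (1 + 2 * N)) ^ s := ⟨_, rfl⟩
  have hY : 1 ≤ ρ * (1 + 2 * (N : ℝ)) := by nlinarith
  have hE1 : 1 ≤ E := by
    rw [hE]
    exact one_le_pow₀ hY
  -- the bound for all `n ≤ N`
  have hB : ∀ n, 1 ≤ n → n ≤ N → β n ≤ 2 + E := by
    intro n
    induction n using Nat.strong_induction_on with
    | _ n ih =>
      intro hn1 hnN
      rcases le_or_gt n s with h | h
      · obtain ⟨c1, c2⟩ := hcr n hn1
        have hnN' : (n : ℝ) ≤ N := by exact_mod_cast hnN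
        calc β n ≤ (ρ + N) * β n := le_mul_of_one_le_left c1 ht1
          _ ≤ (ρ + N + n) ^ n := c2
          _ ≤ (ρ * (1 + 2 * N)) ^ n := by
              refine pow_le_pow_left₀ (by positivity) ?_ n
              nlinarith
          _ ≤ (ρ * (1 + 2 * N)) ^ s := pow_le_pow_right₀ hY h
          _ = E := hE.symm
          _ ≤ 2 + E := by linarith
      · obtain ⟨n, rfl⟩ : ∃ m, n = m + 1 := ⟨n - 1, by omega⟩
        have hx2 : (N : ℝ) * (1 + 2 * N) / ρ ^ (n / 2) ≤ 1 / 8 := by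
          have c1 := cond1 (R := 1 + δ) (by linarith) (N := N) (s := s) (m := s / 2) (n := n / 2) rfl
            (by omega) hs3 (hS₀ _ (by omega)) (Nat.div_le_div_right (by omega))
          have c2 : (1 + δ) ^ (n / 2) ≤ ρ ^ (n / 2) := pow_le_pow_left₀ (by linarith) hρ _
          rw [div_le_iff₀ (by positivity)]
          linarith
        have hst := step (x := (N : ℝ) * (1 + 2 * N) / ρ ^ (n / 2)) (B := 2 + E) hρ1 hN1 rfl
          (hrec n) hcr (by omega) rfl (by linarith) (fun j hj1 hj2 => ih j (by omega) hj1 (by omega))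
          (by linarith)
        have hx3 : 2 * ((N : ℝ) * (1 + 2 * N) / ρ ^ (n / 2)) * (1 + (2 + E)) ≤
            2 * (1 / 8) * (1 + (2 + E)) :=
          mul_le_mul_of_nonneg_right (by linarith) (by linarith)
        linarith
  -- the last step
  have hfin : β N < 2 := by
    obtain ⟨n, hn⟩ : ∃ n, N = n + 1 := ⟨N - 1, by omega⟩
    have hn2 : n = N - 1 := by omega
    obtain ⟨h, hh⟩ : ∃ h, h = n / 2 := ⟨_, rfl⟩
    have hex := exps (S₀ := S₀) hs1 hs2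
    rw [← hn2, ← hh] at hex
    have hc := cond2 (R := 1 + δ) (by linarith) (N := N) (s := s) (e := (3 * s + 5) / 12 + 1)
      (h := h) (by omega) hs3 (hS₀ _ (by omega)) (by omega) hex
    have hx2 : (N : ℝ) * (1 + 2 * N) / ρ ^ h ≤ 1 / 8 := by
      have c1 := cond1 (R := 1 + δ) (by linarith) (N := N) (s := s) (m := s / 2) (n := h) rfl
        (by omega) hs3 (hS₀ _ (by omega)) (by
          have : s ≤ h := by
            refine le_trans ?_ hex
            exact Nat.le_add_left _ _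
          omega)
      have c2 : (1 + δ) ^ h ≤ ρ ^ h := pow_le_pow_left₀ (by linarith) hρ _
      rw [div_le_iff₀ (by positivity)]
      linarith
    have hst := step (x := (N : ℝ) * (1 + 2 * N) / ρ ^ h) (B := 2 + E) hρ1 hN1 rfl
      (hrec n) hcr (by omega) (by rw [hh]) (by linarith)
      (fun j hj1 hj2 => hB j hj1 (by omega)) (by linarith)
    rw [← hn] at hst
    have hsh : s ≤ h := le_trans (Nat.le_add_left _ _) hex
    have hk : 2 * ((N : ℝ) * (1 + 2 * N) / ρ ^ h) * (1 + (2 + E)) < 1 := by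
      have c3 : 2 * ((N : ℝ) * (1 + 2 * N) / ρ ^ h) * (1 + (2 + E)) ≤
          2 * ((N : ℝ) * (1 + 2 * N) / ρ ^ h) * (4 * E) :=
        mul_le_mul_of_nonneg_left (by linarith) (by positivity)
      have c4 : ρ ^ h = ρ ^ s * ρ ^ (h - s) := by
        rw [← pow_add]
        congr 1
        omega
      have c5 : 2 * ((N : ℝ) * (1 + 2 * N) / ρ ^ h) * (4 * E) =
          8 * N * (1 + 2 * N) ^ (s + 1) / ρ ^ (h - s) := by
        rw [hE, c4, mul_pow]
        field_simp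
        ring
      have c6 : (1 + δ) ^ (h - s) ≤ ρ ^ (h - s) := pow_le_pow_left₀ (by linarith) hρ _
      have c7 : 8 * (N : ℝ) * (1 + 2 * N) ^ (s + 1) / ρ ^ (h - s) < 1 := by
        rw [div_lt_one (by positivity)]
        linarith
      linarith
    linarith
  rw [hβ, div_lt_iff₀ (by positivity)] at hfin
  exact hfin

end Pool.Agent.H19.FK.Blim
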