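import Mathlib
import Pool.Agent.H19.FK.Stm2

/-! Project FK, task BREC: the recursion for the normalised partition sums. -/

set_option autoImplicit false

open Polynomial

namespace Pool.Agent.H19.FK.Brec

open Pool.Agent.H19.FK Finset

lemma ch2 (m j : ℕ) : (m + j).choose 2 = m.choose 2 + j.choose 2 + m * j := by
  induction j with
  | zero => simp
  | succ j ih =>
    rw [← add_assoc, Nat.choose_succ_succ' (m + j) 1, Nat.choose_succ_succ' j 1, ih,
      Nat.choose_one_right, Nat.choose_one_right]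
    ring

lemma A_succ (n k : ℕ) : A (n + 1) (k + 1) =
    ∑ m : Fin (n + 1), (n.choose m : ℤ[X]) * X ^ (((m : ℕ) + 1).choose 2) * A (n - m) k := by
  rw [A]

lemma a_succ (ρ : ℝ) (n k : ℕ) : aeval ρ (A (n + 1) (k + 1)) =
    ∑ m ∈ range (n + 1), (n.choose m : ℝ) * ρ ^ ((m + 1).choose 2) * aeval ρ (A (n - m) k) := by
  rw [A_succ, map_sum, Finset.sum_range]
  refine Finset.sum_congr rfl fun m _ => ?_
  simp

lemma sum_Icc_shift (g : ℕ → ℝ) (j : ℕ) : ∑ k ∈ Icc 1 j, g k = ∑ k ∈ range j, g (k + 1) := by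
  induction j with
  | zero => simp
  | succ j ih =>
    rw [Finset.sum_Icc_succ_top (by omega), ih, Finset.sum_range_succ]

lemma inner_zero (hA : S_afact) (ρ t : ℝ) (n : ℕ) :
    ∑ k ∈ range (n + 1), aeval ρ (A 0 k) * t ^ k = 1 := by
  rw [Finset.sum_eq_single 0]
  · have h := hA.2.1 0
    rw [h]
    simp
  · intro k _ hk
    rw [hA.1 0 k (by omega)]
    simp
  · intro h
    exact absurd (Finset.mem_range.2 (by omega)) h

lemma inner_pos (hA : S_afact) (ρ t : ℝ) (n j : ℕ) (hj : j ≤ n) (hj1 : 1 ≤ j) :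
    ∑ k ∈ range (n + 1), aeval ρ (A j k) * t ^ k =
      t * ∑ k ∈ Icc 1 j, aeval ρ (A j k) * t ^ (k - 1) := by
  obtain ⟨i, rfl⟩ : ∃ i, j = i + 1 := ⟨j - 1, by omega⟩
  rw [Finset.sum_range_succ', hA.2.2.2.1 i]
  rw [sum_Icc_shift, Finset.mul_sum]
  have h1 : ∑ k ∈ range (i + 1), t * (aeval ρ (A (i + 1) (k + 1)) * t ^ (k + 1 - 1)) =
      ∑ k ∈ range (i + 1), aeval ρ (A (i + 1) (k + 1)) * t ^ (k + 1) := by
    refine Finset.sum_congr rfl fun k _ => ?_
    rw [Nat.add_sub_cancel, pow_succ]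
    ring
  rw [h1]
  have h2 : ∑ k ∈ range (i + 1), aeval ρ (A (i + 1) (k + 1)) * t ^ (k + 1) =
      ∑ k ∈ range n, aeval ρ (A (i + 1) (k + 1)) * t ^ (k + 1) := by
    refine Finset.sum_subset (Finset.range_mono hj) fun k _ hk => ?_
    rw [Finset.mem_range, not_lt] at hk
    rw [hA.1 (i + 1) (k + 1) (by omega)]
    simp
  rw [h2]
  simp

theorem t_brec (hA : S_afact) : S_brec := by
  intro ρ t hρ ht β hβ n
  have hρ0 : (0 : ℝ) < ρ := by linarith
  have hB : ∀ n, ∑ k ∈ Icc 1 n, aeval ρ (A n k) * t ^ (k - 1) = β n * ρ ^ (n.choose 2) := by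
    intro n
    rw [hβ n, div_mul_cancel₀]
    exact (pow_pos hρ0 _).ne'
  have hmain : ∑ k ∈ Icc 1 (n + 1), aeval ρ (A (n + 1) k) * t ^ (k - 1) =
      ρ ^ ((n + 1).choose 2) + ∑ j ∈ Icc 1 n, (n.choose j : ℝ) * ρ ^ ((n + 1 - j).choose 2) *
        (t * (β j * ρ ^ (j.choose 2))) := by
    rw [sum_Icc_shift]
    have h1 : ∀ k ∈ range (n + 1), aeval ρ (A (n + 1) (k + 1)) * t ^ (k + 1 - 1) =
        ∑ m ∈ range (n + 1), (n.choose m : ℝ) * ρ ^ ((m + 1).choose 2) *
          (aeval ρ (A (n - m) k) * t ^ k) := by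
      intro k _
      rw [a_succ, Nat.add_sub_cancel, Finset.sum_mul]
      refine Finset.sum_congr rfl fun m _ => ?_
      ring
    rw [Finset.sum_congr rfl h1, Finset.sum_comm]
    have h2 : ∀ m ∈ range (n + 1), ∑ k ∈ range (n + 1), (n.choose m : ℝ) * ρ ^ ((m + 1).choose 2) *
          (aeval ρ (A (n - m) k) * t ^ k) =
        (fun j => (n.choose j : ℝ) * ρ ^ ((n + 1 - j).choose 2) *
          ∑ k ∈ range (n + 1), aeval ρ (A j k) * t ^ k) (n - m) := by
      intro m hm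
      rw [Finset.mem_range] at hm
      rw [← Finset.mul_sum]
      have e1 : n.choose (n - m) = n.choose m := Nat.choose_symm (by omega)
      have e2 : n + 1 - (n - m) = m + 1 := by omega
      simp only [e1, e2]
    rw [Finset.sum_congr rfl h2]
    have h3 := Finset.sum_range_reflect (fun j => (n.choose j : ℝ) * ρ ^ ((n + 1 - j).choose 2) *
          ∑ k ∈ range (n + 1), aeval ρ (A j k) * t ^ k) (n + 1)
    have h4 : ∀ m ∈ range (n + 1), (fun j => (n.choose j : ℝ) * ρ ^ ((n + 1 - j).choose 2) *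
          ∑ k ∈ range (n + 1), aeval ρ (A j k) * t ^ k) (n - m) =
        (fun j => (n.choose j : ℝ) * ρ ^ ((n + 1 - j).choose 2) *
          ∑ k ∈ range (n + 1), aeval ρ (A j k) * t ^ k) (n + 1 - 1 - m) := by
      intro m _
      rw [Nat.add_sub_cancel]
    rw [Finset.sum_congr rfl h4, h3, Finset.sum_range_succ']
    rw [inner_zero hA]
    rw [sum_Icc_shift (fun j => (n.choose j : ℝ) * ρ ^ ((n + 1 - j).choose 2) *
        (t * (β j * ρ ^ (j.choose 2)))) n, add_comm]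
    have h5 : ∑ k ∈ range n, (n.choose (k + 1) : ℝ) * ρ ^ ((n + 1 - (k + 1)).choose 2) *
          ∑ k_1 ∈ range (n + 1), aeval ρ (A (k + 1) k_1) * t ^ k_1 =
        ∑ k ∈ range n, (n.choose (k + 1) : ℝ) * ρ ^ ((n + 1 - (k + 1)).choose 2) *
          (t * (β (k + 1) * ρ ^ ((k + 1).choose 2))) := by
      refine Finset.sum_congr rfl fun k hk => ?_
      rw [Finset.mem_range] at hk
      rw [inner_pos hA ρ t n (k + 1) (by omega) (by omega), hB]
    rw [h5]
    simp
  rw [hβ (n + 1), hmain, add_div, div_self (pow_pos hρ0 _).ne', Finset.sum_div, Finset.mul_sum]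
  congr 1
  refine Finset.sum_congr rfl fun j hj => ?_
  rw [Finset.mem_Icc] at hj
  have e : (n + 1).choose 2 = (n + 1 - j).choose 2 + j.choose 2 + (n + 1 - j) * j := by
    have h := ch2 (n + 1 - j) j
    rw [Nat.sub_add_cancel (by omega)] at h
    exact h
  rw [e, pow_add, pow_add]
  have p1 : ρ ^ ((n + 1 - j).choose 2) ≠ 0 := (pow_pos hρ0 _).ne'
  have p2 : ρ ^ (j.choose 2) ≠ 0 := (pow_pos hρ0 _).ne'
  have p3 : ρ ^ ((n + 1 - j) * j) ≠ 0 := (pow_pos hρ0 _).ne'
  field_simp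

end Pool.Agent.H19.FK.Brec
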