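import Mathlib
import Pool.Agent.H19.FK.Stm2

set_option autoImplicit false

open Polynomial

namespace Pool.Agent.H19.FK.Eqd

/-- comparison of two sums -/
theorem msum (R : Multiset ℂ) (g g' : ℂ → ℂ) (bad : ℂ → Prop) [DecidablePred bad] (c K : ℝ)
    (h : ∀ z, ‖g z - g' z‖ ≤ c + (if bad z then K else 0)) :
    ‖(R.map g).sum - (R.map g').sum‖ ≤ c * R.card + K * (R.countP bad : ℝ) := by
  induction R using Multiset.induction_on with
  | empty => simp
  | cons a R ih =>
    rw [Multiset.map_cons, Multiset.map_cons, Multiset.sum_cons, Multiset.sum_cons,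
      Multiset.card_cons, Multiset.countP_cons]
    have e : g a + (R.map g).sum - (g' a + (R.map g').sum) =
        (g a - g' a) + ((R.map g).sum - (R.map g').sum) := by ring
    rw [e]
    refine (norm_add_le _ _).trans ((add_le_add (h a) ih).trans (le_of_eq ?_))
    split_ifs <;> push_cast <;> ring

/-- the angle -/
noncomputable def th (z : ℂ) : AddCircle (2 * Real.pi) := ((Complex.arg (z - 1) : ℝ) : AddCircle (2 * Real.pi))

/-- the mean -/
noncomputable def Lm (φ : C(AddCircle (2 * Real.pi), ℂ)) : ℂ :=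
  (2 * Real.pi : ℂ)⁻¹ * ∫ t in (0:ℝ)..(2 * Real.pi), φ (t : AddCircle (2 * Real.pi))

theorem cont_mk : Continuous (fun t : ℝ => (t : AddCircle (2 * Real.pi))) := continuous_quotient_mk'

theorem intble (φ : C(AddCircle (2 * Real.pi), ℂ)) :
    IntervalIntegrable (fun t : ℝ => φ (t : AddCircle (2 * Real.pi))) MeasureTheory.volume 0
      (2 * Real.pi) := (φ.continuous.comp cont_mk).intervalIntegrable _ _

theorem Lm_add (φ ψ : C(AddCircle (2 * Real.pi), ℂ)) : Lm (φ + ψ) = Lm φ + Lm ψ := by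
  unfold Lm
  simp only [ContinuousMap.add_apply]
  rw [intervalIntegral.integral_add (intble φ) (intble ψ), mul_add]

theorem Lm_smul (a : ℂ) (φ : C(AddCircle (2 * Real.pi), ℂ)) : Lm (a • φ) = a * Lm φ := by
  unfold Lm
  simp only [ContinuousMap.smul_apply, smul_eq_mul]
  rw [intervalIntegral.integral_const_mul]
  ring

theorem Lm_zero : Lm 0 = 0 := by
  unfold Lm
  simp

theorem Lm_sub_le (φ ψ : C(AddCircle (2 * Real.pi), ℂ)) {ε : ℝ}
    (h : ∀ x, ‖φ x - ψ x‖ ≤ ε) : ‖Lm φ - Lm ψ‖ ≤ ε := by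
  have hpi := Real.two_pi_pos
  unfold Lm
  rw [← mul_sub, ← intervalIntegral.integral_sub (intble φ) (intble ψ), norm_mul]
  have h1 : ‖∫ t in (0:ℝ)..(2 * Real.pi), (φ (t : AddCircle (2 * Real.pi)) -
      ψ (t : AddCircle (2 * Real.pi)))‖ ≤ ε * |2 * Real.pi - 0| :=
    intervalIntegral.norm_integral_le_of_norm_le_const fun x _ => h _
  have h2 : ‖(2 * Real.pi : ℂ)⁻¹‖ = (2 * Real.pi)⁻¹ := by
    rw [norm_inv]
    congr 1
    have : (2 * Real.pi : ℂ) = ((2 * Real.pi : ℝ) : ℂ) := by push_cast; ring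
    rw [this, Complex.norm_real, Real.norm_of_nonneg hpi.le]
  rw [h2]
  rw [sub_zero, abs_of_pos hpi] at h1
  calc (2 * Real.pi)⁻¹ * _ ≤ (2 * Real.pi)⁻¹ * (ε * (2 * Real.pi)) :=
        mul_le_mul_of_nonneg_left h1 (by positivity)
    _ = ε := by field_simp

theorem fou (k : ℤ) (t : ℝ) : fourier k (t : AddCircle (2 * Real.pi)) = Complex.exp (k * t * Complex.I) := by
  rw [fourier_coe_apply]
  congr 1
  push_cast
  have : (Real.pi : ℂ) ≠ 0 := by exact_mod_cast Real.pi_ne_zero
  field_simp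

theorem Lm_fourier_zero : Lm (fourier 0) = 1 := by
  unfold Lm
  have hpi : (Real.pi : ℂ) ≠ 0 := by exact_mod_cast Real.pi_ne_zero
  have : ∀ t : ℝ, fourier 0 (t : AddCircle (2 * Real.pi)) = 1 := fun t => by
    rw [fou]; simp
  simp only [this]
  rw [intervalIntegral.integral_const]
  simp only [sub_zero, Complex.real_smul, mul_one]
  push_cast
  field_simp

theorem Lm_fourier {k : ℤ} (hk : k ≠ 0) : Lm (fourier k) = 0 := by
  unfold Lm
  have h1 : ∀ t : ℝ, fourier k (t : AddCircle (2 * Real.pi)) = Complex.exp ((k * Complex.I) * t) := by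
    intro t
    rw [fou]
    congr 1
    ring
  simp only [h1]
  have hc : (k * Complex.I : ℂ) ≠ 0 := mul_ne_zero (by exact_mod_cast hk) Complex.I_ne_zero
  rw [integral_exp_mul_complex hc]
  have h2 : Complex.exp (k * Complex.I * ((2 * Real.pi : ℝ) : ℂ)) = 1 := by
    rw [← Complex.exp_int_mul_two_pi_mul_I k]
    congr 1
    push_cast
    ring
  rw [h2]
  simp

theorem dense (φ : C(AddCircle (2 * Real.pi), ℂ)) {ε : ℝ} (hε : 0 < ε) :
    ∃ ψ ∈ Submodule.span ℂ (Set.range (fourier (T := 2 * Real.pi))), ∀ x, ‖φ x - ψ x‖ ≤ ε := by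
  have : Fact (0 < 2 * Real.pi) := ⟨Real.two_pi_pos⟩
  have h : φ ∈ (Submodule.span ℂ (Set.range (fourier (T := 2 * Real.pi)))).topologicalClosure := by
    rw [span_fourier_closure_eq_top]
    trivial
  rw [← SetLike.mem_coe, Submodule.topologicalClosure_coe, Metric.mem_closure_iff] at h
  obtain ⟨ψ, hψ, hd⟩ := h ε hε
  refine ⟨ψ, hψ, fun x => ?_⟩
  rw [dist_eq_norm] at hd
  exact ((φ - ψ).norm_coe_le_norm x).trans hd.le

/-- unit vector -/
theorem unit_eq {z : ℂ} (hz : z ≠ 1) : (z - 1) / (‖z - 1‖ : ℂ) = Complex.exp (Complex.arg (z - 1) * Complex.I) := by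
  have h1 : (‖z - 1‖ : ℂ) ≠ 0 := by
    have : ‖z - 1‖ ≠ 0 := norm_ne_zero_iff.2 (sub_ne_zero.2 hz)
    exact_mod_cast this
  rw [div_eq_iff h1, mul_comm]
  exact (Complex.norm_mul_exp_arg_mul_I (z - 1)).symm

theorem log_small (K : ℝ) (hK : 0 ≤ K) : ∃ N : ℕ, ∀ n : ℕ, N ≤ n → K * Real.log n ≤ n := by
  have h := Real.isLittleO_log_id_atTop.def (show (0:ℝ) < 1 / (K + 1) by positivity)
  have h2 := (tendsto_natCast_atTop_atTop (R := ℝ)).eventually h
  obtain ⟨N, hN⟩ := Filter.eventually_atTop.1 h2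
  refine ⟨max N 1, fun n hn => ?_⟩
  have h3 := hN n (le_trans (le_max_left _ _) hn)
  have hn1 : (1 : ℝ) ≤ n := by exact_mod_cast le_trans (le_max_right _ _) hn
  simp only [id, Real.norm_eq_abs] at h3
  rw [abs_of_nonneg (Real.log_nonneg hn1), abs_of_nonneg (by linarith : (0:ℝ) ≤ n)] at h3
  have h4 : (K + 1) * Real.log n ≤ n := by
    have := mul_le_mul_of_nonneg_left h3 (show 0 ≤ K + 1 by linarith)
    have e : (K + 1) * (1 / (K + 1) * (n : ℝ)) = n := by field_simp
    linarith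
  have := Real.log_nonneg hn1
  linarith

/-- the degree grows quadratically -/
theorem deg_ge (hF : S_ffact) {n : ℕ} (hn : 4 ≤ n) {F : ℤ[X]} (h : IsFlowPoly n F) :
    (n : ℝ) ^ 2 / 8 ≤ F.natDegree := by
  have h1 := (hF n F (by omega) h).1
  have h2 : ((n.choose 2 : ℕ) : ℝ) = n * (n - 1) / 2 := Nat.cast_choose_two ℝ n
  have h3 : (F.natDegree : ℝ) + n = n * (n - 1) / 2 + 1 := by
    rw [← h2]
    exact_mod_cast h1
  have h4 : (4 : ℝ) ≤ n := by exact_mod_cast hn
  nlinarith

theorem bad_small (hA : S_ann) (hF : S_ffact) (K : ℝ) (hK : 0 ≤ K) (δ : ℝ) (hδ : 0 < δ) (hδ1 : δ ≤ 1)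
    (ε : ℝ) (hε : 0 < ε) : ∃ N : ℕ, ∀ n : ℕ, N ≤ n → ∀ F : ℤ[X], IsFlowPoly n F →
      K * ((F.map (Int.castRingHom ℂ)).roots.countP (fun z => δ ≤ |‖z - 1‖ - 1|) : ℝ) ≤
        ε * F.natDegree := by
  obtain ⟨C, hC, hA⟩ := hA
  obtain ⟨N, hN⟩ := log_small (8 * K * C / (δ * ε)) (by positivity)
  refine ⟨max N 4, fun n hn F h => ?_⟩
  have hn4 : 4 ≤ n := le_trans (le_max_right _ _) hn
  have hn4' : (4 : ℝ) ≤ n := by exact_mod_cast hn4
  have h1 := hA n F (by omega) h δ hδ hδ1
  have h2 := hN n (le_trans (le_max_left _ _) hn)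
  have h3 := deg_ge hF hn4 h
  calc K * ((F.map (Int.castRingHom ℂ)).roots.countP (fun z => δ ≤ |‖z - 1‖ - 1|) : ℝ)
      ≤ K * (C * n * Real.log n / δ) := mul_le_mul_of_nonneg_left h1 hK
    _ = ε * (n * (8 * K * C / (δ * ε) * Real.log n) / 8) := by field_simp
    _ ≤ ε * ((n : ℝ) * n / 8) := by
        apply mul_le_mul_of_nonneg_left _ hε.le
        have := mul_le_mul_of_nonneg_left h2 (show (0:ℝ) ≤ n by linarith)
        linarith
    _ ≤ ε * F.natDegree := by
        apply mul_le_mul_of_nonneg_left _ hε.le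
        rw [← pow_two]
        exact h3

theorem card_roots (F : ℤ[X]) : (F.map (Int.castRingHom ℂ)).roots.card = F.natDegree := by
  rw [← natDegree_map_eq_of_injective (RingHom.injective_int (Int.castRingHom ℂ)) F]
  exact (splits_iff_card_roots.1 (IsAlgClosed.splits _))

/-- the property -/
def PP (φ : C(AddCircle (2 * Real.pi), ℂ)) : Prop := ∀ ε : ℝ, 0 < ε → ∃ N : ℕ, ∀ n : ℕ, N ≤ n →
  ∀ F : ℤ[X], IsFlowPoly n F →
    ‖((F.map (Int.castRingHom ℂ)).roots.map (fun z => φ (th z))).sum - (F.natDegree : ℂ) * Lm φ‖ ≤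
      ε * F.natDegree

theorem pp_pos (hW : S_fweyl) (hA : S_ann) (hF : S_ffact) (j : ℕ) (hj : 1 ≤ j) : PP (fourier (j : ℤ)) := by
  intro ε hε
  obtain ⟨N1, h1⟩ := hW j hj (ε / 2) (by linarith)
  obtain ⟨N2, h2⟩ := bad_small hA hF 1 (by norm_num) 1 (by norm_num) le_rfl (ε / 2) (by linarith)
  refine ⟨max N1 N2, fun n hn F h => ?_⟩
  have h1 := h1 n (le_trans (le_max_left _ _) hn) F h
  have h2 := h2 n (le_trans (le_max_right _ _) hn) F h
  rw [Lm_fourier (by exact_mod_cast (by omega : j ≠ 0)), mul_zero, sub_zero]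
  have h3 := msum (F.map (Int.castRingHom ℂ)).roots (fun z => fourier (j : ℤ) (th z))
    (fun z => ((z - 1) / (‖z - 1‖ : ℂ)) ^ j) (fun z => 1 ≤ |‖z - 1‖ - 1|) 0 1 (by
      intro z
      by_cases hz : z = 1
      · subst hz
        have e1 : (1:ℝ) ≤ |‖(1:ℂ) - 1‖ - 1| := by simp
        rw [if_pos e1]
        have e2 : fourier (j : ℤ) (th 1) = 1 := by
          unfold th
          rw [fou]
          simp
        rw [e2, sub_self, zero_div, zero_pow (by omega)]
        simp
      · have e2 : fourier (j : ℤ) (th z) = ((z - 1) / (‖z - 1‖ : ℂ)) ^ j := by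
          unfold th
          rw [fou, unit_eq hz, ← Complex.exp_nat_mul]
          congr 1
          push_cast
          ring
        rw [e2, sub_self, norm_zero]
        split_ifs <;> norm_num)
  have h4 := norm_sub_norm_le ((F.map (Int.castRingHom ℂ)).roots.map (fun z => fourier (j : ℤ) (th z))).sum
    ((F.map (Int.castRingHom ℂ)).roots.map (fun z => ((z - 1) / (‖z - 1‖ : ℂ)) ^ j)).sum
  linarith

theorem pp_neg {k : ℤ} (hk : k ≠ 0) (h : PP (fourier k)) : PP (fourier (-k)) := by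
  intro ε hε
  obtain ⟨N, h1⟩ := h ε hε
  refine ⟨N, fun n hn F h => ?_⟩
  have h2 := h1 n hn F h
  rw [Lm_fourier hk, mul_zero, sub_zero] at h2
  rw [Lm_fourier (neg_ne_zero.2 hk), mul_zero, sub_zero]
  have e : ((F.map (Int.castRingHom ℂ)).roots.map (fun z => fourier (-k) (th z))).sum =
      (starRingEnd ℂ) ((F.map (Int.castRingHom ℂ)).roots.map (fun z => fourier k (th z))).sum := by
    rw [map_multiset_sum, Multiset.map_map]
    congr 1
    apply Multiset.map_congr rfl
    intro z _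
    rw [Function.comp_apply]
    exact fourier_neg
  rw [e, RCLike.norm_conj]
  exact h2

theorem pp_fourier (hW : S_fweyl) (hA : S_ann) (hF : S_ffact) (k : ℤ) : PP (fourier k) := by
  rcases lt_trichotomy k 0 with hk | hk | hk
  · obtain ⟨j, hj⟩ := Int.eq_ofNat_of_zero_le (show 0 ≤ -k by omega)
    have h1 := pp_pos hW hA hF j (by omega)
    have h2 := pp_neg (by omega : (j : ℤ) ≠ 0) h1
    have e : k = -(j : ℤ) := by omega
    rw [e]
    exact h2
  · subst hk
    intro ε hε
    refine ⟨0, fun n _ F _ => ?_⟩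
    have e : ∀ z, fourier 0 (th z) = 1 := fun z => fourier_zero
    simp only [e]
    rw [Lm_fourier_zero, Multiset.map_const', Multiset.sum_replicate, card_roots]
    simp
    positivity
  · obtain ⟨j, hj⟩ := Int.eq_ofNat_of_zero_le hk.le
    rw [hj]
    exact pp_pos hW hA hF j (by omega)

theorem pp_add {φ ψ : C(AddCircle (2 * Real.pi), ℂ)} (h1 : PP φ) (h2 : PP ψ) : PP (φ + ψ) := by
  intro ε hε
  obtain ⟨N1, h1⟩ := h1 (ε / 2) (by linarith)
  obtain ⟨N2, h2⟩ := h2 (ε / 2) (by linarith)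
  refine ⟨max N1 N2, fun n hn F h => ?_⟩
  have h1 := h1 n (le_trans (le_max_left _ _) hn) F h
  have h2 := h2 n (le_trans (le_max_right _ _) hn) F h
  simp only [ContinuousMap.add_apply, Multiset.sum_map_add, Lm_add]
  have e : ∀ a b c d x : ℂ, a + b - x * (c + d) = (a - x * c) + (b - x * d) := by intros; ring
  rw [e]
  exact (norm_add_le _ _).trans (by linarith)

theorem pp_smul (a : ℂ) {φ : C(AddCircle (2 * Real.pi), ℂ)} (h1 : PP φ) : PP (a • φ) := by
  intro ε hε
  obtain ⟨N1, h1⟩ := h1 (ε / (‖a‖ + 1)) (by positivity)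
  refine ⟨N1, fun n hn F h => ?_⟩
  have h1 := h1 n hn F h
  simp only [ContinuousMap.smul_apply, smul_eq_mul, Multiset.sum_map_mul_left, Lm_smul]
  have e : ∀ b c x : ℂ, a * b - x * (a * c) = a * (b - x * c) := by intros; ring
  rw [e, norm_mul]
  calc ‖a‖ * _ ≤ ‖a‖ * (ε / (‖a‖ + 1) * F.natDegree) := mul_le_mul_of_nonneg_left h1 (norm_nonneg a)
    _ = (‖a‖ / (‖a‖ + 1)) * (ε * F.natDegree) := by ring
    _ ≤ 1 * (ε * F.natDegree) := by
        apply mul_le_mul_of_nonneg_right _ (by positivity)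
        rw [div_le_one (by positivity)]
        linarith
    _ = ε * F.natDegree := one_mul _

theorem pp_zero : PP 0 := by
  intro ε hε
  refine ⟨0, fun n _ F _ => ?_⟩
  rw [Lm_zero]
  simp
  positivity

theorem pp_span (hW : S_fweyl) (hA : S_ann) (hF : S_ffact) (ψ : C(AddCircle (2 * Real.pi), ℂ))
    (hψ : ψ ∈ Submodule.span ℂ (Set.range (fourier (T := 2 * Real.pi)))) : PP ψ := by
  induction hψ using Submodule.span_induction with
  | mem x hx =>
    obtain ⟨k, rfl⟩ := hx
    exact pp_fourier hW hA hF k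
  | zero => exact pp_zero
  | add x y _ _ hx hy => exact pp_add hx hy
  | smul a x _ hx => exact pp_smul a hx

theorem pp_all (hW : S_fweyl) (hA : S_ann) (hF : S_ffact) (φ : C(AddCircle (2 * Real.pi), ℂ)) : PP φ := by
  intro ε hε
  obtain ⟨ψ, hψ, hd⟩ := dense φ (show 0 < ε / 3 by linarith)
  have hP : PP ψ := pp_span hW hA hF ψ hψ
  obtain ⟨N, hN⟩ := hP (ε / 3) (by linarith)
  refine ⟨N, fun n hn F h => ?_⟩
  have h1 := hN n hn F h
  have h2 := msum (F.map (Int.castRingHom ℂ)).roots (fun z => φ (th z)) (fun z => ψ (th z))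
    (fun _ => False) (ε / 3) 0 (by
      intro z
      rw [if_neg not_false, add_zero]
      exact hd _)
  rw [card_roots, zero_mul, add_zero] at h2
  have h3 := Lm_sub_le φ ψ hd
  have e : ∀ a b c d x : ℂ, a - x * c = (a - b) + (b - x * d) + -(x * (c - d)) := by intros; ring
  rw [e _ ((F.map (Int.castRingHom ℂ)).roots.map (fun z => ψ (th z))).sum _ (Lm ψ)]
  have h4 : ‖-((F.natDegree : ℂ) * (Lm φ - Lm ψ))‖ ≤ ε / 3 * F.natDegree := by
    rw [norm_neg, norm_mul, Complex.norm_natCast, mul_comm]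
    exact mul_le_mul_of_nonneg_right h3 (Nat.cast_nonneg _)
  refine (norm_add₃_le).trans ?_
  linarith

theorem t_eqd (hW : S_fweyl) (hA : S_ann) (hF : S_ffact) : S_eqd := by
  intro f hf ⟨B, hB⟩ ε hε
  have hB0 : 0 ≤ B := (abs_nonneg _).trans (hB 0)
  obtain ⟨φ, hφ⟩ : ∃ φ : C(AddCircle (2 * Real.pi), ℂ),
      ∀ x, φ x = ((f (1 + fourier 1 x) : ℝ) : ℂ) :=
    ⟨⟨fun x => ((f (1 + fourier 1 x) : ℝ) : ℂ),
      Complex.continuous_ofReal.comp (hf.comp (continuous_const.add (fourier 1).continuous))⟩,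
      fun _ => rfl⟩
  have huc := (isCompact_closedBall (0:ℂ) 4).uniformContinuousOn_of_continuous hf.continuousOn
  rw [Metric.uniformContinuousOn_iff] at huc
  obtain ⟨δ0, hδ0, huc⟩ := huc (ε / 4) (by linarith)
  obtain ⟨δ, hδ, hδ1, hδδ⟩ : ∃ δ : ℝ, 0 < δ ∧ δ ≤ 1 ∧ δ ≤ δ0 :=
    ⟨min 1 δ0, lt_min one_pos hδ0, min_le_left _ _, min_le_right _ _⟩
  obtain ⟨N1, h1⟩ := pp_all hW hA hF φ (ε / 4) (by linarith)
  obtain ⟨N2, h2⟩ := bad_small hA hF (2 * B) (by positivity) δ hδ hδ1 (ε / 4) (by linarith)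
  refine ⟨max (max N1 N2) 4, fun n hn F h => ?_⟩
  have h1 := h1 n (le_trans (le_trans (le_max_left _ _) (le_max_left _ _)) hn) F h
  have h2 := h2 n (le_trans (le_trans (le_max_right _ _) (le_max_left _ _)) hn) F h
  have hn4 : 4 ≤ n := le_trans (le_max_right _ _) hn
  have hn4' : (4:ℝ) ≤ n := by exact_mod_cast hn4
  have hdeg : (0:ℝ) < F.natDegree := lt_of_lt_of_le (by positivity) (deg_ge hF hn4 h)
  have hL : Lm φ = ((Real.circleAverage f 1 1 : ℝ) : ℂ) := by
    unfold Lm Real.circleAverage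
    rw [smul_eq_mul, Complex.ofReal_mul, ← intervalIntegral.integral_ofReal]
    congr 1
    · push_cast
      ring
    · apply intervalIntegral.integral_congr
      intro t _
      simp only [hφ]
      congr 2
      rw [fou, circleMap]
      push_cast
      ring_nf
  have h3 := msum (F.map (Int.castRingHom ℂ)).roots (fun z => ((f z : ℝ) : ℂ)) (fun z => φ (th z))
    (fun z => δ ≤ |‖z - 1‖ - 1|) (ε / 4) (2 * B) (by
      intro z
      rw [hφ, ← Complex.ofReal_sub, Complex.norm_real, Real.norm_eq_abs]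
      by_cases hz : δ ≤ |‖z - 1‖ - 1|
      · rw [if_pos hz]
        have a1 := abs_sub (f z) (f (1 + fourier 1 (th z)))
        have a2 := hB z
        have a3 := hB (1 + fourier 1 (th z))
        linarith
      · rw [if_neg hz, add_zero]
        push Not at hz
        have hz1 : z ≠ 1 := by
          rintro rfl
          simp at hz
          linarith
        have e1 : fourier 1 (th z) = (z - 1) / (‖z - 1‖ : ℂ) := by
          unfold th
          rw [fou, unit_eq hz1]
          congr 1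
          push_cast
          ring
        have hnn : ‖z - 1‖ ≠ 0 := norm_ne_zero_iff.2 (sub_ne_zero.2 hz1)
        have hnc : (‖z - 1‖ : ℂ) ≠ 0 := by exact_mod_cast hnn
        have e2 : ‖(z - 1) / (‖z - 1‖ : ℂ)‖ = 1 := by
          rw [norm_div, Complex.norm_real, norm_norm, div_self hnn]
        have e3 : z - (1 + (z - 1) / (‖z - 1‖ : ℂ)) =
            ((‖z - 1‖ - 1 : ℝ) : ℂ) * ((z - 1) / (‖z - 1‖ : ℂ)) := by
          push_cast
          field_simp
          ring
        have e4 : ‖z - (1 + (z - 1) / (‖z - 1‖ : ℂ))‖ < δ := by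
          rw [e3, norm_mul, e2, mul_one, Complex.norm_real, Real.norm_eq_abs]
          exact hz
        rw [e1]
        have hz3 : ‖z - 1‖ < 2 := by
          have := (abs_lt.1 hz).2
          linarith
        have b1 : z ∈ Metric.closedBall (0:ℂ) 4 := by
          rw [mem_closedBall_zero_iff]
          have : ‖z‖ ≤ ‖z - 1‖ + ‖(1:ℂ)‖ := by
            have := norm_add_le (z - 1) 1
            rwa [sub_add_cancel] at this
          rw [norm_one] at this
          linarith
        have b2 : 1 + (z - 1) / (‖z - 1‖ : ℂ) ∈ Metric.closedBall (0:ℂ) 4 := by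
          rw [mem_closedBall_zero_iff]
          have := norm_add_le (1:ℂ) ((z - 1) / (‖z - 1‖ : ℂ))
          rw [e2, norm_one] at this
          linarith
        have b3 := huc z b1 _ b2 (by rw [dist_eq_norm]; linarith)
        rw [Real.dist_eq] at b3
        exact b3.le)
  rw [card_roots] at h3
  have hsum : ((((F.map (Int.castRingHom ℂ)).roots.map f).sum : ℝ) : ℂ) =
      ((F.map (Int.castRingHom ℂ)).roots.map (fun z => ((f z : ℝ) : ℂ))).sum := by
    have := map_multiset_sum Complex.ofRealHom ((F.map (Int.castRingHom ℂ)).roots.map f)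
    rw [Multiset.map_map] at this
    exact this
  have h4 : |((F.map (Int.castRingHom ℂ)).roots.map f).sum -
      F.natDegree * Real.circleAverage f 1 1| ≤ 3 * ε / 4 * F.natDegree := by
    rw [← Real.norm_eq_abs, ← Complex.norm_real]
    push_cast
    rw [hsum, ← hL]
    have e : ∀ a b c : ℂ, a - c = (a - b) + (b - c) := by intros; ring
    rw [e _ ((F.map (Int.castRingHom ℂ)).roots.map (fun z => φ (th z))).sum]
    refine (norm_add_le _ _).trans ?_
    linarith
  have e5 : ((F.map (Int.castRingHom ℂ)).roots.map f).sum / (F.natDegree : ℝ) -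
      Real.circleAverage f 1 1 = (((F.map (Int.castRingHom ℂ)).roots.map f).sum -
        F.natDegree * Real.circleAverage f 1 1) / F.natDegree := by
    field_simp
  rw [e5, abs_div, abs_of_pos hdeg, div_lt_iff₀ hdeg]
  nlinarith

end Pool.Agent.H19.FK.Eqd
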