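import Mathlib
import Pool.Agent.H19.FK.Stm2

set_option autoImplicit false

open Polynomial

namespace Pool.Agent.H19.FK.Fweyl

open Pool.Agent.H19.FK

/-- nonzero integers have norm at least one -/
theorem norm_int {z : ℤ} (h : z ≠ 0) : 1 ≤ ‖((z : ℤ) : ℂ)‖ := by
  rw [Complex.norm_intCast]
  exact_mod_cast Int.one_le_abs h

theorem map_eq {F H : ℤ[X]} (h : F = (X - 1) * H) :
    F.map (Int.castRingHom ℂ) = (X - C 1) * H.map (Int.castRingHom ℂ) := by
  rw [h, Polynomial.map_mul, Polynomial.map_sub, Polynomial.map_X, Polynomial.map_one, C_1]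

/-- the bound for the quotient on the unit disc -/
theorem bound {F H : ℤ[X]} (h : F = (X - 1) * H) {M : ℝ}
    (hM : ∀ q : ℂ, ‖q - 1‖ = 1 → ‖aeval q F‖ ≤ M) (y : ℂ) (hy : ‖y‖ ≤ 1) :
    ‖((H.map (Int.castRingHom ℂ)).comp (C 1 * X + C 1)).eval y‖ ≤ M := by
  set P := (H.map (Int.castRingHom ℂ)).comp (C 1 * X + C 1) with hP
  have hev : ∀ w : ℂ, aeval (w + 1) F = w * P.eval w := by
    intro w
    rw [← Polynomial.eval_map_algebraMap]
    have h2 : F.map (algebraMap ℤ ℂ) = (X - C 1) * H.map (Int.castRingHom ℂ) := map_eq h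
    rw [h2, hP, eval_mul, eval_comp]
    simp
  have hfr : ∀ w ∈ frontier (Metric.ball (0 : ℂ) 1), ‖P.eval w‖ ≤ M := by
    intro w hw
    rw [frontier_ball (0 : ℂ) one_ne_zero, mem_sphere_zero_iff_norm] at hw
    have h3 := hM (w + 1) (by rw [add_sub_cancel_right, hw])
    rw [hev, norm_mul, hw, one_mul] at h3
    exact h3
  refine Complex.norm_le_of_forall_mem_frontier_norm_le (U := Metric.ball (0 : ℂ) 1)
    Metric.isBounded_ball (f := fun w => P.eval w) ?_ hfr ?_
  · exact (Polynomial.differentiable P).diffContOnCl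
  · rw [closure_ball (0 : ℂ) one_ne_zero, mem_closedBall_zero_iff]
    exact hy

theorem sum_eq {F H : ℤ[X]} (h : F = (X - 1) * H) (h1 : H.eval 1 ≠ 0) {k : ℕ} (hk : 1 ≤ k) :
    ((F.map (Int.castRingHom ℂ)).roots.map (fun z => ((z - 1) / (‖z - 1‖ : ℂ)) ^ k)).sum =
    (((H.map (Int.castRingHom ℂ)).comp (C 1 * X + C 1)).roots.map
      (fun z => (z / (‖z‖ : ℂ)) ^ k)).sum := by
  have hH : H ≠ 0 := by
    rintro rfl
    exact h1 (by simp)
  have hHC : H.map (Int.castRingHom ℂ) ≠ 0 :=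
    (Polynomial.map_ne_zero_iff (RingHom.injective_int _)).2 hH
  rw [map_eq h, roots_mul (mul_ne_zero (X_sub_C_ne_zero 1) hHC), roots_X_sub_C,
    Multiset.map_add, Multiset.sum_add, roots_comp_C_mul_X_add_C _ _ _ isUnit_one,
    Multiset.map_map]
  have h0 : (({1} : Multiset ℂ).map (fun z => ((z - 1) / (‖z - 1‖ : ℂ)) ^ k)).sum = 0 := by
    simp
    omega
  rw [h0, zero_add]
  congr 1
  refine Multiset.map_congr rfl fun z _ => ?_
  simp

theorem t_fweyl (hW : S_weyl) (hF : S_ffact) (hB : S_fbd) : S_fweyl := by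
  intro k hk ε hε
  obtain ⟨C', hC', hW'⟩ := hW k hk (ε / 2) (half_pos hε)
  obtain ⟨B, hB0, hB'⟩ := hB
  have hlog : ∀ᶠ n : ℕ in Filter.atTop, C' * (B * Real.log n) ≤ ε / 8 * n := by
    have h := (Real.isLittleO_log_id_atTop.comp_tendsto tendsto_natCast_atTop_atTop).bound
      (show 0 < ε / (8 * (C' * B)) by positivity)
    filter_upwards [h] with n hn
    simp only [Function.comp_apply, id_eq, Real.norm_eq_abs] at hn
    have h2 : Real.log n ≤ ε / (8 * (C' * B)) * n := by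
      refine (le_abs_self _).trans (hn.trans ?_)
      rw [abs_of_nonneg (Nat.cast_nonneg n)]
    calc C' * (B * Real.log n) ≤ C' * (B * (ε / (8 * (C' * B)) * n)) := by gcongr
      _ = ε / 8 * n := by field_simp
  obtain ⟨N, hN⟩ := Filter.eventually_atTop.1 hlog
  refine ⟨max N 6, fun n hn F hFl => ?_⟩
  have hn6 : 6 ≤ n := le_trans (le_max_right _ _) hn
  have hnN : N ≤ n := le_trans (le_max_left _ _) hn
  obtain ⟨hdeg, H, hH, h1⟩ := hF n F (by omega) hFl
  rw [sum_eq hH h1 hk]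
  have hHne : H ≠ 0 := by
    rintro rfl
    exact h1 (by simp)
  have hd1 : (C (1 : ℂ) * X + C 1).natDegree = 1 := natDegree_linear one_ne_zero
  have hinj : Function.Injective (Int.castRingHom ℂ) := RingHom.injective_int _
  have hlc : 1 ≤ ‖((H.map (Int.castRingHom ℂ)).comp (C 1 * X + C 1)).leadingCoeff‖ := by
    rw [leadingCoeff_comp (by rw [hd1]; exact one_ne_zero), leadingCoeff_linear one_ne_zero,
      one_pow, mul_one, leadingCoeff_map_of_injective hinj]
    exact norm_int (leadingCoeff_ne_zero.2 hHne)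
  have h0 : 1 ≤ ‖((H.map (Int.castRingHom ℂ)).comp (C 1 * X + C 1)).eval 0‖ := by
    rw [eval_comp]
    have : (C (1 : ℂ) * X + C 1).eval 0 = ((1 : ℤ) : ℂ) := by simp
    rw [this, eval_intCast_map]
    exact norm_int h1
  have hM : ∀ q : ℂ, ‖q - 1‖ = 1 → ‖aeval q F‖ ≤ Real.exp (B * n * Real.log n) := by
    intro q hq
    refine hB' n F (by omega) hFl q ?_
    rw [hq]
    have : (0 : ℝ) ≤ 1 / (n : ℝ) := by positivity
    linarith
  have hlog0 : 0 ≤ Real.log n := Real.log_natCast_nonneg n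
  have key := hW' _ (Real.exp (B * n * Real.log n)) (Real.one_le_exp (by positivity)) hlc h0
    (bound hH hM)
  rw [Real.log_exp] at key
  have hdP : ((H.map (Int.castRingHom ℂ)).comp (C 1 * X + C 1)).natDegree ≤ F.natDegree := by
    rw [natDegree_comp, hd1, mul_one, natDegree_map_eq_of_injective hinj, hH,
      show (X - 1 : ℤ[X]) = X - C 1 by rw [C_1], natDegree_mul (X_sub_C_ne_zero 1) hHne]
    omega
  have hdP' : ((((H.map (Int.castRingHom ℂ)).comp (C 1 * X + C 1)).natDegree : ℕ) : ℝ) ≤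
      F.natDegree := by exact_mod_cast hdP
  have hdR : (F.natDegree : ℝ) + n = (n : ℝ) * (n - 1) / 2 + 1 := by
    rw [← Nat.cast_choose_two ℝ n]
    exact_mod_cast hdeg
  have hn6' : (6 : ℝ) ≤ n := by exact_mod_cast hn6
  have hlow : (n : ℝ) * n / 4 ≤ F.natDegree := by nlinarith
  have h3 := hN n hnN
  have h4 : C' * (B * n * Real.log n) ≤ ε / 2 * F.natDegree := by
    calc C' * (B * n * Real.log n) = n * (C' * (B * Real.log n)) := by ring
      _ ≤ n * (ε / 8 * n) := by gcongr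
      _ = ε / 2 * ((n : ℝ) * n / 4) := by ring
      _ ≤ ε / 2 * F.natDegree := by gcongr
  calc _ ≤ _ := key
    _ ≤ ε / 2 * F.natDegree + ε / 2 * F.natDegree := by gcongr
    _ = ε * F.natDegree := by ring

end Pool.Agent.H19.FK.Fweyl
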