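import Mathlib
import Pool.Agent.H19.FK.Stm2

/-! Project FK: no flow roots outside. -/

set_option autoImplicit false

open Polynomial

namespace Pool.Agent.H19.FK.Out

open Pool.Agent.H19.FK

theorem A_norm (y : ℂ) : ∀ n k : ℕ, ‖aeval y (A n k)‖ ≤ aeval ‖y‖ (A n k) := by
  intro n
  induction n using Nat.strong_induction_on with
  | _ n ih =>
    intro k
    cases n with
    | zero =>
      cases k with
      | zero => rw [A]; simp
      | succ k => rw [A]; simp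
    | succ n =>
      cases k with
      | zero => rw [A]; simp
      | succ k =>
        rw [A, map_sum, map_sum]
        refine (norm_sum_le _ _).trans (Finset.sum_le_sum fun m _ => ?_)
        rw [map_mul, map_mul, map_pow, aeval_X, map_natCast, map_mul, map_mul, map_pow, aeval_X,
          map_natCast, norm_mul, norm_mul, norm_pow, Complex.norm_natCast]
        exact mul_le_mul_of_nonneg_left (ih (n - m) (by omega) k) (by positivity)

theorem desc_norm (q : ℂ) (n : ℕ) : ∀ k : ℕ, k ≤ n →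
    ‖aeval q (descPochhammer ℤ (k + 1))‖ ≤ ‖q‖ * (‖q - 1‖ + n) ^ k := by
  intro k
  induction k with
  | zero =>
    intro _
    rw [descPochhammer_one, aeval_X, pow_zero, mul_one]
  | succ k ih =>
    intro hk
    have h1 := ih (by omega)
    rw [descPochhammer_succ_right, map_mul, norm_mul, pow_succ, ← mul_assoc]
    refine mul_le_mul h1 ?_ (norm_nonneg _) (by positivity)
    rw [map_sub, aeval_X, map_natCast]
    have h2 : q - ((k + 1 : ℕ) : ℂ) = (q - 1) - (k : ℂ) := by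
      push_cast
      ring
    rw [h2]
    refine (norm_sub_le _ _).trans ?_
    rw [Complex.norm_natCast]
    have h3 : (k : ℝ) ≤ n := by exact_mod_cast (show k ≤ n by omega)
    linarith

theorem t_out (hF : S_form) (hA : S_afact) (hL : S_blim) : S_out := by
  intro δ hδ
  obtain ⟨N₀, hN₀⟩ := hL δ hδ
  refine ⟨max N₀ 1, fun n hn F hFF q hq h0 => ?_⟩
  have hn0 : N₀ ≤ n := (le_max_left _ _).trans hn
  have hn1 : 1 ≤ n := (le_max_right _ _).trans hn
  obtain ⟨-, -, hA1, hA0, -, -⟩ := hA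
  obtain ⟨ρ, hρ⟩ : ∃ ρ : ℝ, ρ = ‖q - 1‖ := ⟨_, rfl⟩
  have hy : ‖1 - q‖ = ρ := by rw [hρ, norm_sub_rev]
  have hρ1 : 1 + δ ≤ ρ := by rw [hρ]; exact hq
  have hρ0 : 0 < ρ := by linarith
  have hq0 : 0 < ‖q‖ := by
    have h1 : ρ ≤ ‖q‖ + 1 := by
      rw [hρ]
      refine (norm_sub_le _ _).trans ?_
      simp
    linarith
  obtain ⟨T, hT⟩ : ∃ T : ℕ → ℂ, ∀ k, T k =
      aeval q (descPochhammer ℤ k) * aeval (1 - q) (A n k) := ⟨_, fun _ => rfl⟩
  have hsum : ∑ k ∈ Finset.range (n + 1), T k = 0 := by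
    have h1 := congrArg (aeval q) (hF n F hFF)
    rw [map_mul, h0, mul_zero, map_mul, map_pow, map_neg, map_one, map_sum] at h1
    have h2 : ((-1 : ℂ)) ^ (n.choose 2) ≠ 0 := pow_ne_zero _ (by norm_num)
    have h3 := (mul_eq_zero.1 h1.symm).resolve_left h2
    rw [← h3]
    refine Finset.sum_congr rfl fun k _ => ?_
    rw [hT, map_mul, aeval_comp, map_sub, map_one, aeval_X]
  have hT0 : T 0 = 0 := by
    rw [hT]
    obtain ⟨m, rfl⟩ : ∃ m, n = m + 1 := ⟨n - 1, by omega⟩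
    rw [hA0, map_zero, mul_zero]
  have hT1 : ‖T 1‖ = ‖q‖ * ρ ^ (n.choose 2) := by
    rw [hT, descPochhammer_one, aeval_X, hA1 n hn1, map_pow, aeval_X, norm_mul, norm_pow, hy]
  rw [Finset.range_eq_Ico, Finset.sum_eq_sum_Ico_succ_bot (by omega), hT0, zero_add,
    Finset.sum_eq_sum_Ico_succ_bot (by omega)] at hsum
  have hTk : ∀ k ∈ Finset.Ico (0 + 1 + 1) (n + 1),
      ‖T k‖ ≤ ‖q‖ * (aeval ρ (A n k) * (ρ + n) ^ (k - 1)) := by
    intro k hk
    rw [Finset.mem_Ico] at hk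
    obtain ⟨j, rfl⟩ : ∃ j, k = j + 1 := ⟨k - 1, by omega⟩
    rw [hT, norm_mul, Nat.add_sub_cancel]
    have h1 := desc_norm q n j (by omega)
    have h2 := A_norm (1 - q) n (j + 1)
    rw [hy] at h2
    rw [← hρ] at h1
    calc ‖aeval q (descPochhammer ℤ (j + 1))‖ * ‖aeval (1 - q) (A n (j + 1))‖
        ≤ (‖q‖ * (ρ + n) ^ j) * aeval ρ (A n (j + 1)) :=
          mul_le_mul h1 h2 (norm_nonneg _) (by positivity)
      _ = ‖q‖ * (aeval ρ (A n (j + 1)) * (ρ + n) ^ j) := by ring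
  have h1 : T (0 + 1) = -∑ k ∈ Finset.Ico (0 + 1 + 1) (n + 1), T k := eq_neg_of_add_eq_zero_left hsum
  have h2 : ‖q‖ * ρ ^ (n.choose 2) ≤
      ‖q‖ * ∑ k ∈ Finset.Ico (0 + 1 + 1) (n + 1), aeval ρ (A n k) * (ρ + n) ^ (k - 1) := by
    rw [← hT1, Finset.mul_sum]
    have h3 : ‖T 1‖ = ‖∑ k ∈ Finset.Ico (0 + 1 + 1) (n + 1), T k‖ := by
      rw [← norm_neg (∑ k ∈ Finset.Ico (0 + 1 + 1) (n + 1), T k), ← h1]
    rw [h3]
    exact (norm_sum_le _ _).trans (Finset.sum_le_sum hTk)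
  have h3 := le_of_mul_le_mul_left h2 hq0
  have h4 := hN₀ n hn0 ρ hρ1
  have h5 : Finset.Icc 1 n = Finset.Ico (0 + 1) (n + 1) := by
    ext z
    simp only [Finset.mem_Icc, Finset.mem_Ico]
    omega
  rw [h5, Finset.sum_eq_sum_Ico_succ_bot (by omega)] at h4
  have h6 : aeval ρ (A n (0 + 1)) * (ρ + n) ^ (0 + 1 - 1) = ρ ^ (n.choose 2) := by
    rw [zero_add, hA1 n hn1, map_pow, aeval_X]
    simp
  rw [h6] at h4
  linarith

end Pool.Agent.H19.FK.Out
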