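import Mathlib
import Pool.Agent.H19.FK.Stm2

/-! Project FK: Weyl sums of the arguments of the roots (`S_weyl`), proved from `S_jen`. -/

set_option autoImplicit false

open Polynomial

namespace Pool.Agent.H19.FK.Weyl

theorem card_roots (P : ℂ[X]) : P.roots.card = P.natDegree :=
  splits_iff_card_roots.1 (IsAlgClosed.splits P)

theorem eval_prod (P : ℂ[X]) (y : ℂ) :
    P.eval y = P.leadingCoeff * (P.roots.map (fun z => y - z)).prod := by
  conv_lhs => rw [← C_leadingCoeff_mul_prod_multiset_X_sub_C (card_roots P)]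
  rw [eval_mul, eval_C, eval_multiset_prod, Multiset.map_map]
  congr 2
  refine Multiset.map_congr rfl fun z _ => ?_
  simp

theorem log_prod_le (s : ℝ) (z : ℂ) (T : Multiset ℂ) (h : (T.map (fun c => z - c)).prod ≠ 0) :
    Real.log ‖(T.map (fun c => z - c)).prod‖ ≤
      (T.map (fun c => Real.log (max s ‖z - c‖))).sum := by
  induction T using Multiset.induction_on with
  | empty => simp
  | cons a T ih =>
    simp only [Multiset.map_cons, Multiset.prod_cons, Multiset.sum_cons] at h ⊢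
    have h1 := left_ne_zero_of_mul h
    have h2 := right_ne_zero_of_mul h
    rw [norm_mul, Real.log_mul (norm_ne_zero_iff.2 h1) (norm_ne_zero_iff.2 h2)]
    exact add_le_add (Real.log_le_log (norm_pos_iff.2 h1) (le_max_right _ _)) (ih h2)

theorem log_prod_eq (z : ℂ) (T : Multiset ℂ) (h : (T.map (fun c => z - c)).prod ≠ 0) :
    Real.log ‖(T.map (fun c => z - c)).prod‖ = (T.map (fun c => Real.log ‖z - c‖)).sum := by
  induction T using Multiset.induction_on with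
  | empty => simp
  | cons a T ih =>
    simp only [Multiset.map_cons, Multiset.prod_cons, Multiset.sum_cons] at h ⊢
    have h1 := left_ne_zero_of_mul h
    have h2 := right_ne_zero_of_mul h
    rw [norm_mul, Real.log_mul (norm_ne_zero_iff.2 h1) (norm_ne_zero_iff.2 h2), ih h2]

theorem log_one_add (x : ℂ) (hx : ‖x‖ ≤ 1 / 2) :
    x.re - 12 * ‖x‖ ^ 2 ≤ Real.log ‖1 + x‖ := by
  obtain ⟨t, ht⟩ : ∃ t, t = ‖x‖ := ⟨_, rfl⟩
  obtain ⟨w, hw⟩ : ∃ w, w = 2 * x.re + t ^ 2 := ⟨_, rfl⟩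
  have ht0 : 0 ≤ t := by rw [ht]; exact norm_nonneg _
  have hre : |x.re| ≤ t := by rw [ht]; exact Complex.abs_re_le_norm x
  rw [← ht] at hx ⊢
  have hsq : ‖1 + x‖ ^ 2 = 1 + w := by
    rw [Complex.sq_norm, Complex.normSq_apply, hw, ht, Complex.sq_norm, Complex.normSq_apply]
    simp only [Complex.add_re, Complex.add_im, Complex.one_re, Complex.one_im]
    ring
  have h1 : 1 / 2 ≤ ‖1 + x‖ := by
    have h2 : ‖(1 : ℂ)‖ ≤ ‖1 + x‖ + ‖x‖ := by
      have h3 : (1 : ℂ) = (1 + x) - x := by ring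
      calc ‖(1 : ℂ)‖ = ‖(1 + x) - x‖ := by rw [← h3]
        _ ≤ _ := norm_sub_le _ _
    rw [norm_one, ← ht] at h2
    linarith
  have hW : 1 / 4 ≤ 1 + w := by
    rw [← hsq]
    nlinarith
  have hW0 : 0 < 1 + w := by linarith
  have hlog : 2 * Real.log ‖1 + x‖ = Real.log (1 + w) := by
    rw [← hsq, Real.log_pow]
    push_cast
    ring
  have h4 : 1 - (1 + w)⁻¹ ≤ Real.log (1 + w) := Real.one_sub_inv_le_log_of_pos hW0
  obtain ⟨v, hv⟩ : ∃ v, v = (1 + w)⁻¹ := ⟨_, rfl⟩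
  rw [← hv] at h4
  have hv1 : v * (1 + w) = 1 := by
    rw [hv]
    exact inv_mul_cancel₀ hW0.ne'
  have hv0 : 0 < v := by rw [hv]; exact inv_pos.2 hW0
  have hv4 : v ≤ 4 := by nlinarith
  have hwabs : |w| ≤ 5 / 2 * t := by
    rw [hw]
    have h5 : |2 * x.re + t ^ 2| ≤ |2 * x.re| + |t ^ 2| := abs_add_le _ _
    rw [abs_mul, abs_of_nonneg (by norm_num : (0 : ℝ) ≤ 2), abs_of_nonneg (sq_nonneg t)] at h5
    nlinarith
  have hw2 : w ^ 2 ≤ 25 / 4 * t ^ 2 := by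
    have h6 : w ^ 2 = |w| ^ 2 := (sq_abs w).symm
    rw [h6]
    have h7 := pow_le_pow_left₀ (abs_nonneg w) hwabs 2
    nlinarith
  have h8 : 1 - v = w - w ^ 2 * v := by
    have h9 : 1 - v = w * v := by linarith
    have h10 : v = 1 - w * v := by linarith
    calc 1 - v = w * v := h9
      _ = w * (1 - w * v) := by rw [← h10]
      _ = w - w ^ 2 * v := by ring
  have h11 : w ^ 2 * v ≤ w ^ 2 * 4 := mul_le_mul_of_nonneg_left hv4 (sq_nonneg w)
  nlinarith

theorem near (k : ℕ) (η κ : ℝ) (hη : 0 < η) (hη2 : η ≤ 1 / 2) (hκ : 0 ≤ κ) (hκ8 : κ ≤ 1 / 8)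
    (b z u : ℂ) (hb : ‖b‖ = 1) (hu : ‖u‖ = 1) (hz : ‖z ^ k - u ^ k‖ ≤ κ) :
    z ^ k + η * b ≠ 0 ∧
      η * (b * (starRingEnd ℂ u) ^ k).re - 12 * η ^ 2 - 4 * κ ≤ Real.log ‖z ^ k + η * b‖ := by
  have hη' : ‖(η : ℂ)‖ = η := by rw [Complex.norm_real, Real.norm_of_nonneg hη.le]
  have huk : ‖u ^ k‖ = 1 := by rw [norm_pow, hu, one_pow]
  have hcu : u * starRingEnd ℂ u = 1 := by
    rw [Complex.mul_conj, Complex.normSq_eq_norm_sq, hu]
    norm_num
  have hcuk : u ^ k * (starRingEnd ℂ u) ^ k = 1 := by rw [← mul_pow, hcu, one_pow]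
  have hnc : ‖(starRingEnd ℂ u) ^ k‖ = 1 := by rw [norm_pow, Complex.norm_conj, hu, one_pow]
  obtain ⟨x, hx⟩ : ∃ x, x = (η : ℂ) * (b * (starRingEnd ℂ u) ^ k) := ⟨_, rfl⟩
  have hxn : ‖x‖ = η := by rw [hx, norm_mul, norm_mul, hη', hb, hnc]; ring
  have hxre : x.re = η * (b * (starRingEnd ℂ u) ^ k).re := by rw [hx, Complex.re_ofReal_mul]
  have hAeq : u ^ k + η * b = u ^ k * (1 + x) := by
    rw [hx, mul_add, mul_one]
    congr 1
    calc (η : ℂ) * b = (η : ℂ) * b * (u ^ k * (starRingEnd ℂ u) ^ k) := by rw [hcuk, mul_one]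
      _ = _ := by ring
  have hA : ‖u ^ k + η * b‖ = ‖1 + x‖ := by rw [hAeq, norm_mul, huk, one_mul]
  have h1 := log_one_add x (by rw [hxn]; exact hη2)
  rw [hxn, hxre, ← hA] at h1
  obtain ⟨A, hAd⟩ : ∃ A, A = ‖u ^ k + η * b‖ := ⟨_, rfl⟩
  rw [← hAd] at h1
  have hA2 : 1 / 2 ≤ A := by
    have h2 : ‖u ^ k‖ ≤ ‖u ^ k + η * b‖ + ‖(η : ℂ) * b‖ := by
      have h3 : u ^ k = (u ^ k + η * b) - η * b := by ring
      calc ‖u ^ k‖ = ‖(u ^ k + η * b) - η * b‖ := by rw [← h3]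
        _ ≤ _ := norm_sub_le _ _
    rw [huk, norm_mul, hη', hb, ← hAd] at h2
    linarith
  have hB : A - κ ≤ ‖z ^ k + η * b‖ := by
    have h2 : ‖u ^ k + η * b‖ ≤ ‖z ^ k + η * b‖ + ‖z ^ k - u ^ k‖ := by
      have h3 : u ^ k + η * b = (z ^ k + η * b) - (z ^ k - u ^ k) := by ring
      calc ‖u ^ k + η * b‖ = ‖(z ^ k + η * b) - (z ^ k - u ^ k)‖ := by rw [← h3]
        _ ≤ _ := norm_sub_le _ _
    rw [← hAd] at h2
    linarith
  have hpos : 0 < A - κ := by linarith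
  refine ⟨norm_pos_iff.1 (hpos.trans_le hB), ?_⟩
  have h4 : Real.log (A - κ) ≤ Real.log ‖z ^ k + η * b‖ := Real.log_le_log hpos hB
  have h5 : Real.log A - 4 * κ ≤ Real.log (A - κ) := by
    have hA0 : 0 < A := by linarith
    have h6 : 1 - ((A - κ) / A)⁻¹ ≤ Real.log ((A - κ) / A) :=
      Real.one_sub_inv_le_log_of_pos (div_pos hpos hA0)
    rw [Real.log_div hpos.ne' hA0.ne', inv_div] at h6
    have h7 : A / (A - κ) ≤ 1 + 4 * κ := by
      rw [div_le_iff₀ hpos]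
      nlinarith
    linarith
  linarith

/-- the sum of `|log |z||` over the roots -/
theorem sum_abs_log (hJ : S_jen) (P : ℂ[X]) (M : ℝ) (hM : 1 ≤ M) (hl : 1 ≤ ‖P.leadingCoeff‖)
    (h0 : 1 ≤ ‖P.eval 0‖) (hP : ∀ y : ℂ, ‖y‖ ≤ 1 → ‖P.eval y‖ ≤ M) :
    (P.roots.map (fun z => |Real.log ‖z‖|)).sum ≤ 2 * Real.log M := by
  have hP0 : P ≠ 0 := by
    rintro rfl
    simp at hl
    linarith
  have h1 := hJ P 0 1 M hP0 one_pos hM (fun y hy => hP y (by rw [sub_zero] at hy; exact hy.le))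
  have hl0 : 0 ≤ Real.log ‖P.leadingCoeff‖ := Real.log_nonneg hl
  have hne : P.eval 0 ≠ 0 := norm_pos_iff.1 (by linarith)
  have hlc : P.leadingCoeff ≠ 0 := leadingCoeff_ne_zero.2 hP0
  have h2 := eval_prod P 0
  have h3 : (P.roots.map (fun z => (0 : ℂ) - z)).prod ≠ 0 := by
    intro h
    rw [h, mul_zero] at h2
    exact hne h2
  have h4 : 0 ≤ Real.log ‖P.eval 0‖ := Real.log_nonneg h0
  rw [h2, norm_mul, Real.log_mul (norm_ne_zero_iff.2 hlc) (norm_ne_zero_iff.2 h3),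
    log_prod_eq _ _ h3] at h4
  have h5 : (P.roots.map (fun z => |Real.log ‖z‖|)).sum =
      (P.roots.map (fun z => 2 * Real.log (max 1 ‖z - 0‖) + (-1) * Real.log ‖(0 : ℂ) - z‖)).sum := by
    congr 1
    refine Multiset.map_congr rfl fun z _ => ?_
    rw [sub_zero, zero_sub, norm_neg]
    rcases le_total ‖z‖ 1 with h | h
    · rw [max_eq_left h, Real.log_one, abs_of_nonpos (Real.log_nonpos (norm_nonneg _) h)]
      ring
    · rw [max_eq_right h, abs_of_nonneg (Real.log_nonneg h)]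
      ring
  rw [h5, Multiset.sum_map_add, Multiset.sum_map_mul_left, Multiset.sum_map_mul_left]
  linarith

/-- the pointwise inequality, `z ≠ 0` -/
theorem pointwise (k : ℕ) (η κ ε' s : ℝ) (hη : 0 < η) (hη2 : η ≤ 1 / 2) (hκ : 0 ≤ κ)
    (hκ8 : κ ≤ 1 / 8) (hε' : 0 < ε') (hε2 : ε' ≤ 1 / 2)
    (hcont : ∀ r : ℝ, |r - 1| < ε' → |r ^ k - 1| ≤ κ) (hs : 0 < s) (hs1 : s ≤ 1)
    (b z : ℂ) (hb : ‖b‖ = 1) (hz : z ≠ 0) (T : Multiset ℂ) (hT : T.card = k)
    (hTp : (T.map (fun c => z - c)).prod = z ^ k + η * b) :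
    η * (b * (starRingEnd ℂ (z / (‖z‖ : ℂ))) ^ k).re ≤
      (T.map (fun c => Real.log (max s ‖z - c‖))).sum + (12 * η ^ 2 + 4 * κ) +
        ((η + k * Real.log s⁻¹) * (2 / ε')) * |Real.log ‖z‖| := by
  have hr0 : 0 < ‖z‖ := norm_pos_iff.2 hz
  have hrc : (‖z‖ : ℂ) ≠ 0 := by exact_mod_cast hr0.ne'
  obtain ⟨u, hu⟩ : ∃ u, u = z / (‖z‖ : ℂ) := ⟨_, rfl⟩
  have hun : ‖u‖ = 1 := by
    rw [hu, norm_div, Complex.norm_real, norm_norm, div_self hr0.ne']
  have hzu : z = (‖z‖ : ℂ) * u := by rw [hu, mul_div_cancel₀ _ hrc]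
  rw [← hu]
  have hls : 0 ≤ Real.log s⁻¹ := Real.log_nonneg ((one_le_inv₀ hs).2 hs1)
  have hB0 : 0 ≤ η + k * Real.log s⁻¹ := by positivity
  by_cases hnear : |‖z‖ - 1| < ε'
  · have h1 : ‖z ^ k - u ^ k‖ ≤ κ := by
      have h2 : z ^ k - u ^ k = ((‖z‖ ^ k - 1 : ℝ) : ℂ) * u ^ k := by
        conv_lhs => rw [hzu]
        push_cast
        rw [mul_pow]
        ring
      rw [h2, norm_mul, norm_pow, hun, one_pow, mul_one, Complex.norm_real]
      exact hcont _ hnear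
    obtain ⟨h3, h4⟩ := near k η κ hη hη2 hκ hκ8 b z u hb hun h1
    rw [← hTp] at h3 h4
    have h5 := log_prod_le s z T h3
    have h6 : 0 ≤ ((η + k * Real.log s⁻¹) * (2 / ε')) * |Real.log ‖z‖| := by positivity
    linarith
  · rw [not_lt] at hnear
    have h1 : ε' / 2 ≤ |Real.log ‖z‖| := by
      rcases le_total ‖z‖ 1 with h | h
      · rw [abs_of_nonpos (by linarith)] at hnear
        have h2 := Real.log_le_sub_one_of_pos hr0
        rw [abs_of_nonpos (by linarith)]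
        linarith
      · rw [abs_of_nonneg (by linarith)] at hnear
        have h2 : Real.log (1 + ε') ≤ Real.log ‖z‖ := Real.log_le_log (by linarith) (by linarith)
        have h3 : 1 - (1 + ε')⁻¹ ≤ Real.log (1 + ε') :=
          Real.one_sub_inv_le_log_of_pos (by linarith)
        have h4 : (1 + ε')⁻¹ ≤ 1 - ε' / 2 := by
          rw [inv_le_iff_one_le_mul₀ (by linarith)]
          nlinarith
        have h5 := le_abs_self (Real.log ‖z‖)
        linarith
    have h2 : η + k * Real.log s⁻¹ ≤ ((η + k * Real.log s⁻¹) * (2 / ε')) * |Real.log ‖z‖| := by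
      calc η + k * Real.log s⁻¹ = ((η + k * Real.log s⁻¹) * (2 / ε')) * (ε' / 2) := by
            field_simp
        _ ≤ _ := mul_le_mul_of_nonneg_left h1 (by positivity)
    have h3 : -(k * Real.log s⁻¹) ≤ (T.map (fun c => Real.log (max s ‖z - c‖))).sum := by
      have h4 : (T.map (fun _ => Real.log s)).sum ≤
          (T.map (fun c => Real.log (max s ‖z - c‖))).sum :=
        Multiset.sum_map_le_sum_map _ _ fun c _ => Real.log_le_log hs (le_max_left _ _)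
      rw [Multiset.map_const', Multiset.sum_replicate, hT, nsmul_eq_mul] at h4
      rw [Real.log_inv]
      linarith
    have h5 : (b * (starRingEnd ℂ u) ^ k).re ≤ 1 := by
      refine (Complex.re_le_norm _).trans ?_
      rw [norm_mul, hb, norm_pow, Complex.norm_conj, hun, one_pow, one_mul]
    have h6 : η * (b * (starRingEnd ℂ u) ^ k).re ≤ η * 1 := mul_le_mul_of_nonneg_left h5 hη.le
    nlinarith [sq_nonneg η]

/-- the inequality for one unimodular `b` -/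
theorem one_b (hJ : S_jen) (k : ℕ) (hk : 1 ≤ k) (η κ ε' : ℝ) (hη : 0 < η) (hη2 : η ≤ 1 / 2)
    (hκ : 0 ≤ κ) (hκ8 : κ ≤ 1 / 8) (hε' : 0 < ε') (hε2 : ε' ≤ 1 / 2)
    (hcont : ∀ r : ℝ, |r - 1| < ε' → |r ^ k - 1| ≤ κ) (b : ℂ) (hb : ‖b‖ = 1)
    (P : ℂ[X]) (M : ℝ) (hM : 1 ≤ M) (hl : 1 ≤ ‖P.leadingCoeff‖)
    (h0 : 1 ≤ ‖P.eval 0‖) (hP : ∀ y : ℂ, ‖y‖ ≤ 1 → ‖P.eval y‖ ≤ M) :
    η * (P.roots.map (fun z => (b * (starRingEnd ℂ (z / (‖z‖ : ℂ))) ^ k).re)).sum ≤
      P.natDegree * (12 * η ^ 2 + 4 * κ) +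
        (k + 2 * ((η + k * Real.log ((1 / (4 * k) : ℝ))⁻¹) * (2 / ε'))) * Real.log M := by
  have hkR : (1 : ℝ) ≤ k := by exact_mod_cast hk
  obtain ⟨s, hs⟩ : ∃ s : ℝ, s = 1 / (4 * k) := ⟨_, rfl⟩
  rw [← hs]
  have hs0 : 0 < s := by rw [hs]; positivity
  have hs4 : s ≤ 1 / 4 := by
    rw [hs]
    exact one_div_le_one_div_of_le (by norm_num) (by linarith)
  have hbern : 3 / 4 ≤ (1 - s) ^ k := by
    have h1 := one_add_mul_le_pow (show (-2 : ℝ) ≤ -s by linarith) k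
    have h2 : (k : ℝ) * s = 1 / 4 := by
      rw [hs]
      field_simp
    have h3 : 1 + (k : ℝ) * -s = 3 / 4 := by linarith
    rw [h3] at h1
    have h4 : 1 + -s = 1 - s := by ring
    rwa [h4] at h1
  have hP0 : P ≠ 0 := by
    rintro rfl
    simp at hl
    linarith
  have hne : P.eval 0 ≠ 0 := norm_pos_iff.1 (by linarith)
  -- the auxiliary polynomial
  obtain ⟨Q, hQ⟩ : ∃ Q : ℂ[X], Q = X ^ k + C ((η : ℂ) * b) := ⟨_, rfl⟩
  have hQm : Q.Monic := by rw [hQ]; exact monic_X_pow_add_C _ (by omega)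
  have hQd : Q.natDegree = k := by rw [hQ]; exact natDegree_X_pow_add_C
  have hQc : Q.roots.card = k := by rw [card_roots, hQd]
  have hQe : ∀ z : ℂ, (Q.roots.map (fun c => z - c)).prod = z ^ k + η * b := by
    intro z
    have h1 := eval_prod Q z
    rw [hQm.leadingCoeff, one_mul] at h1
    rw [← h1, hQ]
    simp
  have hη' : ‖(η : ℂ)‖ = η := by rw [Complex.norm_real, Real.norm_of_nonneg hη.le]
  have hQr : ∀ c ∈ Q.roots, ‖c‖ ≤ 1 - s := by
    intro c hc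
    have h1 := isRoot_of_mem_roots hc
    rw [IsRoot, hQ, eval_add, eval_pow, eval_X, eval_C] at h1
    have h2 : ‖c‖ ^ k = η := by
      rw [← norm_pow, eq_neg_of_add_eq_zero_left h1, norm_neg, norm_mul, hη', hb, mul_one]
    by_contra hcon
    rw [not_le] at hcon
    have h3 : (1 - s) ^ k ≤ ‖c‖ ^ k := pow_le_pow_left₀ (by linarith) hcon.le k
    linarith
  -- Jensen at the roots of `Q`
  have hG : (P.roots.map (fun z => (Q.roots.map (fun c => Real.log (max s ‖z - c‖))).sum)).sum ≤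
      k * Real.log M := by
    rw [Multiset.sum_map_sum_map]
    have h1 : (Q.roots.map (fun c => (P.roots.map (fun z => Real.log (max s ‖z - c‖))).sum)).sum ≤
        (Q.roots.map (fun _ => Real.log M)).sum := by
      refine Multiset.sum_map_le_sum_map _ _ fun c hc => ?_
      have h2 := hJ P c s M hP0 hs0 hM (fun y hy => hP y (by
        have h3 : y = (y - c) + c := by ring
        have h4 := hQr c hc
        calc ‖y‖ = ‖(y - c) + c‖ := by rw [← h3]
          _ ≤ ‖y - c‖ + ‖c‖ := norm_add_le _ _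
          _ ≤ 1 := by rw [hy]; linarith))
      have h5 : 0 ≤ Real.log ‖P.leadingCoeff‖ := Real.log_nonneg hl
      linarith
    rw [Multiset.map_const', Multiset.sum_replicate, hQc, nsmul_eq_mul] at h1
    exact h1
  have hA := sum_abs_log hJ P M hM hl h0 hP
  obtain ⟨B, hB⟩ : ∃ B : ℝ, B = (η + k * Real.log s⁻¹) * (2 / ε') := ⟨_, rfl⟩
  have hls : 0 ≤ Real.log s⁻¹ := Real.log_nonneg ((one_le_inv₀ hs0).2 (by linarith))
  have hB0 : 0 ≤ B := by rw [hB]; positivity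
  have hsum : (P.roots.map (fun z => η * (b * (starRingEnd ℂ (z / (‖z‖ : ℂ))) ^ k).re)).sum ≤
      (P.roots.map (fun z => (Q.roots.map (fun c => Real.log (max s ‖z - c‖))).sum +
        (12 * η ^ 2 + 4 * κ) + B * |Real.log ‖z‖|)).sum := by
    refine Multiset.sum_map_le_sum_map _ _ fun z hz => ?_
    rw [hB]
    refine pointwise k η κ ε' s hη hη2 hκ hκ8 hε' hε2 hcont hs0 (by linarith) b z hb ?_ Q.roots
      hQc (hQe z)
    rintro rfl
    exact hne (isRoot_of_mem_roots hz)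
  rw [Multiset.sum_map_add, Multiset.sum_map_add, Multiset.sum_map_mul_left,
    Multiset.sum_map_mul_left, Multiset.map_const', Multiset.sum_replicate, card_roots,
    nsmul_eq_mul] at hsum
  rw [← hB]
  nlinarith [mul_le_mul_of_nonneg_left hA hB0]

theorem re_sum (b : ℂ) (T : Multiset ℂ) (f : ℂ → ℂ) :
    (T.map (fun z => (b * (starRingEnd ℂ (f z))).re)).sum =
      (b * starRingEnd ℂ (T.map f).sum).re := by
  induction T using Multiset.induction_on with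
  | empty => simp
  | cons a T ih =>
    simp only [Multiset.map_cons, Multiset.sum_cons]
    rw [ih, map_add, mul_add, Complex.add_re]

end Pool.Agent.H19.FK.Weyl

namespace Pool.Agent.H19.FK

open Weyl in
theorem Weyl.t_weyl (hJ : S_jen) : S_weyl := by
  intro k hk ε hε
  obtain ⟨η, hη⟩ : ∃ η : ℝ, η = min (ε / 24) (1 / 2) := ⟨_, rfl⟩
  have hη0 : 0 < η := by rw [hη]; exact lt_min (by linarith) (by norm_num)
  have hη1 : η ≤ ε / 24 := by rw [hη]; exact min_le_left _ _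
  have hη2 : η ≤ 1 / 2 := by rw [hη]; exact min_le_right _ _
  obtain ⟨κ, hκ⟩ : ∃ κ : ℝ, κ = min (η * ε / 8) (1 / 8) := ⟨_, rfl⟩
  have hκ0 : 0 < κ := by rw [hκ]; exact lt_min (by positivity) (by norm_num)
  have hκ1 : κ ≤ η * ε / 8 := by rw [hκ]; exact min_le_left _ _
  have hκ8 : κ ≤ 1 / 8 := by rw [hκ]; exact min_le_right _ _
  obtain ⟨e, he0, he⟩ := Metric.continuousAt_iff.1
    ((continuous_pow k).continuousAt (x := (1 : ℝ))) κ hκ0
  have hcont : ∀ r : ℝ, |r - 1| < min e (1 / 2) → |r ^ k - 1| ≤ κ := by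
    intro r hr
    have h1 := he (x := r) (by rw [Real.dist_eq]; exact hr.trans_le (min_le_left _ _))
    rw [Real.dist_eq, one_pow] at h1
    exact h1.le
  obtain ⟨B, hB⟩ : ∃ B : ℝ, B = (k + 2 * ((η + k * Real.log ((1 / (4 * k) : ℝ))⁻¹) *
    (2 / min e (1 / 2)))) := ⟨_, rfl⟩
  have hkR : (1 : ℝ) ≤ k := by exact_mod_cast hk
  have hls : 0 ≤ Real.log ((1 / (4 * k) : ℝ))⁻¹ := by
    refine Real.log_nonneg ?_
    rw [one_div, inv_inv]
    linarith
  have he' : 0 < min e (1 / 2) := lt_min he0 (by norm_num)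
  have hB0 : 0 < B := by rw [hB]; positivity
  refine ⟨B / η, by positivity, fun P M hM hl h0 hP => ?_⟩
  obtain ⟨S, hS⟩ : ∃ S, S = (P.roots.map (fun z => (z / (‖z‖ : ℂ)) ^ k)).sum := ⟨_, rfl⟩
  rw [← hS]
  have hlM : 0 ≤ Real.log M := Real.log_nonneg hM
  by_cases hS0 : S = 0
  · rw [hS0, norm_zero]
    positivity
  have hSn : 0 < ‖S‖ := norm_pos_iff.2 hS0
  have hSc : (‖S‖ : ℂ) ≠ 0 := by exact_mod_cast hSn.ne'
  have hb : ‖S / (‖S‖ : ℂ)‖ = 1 := by
    rw [norm_div, Complex.norm_real, norm_norm, div_self hSn.ne']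
  have h1 := one_b hJ k hk η κ (min e (1 / 2)) hη0 hη2 hκ0.le hκ8 he' (min_le_right _ _) hcont
    (S / (‖S‖ : ℂ)) hb P M hM hl h0 hP
  rw [← hB] at h1
  have h2 : (P.roots.map (fun z => (S / (‖S‖ : ℂ) *
      (starRingEnd ℂ (z / (‖z‖ : ℂ))) ^ k).re)).sum = ‖S‖ := by
    have h3 := re_sum (S / (‖S‖ : ℂ)) P.roots (fun z => (z / (‖z‖ : ℂ)) ^ k)
    simp only [map_pow] at h3
    rw [h3, ← hS]
    have h4 : S / (‖S‖ : ℂ) * starRingEnd ℂ S = (‖S‖ : ℂ) := by
      rw [div_mul_eq_mul_div, Complex.mul_conj, Complex.normSq_eq_norm_sq]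
      push_cast
      field_simp
    rw [h4, Complex.ofReal_re]
  rw [h2] at h1
  have h5 : (P.natDegree : ℝ) * (12 * η ^ 2 + 4 * κ) ≤ P.natDegree * (η * ε) := by
    refine mul_le_mul_of_nonneg_left ?_ (Nat.cast_nonneg _)
    nlinarith
  have h6 : η * ‖S‖ ≤ η * (ε * P.natDegree + B / η * Real.log M) := by
    have h7 : η * (ε * P.natDegree + B / η * Real.log M) =
        P.natDegree * (η * ε) + B * Real.log M := by
      field_simp
    rw [h7]
    linarith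
  exact le_of_mul_le_mul_left h6 hη0

end Pool.Agent.H19.FK
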