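import Pool.Agent.H19.FK.All1
import Pool.Agent.H19.FK.Weyl
import Pool.Agent.H19.FK.Fweyl
import Pool.Agent.H19.FK.Eqd
import Pool.Agent.H19.FK.Brec
import Pool.Agent.H19.FK.Bcru
import Pool.Agent.H19.FK.Blim
import Pool.Agent.H19.FK.Out

set_option autoImplicit false

namespace Pool.Agent.H19.FK

theorem u_fweyl : S_fweyl := Fweyl.t_fweyl (Weyl.t_weyl Jen.t_jen) u_ffact u_fbd
theorem u_eqd : S_eqd := Eqd.t_eqd u_fweyl u_ann u_ffact
theorem u_brec : S_brec := Brec.t_brec Afact.t_afact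
theorem u_blim : S_blim := Blim.t_blim u_brec (Bcru.t_bcru u_brec)
theorem u_out : S_out := Out.t_out u_form Afact.t_afact u_blim

end Pool.Agent.H19.FK
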