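import Mathlib
import Pool.Agent.H19.FK.Stm

/-! Project FK, third wave: no flow roots of `K_n` with `0 < |q - 1| ≤ 1/10`. -/

set_option autoImplicit false

open Polynomial

namespace Pool.Agent.H19.FK

/-- `Z_n(s,y) = ∑_k (s)_k A_{n,k}(y)`, so that `q^n F_n(q) = ± Z_n(q, 1-q)`. -/
noncomputable def Z (y s : ℂ) (n : ℕ) : ℂ :=
  ∑ k ∈ Finset.range (n + 1), aeval s (descPochhammer ℤ k) * aeval y (A n k)

/-- ZONE. `Z_{n+1}(s) = s ∑_m (n choose m) y^((m+1) choose 2) Z_{n-m}(s-1)`. PROOF. Recursion of `A` (`A (n+1) 0 = 0`), `(s)_{k+1} = s (s-1)_k`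
(`descPochhammer_succ_left`), and `A (n-m) k = 0` for `k > n - m` (so the range of `k` may be extended; `S_afact`, first part). Also `Z_0 = 1`. -/
def S_zone : Prop := ∀ (y s : ℂ), Z y s 0 = 1 ∧ ∀ n : ℕ,
  Z y s (n + 1) = s * ∑ m ∈ Finset.range (n + 1), (n.choose m : ℂ) * y ^ ((m + 1).choose 2) * Z y (s - 1) (n - m)

/-- ZREC. PROOF. In `PowerSeries ℂ` let `E = ∑ y^(m choose 2) x^m/m!`, `U(s) = ∑ Z_n(s) x^n/n!`. By ZONE `U(s)' = s E' U(s-1)` and `U(s)` has constant term `1`. Let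
`D(s) = U(s+1) - E U(s)`. Then `D(s)' = (s+1) E' U(s) - E' U(s) - s E E' U(s-1) = s E' D(s-1)` and `D(s)` has constant term `0`. By induction on `n` the coefficient of
`x^n` of `D(s)` is `0` for all `s`. So `U(s) = E U(s-1)` and `E U(s)' = s E' E U(s-1) = s E' U(s)`; compare the coefficients of `x^n/n!`.
(Derivation: `PowerSeries.derivative`/`PowerSeries.d⁄dX`.) -/
def S_zrec : Prop := ∀ (y s : ℂ) (n : ℕ),
  ∑ m ∈ Finset.range (n + 1), (n.choose m : ℂ) * y ^ (m.choose 2) * Z y s (n + 1 - m) =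
    s * ∑ m ∈ Finset.range (n + 1), (n.choose m : ℂ) * y ^ ((m + 1).choose 2) * Z y s (n - m)

/-- BNZ. A recurrence whose solutions do not vanish. PROOF. `r = |y| ≤ 1/10`. Direct computation: `b 2 = 0`, `b 3 = -(1-y)^3 y`, `b 4 = -(1-y)^4 (2y + 3y² + y³)`.
CLAIM: for all `n ≥ 3`: `b n ≠ 0` and `|b (n+1) - (n-1) b n| ≤ (1/5) (n-1) |b n|`. `n = 3`: `b 4 / (2 b 3) = (1-y²)(1+y/2)`. Step (`n ≥ 4`, claim for `3 ≤ j < n`; so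
`|b (j+1)| ≥ (4/5)(j-1)|b j|`, and `|b (n+1-m)| (n-2)! ≤ (5/4)^(m-1) (n-m-1)! |b n|` for `1 ≤ m ≤ n-2`). In the recurrence for `b (n+1)`: `m = 1`: `(n-1+y) b n`, error `r |b n| ≤ (r/3)(n-1)|b n|`.
`m = 2`: `|y| |C(n,2) - (1-y) n| |b (n-1)| ≤ r (n (n-3)/2 + r n) (5/4)/(n-2) |b n| ≤ 0.7 r (n-1) |b n|`. `3 ≤ m ≤ n-2`: `C(n,m) (n-m-1)! = (n-1)! n/(m! (n-m)) ≤ (n-1)!` and
`C(n,m-1) (n-m-1)! ≤ 3 (n-1)!` (since `n ≤ 2m(n-m)`), so the term is at most `4.3 r^(m choose 2) (5/4)^(m-1) (n-1) |b n|` and `r^(m choose 2) ≤ r^m`: together at most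
`4.3 (4/5) ∑_{m≥3} (5r/4)^m (n-1)|b n| ≤ 0.01 (n-1)|b n|`. `m = n-1`: `b 2 = 0`. `m = n`: `r^(n choose 2) (1 + 1.1 n) |b 1|`, `m = n+1`: `r^((n+1) choose 2) 1.1`; with `|b 1| ≤ 1.1`,
`|b n| ≥ (4/5)^(n-3) (n-2)! |b 3| ≥ (4/5)^(n-3) 0.7 r` and `n choose 2 ≥ n + 2` they are at most `0.01 (n-1) |b n|` (for `n = 4`, `n choose 2 = 6`). Total `≤ (1/30 + 0.07 + 0.02)(n-1)|b n| ≤ (1/5)(n-1)|b n|`. -/
def S_bnz : Prop := ∀ (y : ℂ) (b : ℕ → ℂ), y ≠ 0 → ‖y‖ ≤ 1 / 10 → b 0 = 1 →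
  (∀ n : ℕ, b (n + 1) = ∑ m ∈ Finset.Icc 1 (n + 1), (-1) ^ (m + 1) * y ^ (m.choose 2) *
    ((n.choose m : ℂ) - (1 - y) * (n.choose (m - 1) : ℂ)) * b (n + 1 - m)) →
  ∀ n : ℕ, 3 ≤ n → b n ≠ 0

/-- INN. PROOF. `y = 1 - q`, `b n = (-1)^n Z y q n`. `S_zrec` with `s = 1 - y` gives the recurrence of `S_bnz` (multiply by `(-1)^(n+1)`, shift `m` in the second sum), so `Z y q n ≠ 0`, and
`q^n F(q) = ± Z y q n` by `S_form`. -/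
def S_inn : Prop := ∀ (n : ℕ) (F : ℤ[X]), 3 ≤ n → IsFlowPoly n F → ∀ q : ℂ, q ≠ 1 → ‖q - 1‖ ≤ 1 / 10 → aeval q F ≠ 0

end Pool.Agent.H19.FK
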