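import Mathlib
import Pool.Agent.H19.FK.Stm3

set_option autoImplicit false

open Polynomial

namespace Pool.Agent.H19.FK.Bnz

theorem norm_coef {y : ℂ} (hy : ‖y‖ ≤ 1 / 10) (p q : ℕ) :
    ‖(p : ℂ) - (1 - y) * (q : ℂ)‖ ≤ p + 11 / 10 * q := by
  refine (norm_sub_le _ _).trans ?_
  rw [norm_mul, Complex.norm_natCast, Complex.norm_natCast]
  have h1 : ‖1 - y‖ ≤ 11 / 10 := (norm_sub_le _ _).trans (by rw [norm_one]; linarith)
  have h2 := mul_le_mul_of_nonneg_right h1 (Nat.cast_nonneg (α := ℝ) q)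
  linarith

theorem fact1 {m c : ℕ} (hm : 3 ≤ m) (hc : 1 ≤ c) :
    (m + c + 1).choose m * c.factorial ≤ (m + c).factorial := by
  have H := Nat.choose_mul_factorial_mul_factorial (show m ≤ m + c + 1 by omega)
  rw [show m + c + 1 - m = c + 1 by omega, Nat.factorial_succ c,
    show (m + c + 1).factorial = (m + c + 1) * (m + c).factorial from Nat.factorial_succ _] at H
  have h1 : m ≤ m.factorial := Nat.self_le_factorial m
  have h2 : m + c + 1 ≤ m.factorial * (c + 1) := by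
    have h3 : m * (c + 1) ≤ m.factorial * (c + 1) := Nat.mul_le_mul_right _ h1
    nlinarith
  have h4 : (m + c + 1) * ((m + c + 1).choose m * c.factorial) ≤
      (m + c + 1) * (m + c).factorial := by
    rw [← H]
    calc (m + c + 1) * ((m + c + 1).choose m * c.factorial)
        ≤ (m.factorial * (c + 1)) * ((m + c + 1).choose m * c.factorial) :=
          Nat.mul_le_mul_right _ h2
      _ = (m + c + 1).choose m * m.factorial * ((c + 1) * c.factorial) := by ring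
  exact Nat.le_of_mul_le_mul_left h4 (by omega)

theorem fact2 {a c : ℕ} (ha : 2 ≤ a) (hc : 1 ≤ c) :
    (a + 1 + c + 1).choose a * c.factorial ≤ (a + 1 + c).factorial := by
  have H := Nat.choose_mul_factorial_mul_factorial (show a ≤ a + 1 + c + 1 by omega)
  rw [show a + 1 + c + 1 - a = c + 2 by omega,
    show (c + 2).factorial = (c + 2) * ((c + 1) * c.factorial) by
      rw [Nat.factorial_succ (c + 1), Nat.factorial_succ c],
    show (a + 1 + c + 1).factorial = (a + 1 + c + 1) * (a + 1 + c).factorial from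
      Nat.factorial_succ _] at H
  have h1 : a ≤ a.factorial := Nat.self_le_factorial a
  have h2 : a + 1 + c + 1 ≤ a.factorial * ((c + 2) * (c + 1)) := by
    have h3 : a * ((c + 2) * (c + 1)) ≤ a.factorial * ((c + 2) * (c + 1)) :=
      Nat.mul_le_mul_right _ h1
    refine le_trans ?_ h3
    obtain ⟨a', rfl⟩ := Nat.exists_eq_add_of_le ha
    obtain ⟨c', rfl⟩ := Nat.exists_eq_add_of_le hc
    have e1 : (2 + a') * ((1 + c' + 2) * (1 + c' + 1)) = (2 + a' + 1 + (1 + c') + 1) +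
      (7 + 5 * a' + 9 * c' + 5 * a' * c' + 2 * c' ^ 2 + a' * c' ^ 2) := by ring
    rw [e1]
    exact Nat.le_add_right _ _
  have h4 : (a + 1 + c + 1) * ((a + 1 + c + 1).choose a * c.factorial) ≤
      (a + 1 + c + 1) * (a + 1 + c).factorial := by
    rw [← H]
    calc (a + 1 + c + 1) * ((a + 1 + c + 1).choose a * c.factorial)
        ≤ (a.factorial * ((c + 2) * (c + 1))) * ((a + 1 + c + 1).choose a * c.factorial) :=
          Nat.mul_le_mul_right _ h2
      _ = (a + 1 + c + 1).choose a * a.factorial * ((c + 2) * ((c + 1) * c.factorial)) := by ring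
  exact Nat.le_of_mul_le_mul_left h4 (by omega)

theorem dec {β : ℕ → ℝ} {n : ℕ}
    (h : ∀ i, i + 3 < n → 4 / 5 * ((i : ℝ) + 2) * β (i + 3) ≤ β (i + 4)) :
    ∀ k i : ℕ, i + 3 + k = n →
      β (i + 3) * ((n - 2).factorial : ℝ) ≤ (5 / 4) ^ k * ((i + 1).factorial : ℝ) * β n := by
  intro k
  induction k with
  | zero =>
    intro i hi
    subst hi
    rw [show i + 3 + 0 - 2 = i + 1 by omega]
    refine le_of_eq ?_
    rw [pow_zero, one_mul, mul_comm]
  | succ k ih =>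
    intro i hi
    have h1 := ih (i + 1) (by omega)
    have h2 := h i (by omega)
    have h3 : ((i + 1 + 1).factorial : ℝ) = ((i : ℝ) + 2) * ((i + 1).factorial : ℝ) := by
      rw [Nat.factorial_succ (i + 1)]
      push_cast
      ring
    rw [h3] at h1
    have h4 : (0 : ℝ) < (i : ℝ) + 2 := by positivity
    have h5 : (0 : ℝ) ≤ ((n - 2).factorial : ℝ) := Nat.cast_nonneg _
    have h6 := mul_le_mul_of_nonneg_right h2 h5
    have h7 : β (i + 1 + 3) = β (i + 4) := by congr 1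
    rw [h7] at h1
    refine le_of_mul_le_mul_left ?_ h4
    rw [pow_succ]
    nlinarith

theorem geo (N : ℕ) (hN : 3 ≤ N) :
    ∑ m ∈ Finset.Icc 3 N, (1 / 8 : ℝ) ^ m + (1 / 8) ^ N ≤ 1 / 100 := by
  induction N, hN using Nat.le_induction with
  | base => norm_num
  | succ N hN ih =>
    rw [Finset.sum_Icc_succ_top (by omega)]
    have h1 : (0 : ℝ) ≤ (1 / 8) ^ N := by positivity
    rw [pow_succ]
    linarith

theorem choose_ge {m : ℕ} (hm : 3 ≤ m) : m ≤ m.choose 2 := by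
  obtain ⟨a, rfl⟩ := Nat.exists_eq_add_of_le hm
  rw [Nat.choose_two_right, Nat.le_div_iff_mul_le (by norm_num)]
  rw [show 3 + a - 1 = a + 2 by omega]
  nlinarith

theorem choose_ge' {m : ℕ} (hm : 4 ≤ m) : m + 1 ≤ m.choose 2 := by
  obtain ⟨a, rfl⟩ := Nat.exists_eq_add_of_le hm
  rw [Nat.choose_two_right, Nat.le_div_iff_mul_le (by norm_num)]
  rw [show 4 + a - 1 = a + 3 by omega]
  nlinarith


theorem rpow_le {r : ℝ} (h0 : 0 ≤ r) (hr : r ≤ 1 / 10) {m k : ℕ} (h : m ≤ k) :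
    r ^ k ≤ (1 / 10) ^ m := by
  calc r ^ k ≤ r ^ m := pow_le_pow_of_le_one h0 (by linarith) h
    _ ≤ (1 / 10) ^ m := pow_le_pow_left₀ h0 hr m

theorem rpow_le' {r : ℝ} (h0 : 0 ≤ r) (hr : r ≤ 1 / 10) {m k : ℕ} (h : m + 1 ≤ k) :
    r ^ k ≤ r * (1 / 10) ^ m := by
  calc r ^ k ≤ r ^ (m + 1) := pow_le_pow_of_le_one h0 (by linarith) h
    _ = r * r ^ m := by ring
    _ ≤ r * (1 / 10) ^ m := mul_le_mul_of_nonneg_left (pow_le_pow_left₀ h0 hr m) h0

/-- general terms -/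
theorem termA {y : ℂ} {b : ℕ → ℂ} (hy : ‖y‖ ≤ 1 / 10) {m e : ℕ} (hm : 3 ≤ m)
    (h : ∀ i, i + 3 < m + e + 2 → 4 / 5 * ((i : ℝ) + 2) * ‖b (i + 3)‖ ≤ ‖b (i + 4)‖) :
    ‖y‖ ^ (m.choose 2) * (((m + e + 2).choose m : ℝ) + 11 / 10 * ((m + e + 2).choose (m - 1) : ℝ)) *
      ‖b (e + 3)‖ ≤ 3 * ((m : ℝ) + e + 1) * (1 / 8) ^ m * ‖b (m + e + 2)‖ := by
  have hd := dec (β := fun k => ‖b k‖) h (m - 1) e (by omega)
  have f1 := fact1 (m := m) (c := e + 1) hm (by omega)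
  have f2 := fact2 (a := m - 1) (c := e + 1) (by omega) (by omega)
  rw [show m - 1 + 1 + (e + 1) + 1 = m + e + 2 by omega,
    show m - 1 + 1 + (e + 1) = m + e + 1 by omega] at f2
  rw [show m + (e + 1) + 1 = m + e + 2 by omega, show m + (e + 1) = m + e + 1 by omega] at f1
  have hF : (m + e + 1).factorial = (m + e + 1) * (m + e).factorial := Nat.factorial_succ _
  rw [show m + e + 2 - 2 = m + e by omega] at hd
  have f1' : ((m + e + 2).choose m : ℝ) * ((e + 1).factorial : ℝ) ≤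
      ((m : ℝ) + e + 1) * ((m + e).factorial : ℝ) := by
    rw [hF] at f1
    exact_mod_cast f1
  have f2' : ((m + e + 2).choose (m - 1) : ℝ) * ((e + 1).factorial : ℝ) ≤
      ((m : ℝ) + e + 1) * ((m + e).factorial : ℝ) := by
    rw [hF] at f2
    exact_mod_cast f2
  set A : ℝ := ((m + e + 2).choose m : ℝ)
  set B : ℝ := ((m + e + 2).choose (m - 1) : ℝ)
  set E : ℝ := ((e + 1).factorial : ℝ)
  set F : ℝ := ((m + e).factorial : ℝ) with hFdef
  have hFpos : 0 < F := by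
    rw [hFdef]
    exact_mod_cast Nat.factorial_pos _
  have hA : 0 ≤ A := Nat.cast_nonneg _
  have hB : 0 ≤ B := Nat.cast_nonneg _
  have hbn : 0 ≤ ‖b (m + e + 2)‖ := norm_nonneg _
  have g1 : (A + 11 / 10 * B) * ‖b (e + 3)‖ ≤
      21 / 10 * ((m : ℝ) + e + 1) * (5 / 4) ^ (m - 1) * ‖b (m + e + 2)‖ := by
    refine le_of_mul_le_mul_right ?_ hFpos
    calc (A + 11 / 10 * B) * ‖b (e + 3)‖ * F = (A + 11 / 10 * B) * (‖b (e + 3)‖ * F) := by ring
      _ ≤ (A + 11 / 10 * B) * ((5 / 4) ^ (m - 1) * E * ‖b (m + e + 2)‖) :=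
          mul_le_mul_of_nonneg_left hd (by positivity)
      _ = (A * E + 11 / 10 * (B * E)) * ((5 / 4) ^ (m - 1) * ‖b (m + e + 2)‖) := by ring
      _ ≤ (((m : ℝ) + e + 1) * F + 11 / 10 * (((m : ℝ) + e + 1) * F)) *
          ((5 / 4) ^ (m - 1) * ‖b (m + e + 2)‖) :=
          mul_le_mul_of_nonneg_right (by linarith) (by positivity)
      _ = 21 / 10 * ((m : ℝ) + e + 1) * (5 / 4) ^ (m - 1) * ‖b (m + e + 2)‖ * F := by ring
  have g2 : ‖y‖ ^ (m.choose 2) ≤ (1 / 10) ^ m := rpow_le (norm_nonneg y) hy (choose_ge hm)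
  have g3 : (1 / 10 : ℝ) ^ m * (5 / 4) ^ (m - 1) = 4 / 5 * (1 / 8) ^ m := by
    obtain ⟨k, rfl⟩ : ∃ k, m = k + 1 := ⟨m - 1, by omega⟩
    rw [Nat.add_sub_cancel, pow_succ, pow_succ, show (1 / 8 : ℝ) = 1 / 10 * (5 / 4) by norm_num,
      mul_pow]
    ring
  have g4 : 0 ≤ (A + 11 / 10 * B) * ‖b (e + 3)‖ := by positivity
  calc ‖y‖ ^ (m.choose 2) * (A + 11 / 10 * B) * ‖b (e + 3)‖
      = ‖y‖ ^ (m.choose 2) * ((A + 11 / 10 * B) * ‖b (e + 3)‖) := by ring
    _ ≤ (1 / 10) ^ m * ((A + 11 / 10 * B) * ‖b (e + 3)‖) := mul_le_mul_of_nonneg_right g2 g4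
    _ ≤ (1 / 10) ^ m * (21 / 10 * ((m : ℝ) + e + 1) * (5 / 4) ^ (m - 1) * ‖b (m + e + 2)‖) :=
        mul_le_mul_of_nonneg_left g1 (by positivity)
    _ = 21 / 10 * ((m : ℝ) + e + 1) * ((1 / 10 : ℝ) ^ m * (5 / 4) ^ (m - 1)) *
        ‖b (m + e + 2)‖ := by ring
    _ = 21 / 10 * (4 / 5) * (((m : ℝ) + e + 1) * (1 / 8) ^ m * ‖b (m + e + 2)‖) := by
        rw [g3]; ring
    _ ≤ 3 * (((m : ℝ) + e + 1) * (1 / 8) ^ m * ‖b (m + e + 2)‖) :=
        mul_le_mul_of_nonneg_right (by norm_num) (by positivity)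
    _ = _ := by ring

/-- lower bound of `‖b n‖` -/
theorem low {y : ℂ} {b : ℕ → ℂ} {k : ℕ}
    (h3 : 729 / 1000 * ‖y‖ ≤ ‖b 3‖)
    (h : ∀ i, i + 3 < k + 4 → 4 / 5 * ((i : ℝ) + 2) * ‖b (i + 3)‖ ≤ ‖b (i + 4)‖) :
    729 / 1000 * ‖y‖ ≤ (5 / 4) ^ (k + 1) * ‖b (k + 4)‖ := by
  have hd := dec (β := fun k => ‖b k‖) h (k + 1) 0 (by omega)
  have h1 : (1 : ℝ) ≤ ((k + 4 - 2).factorial : ℝ) := by
    exact_mod_cast Nat.succ_le_of_lt (Nat.factorial_pos _)
  have h2 : ‖b (0 + 3)‖ ≤ ‖b (0 + 3)‖ * ((k + 4 - 2).factorial : ℝ) :=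
    le_mul_of_one_le_right (norm_nonneg _) h1
  have h4 : ((0 + 1).factorial : ℝ) = 1 := by norm_num
  rw [h4, mul_one] at hd
  calc 729 / 1000 * ‖y‖ ≤ ‖b 3‖ := h3
    _ ≤ _ := h2
    _ ≤ _ := hd

theorem term {y : ℂ} {b : ℕ → ℂ} (hy : ‖y‖ ≤ 1 / 10) (b0 : b 0 = 1) (b1 : b 1 = -(1 - y))
    (b2 : b 2 = 0) (h3 : 729 / 1000 * ‖y‖ ≤ ‖b 3‖) {n : ℕ} (hn : 4 ≤ n)
    (h : ∀ i, i + 3 < n → 4 / 5 * ((i : ℝ) + 2) * ‖b (i + 3)‖ ≤ ‖b (i + 4)‖) (m : ℕ)
    (hm : 3 ≤ m) (hm' : m ≤ n + 1) :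
    ‖(-1) ^ (m + 1) * y ^ (m.choose 2) *
      ((n.choose m : ℂ) - (1 - y) * (n.choose (m - 1) : ℂ)) * b (n + 1 - m)‖ ≤
      3 * ((n : ℝ) - 1) * (1 / 8) ^ m * ‖b n‖ := by
  have hsgn : ‖((-1 : ℂ)) ^ (m + 1)‖ = 1 := by rw [norm_pow, norm_neg, norm_one, one_pow]
  rw [norm_mul, norm_mul, norm_mul, hsgn, one_mul, norm_pow]
  have hc := norm_coef hy (n.choose m) (n.choose (m - 1))
  have hr0 : 0 ≤ ‖y‖ := norm_nonneg y
  have hn1 : (4 : ℝ) ≤ (n : ℝ) := by exact_mod_cast hn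
  rcases Nat.lt_or_ge m (n - 1) with h1 | h1
  · obtain ⟨e, rfl⟩ : ∃ e, n = m + e + 2 := ⟨n - m - 2, by omega⟩
    rw [show m + e + 2 + 1 - m = e + 3 by omega]
    have hA := termA (b := b) hy hm h
    have hcast : ((m + e + 2 : ℕ) : ℝ) - 1 = (m : ℝ) + e + 1 := by push_cast; ring
    rw [hcast]
    refine le_trans ?_ hA
    exact mul_le_mul_of_nonneg_right (mul_le_mul_of_nonneg_left hc (by positivity))
      (norm_nonneg _)
  · obtain ⟨k, rfl⟩ : ∃ k, n = k + 4 := ⟨n - 4, by omega⟩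
    have hlow := low (y := y) h3 h
    have hb : 0 ≤ ‖b (k + 4)‖ := norm_nonneg _
    have e1 : ((k + 4 : ℕ) : ℝ) = (k : ℝ) + 4 := by push_cast; ring
    have hk : (0 : ℝ) ≤ (k : ℝ) := Nat.cast_nonneg _
    have e2 : (1 / 10 : ℝ) ^ (k + 4) * (5 / 4) ^ (k + 1) = 64 / 125 * (1 / 8) ^ (k + 4) := by
      rw [show (1 / 8 : ℝ) = 1 / 10 * (5 / 4) by norm_num, mul_pow]
      ring
    have e3 : ‖y‖ * (1 / 10) ^ (k + 4) ≤ 705 / 1000 * ((1 / 8) ^ (k + 4) * ‖b (k + 4)‖) := by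
      have e4 := mul_le_mul_of_nonneg_left hlow (show (0 : ℝ) ≤ (1 / 10) ^ (k + 4) by positivity)
      have e5 : (1 / 10 : ℝ) ^ (k + 4) * ((5 / 4) ^ (k + 1) * ‖b (k + 4)‖) =
          64 / 125 * ((1 / 8) ^ (k + 4) * ‖b (k + 4)‖) := by
        rw [← mul_assoc, e2]; ring
      rw [e5] at e4
      have e6 : 0 ≤ (1 / 8 : ℝ) ^ (k + 4) * ‖b (k + 4)‖ := by positivity
      nlinarith
    have e6 : 0 ≤ (1 / 8 : ℝ) ^ (k + 4) * ‖b (k + 4)‖ := by positivity
    rcases Nat.lt_or_ge m (k + 4) with h2 | h2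
    · have hm3 : m = k + 3 := by omega
      subst hm3
      rw [show k + 4 + 1 - (k + 3) = 2 by omega, b2, norm_zero, mul_zero]
      rw [e1]
      have : (0 : ℝ) ≤ (k : ℝ) + 4 - 1 := by linarith
      positivity
    · rcases Nat.lt_or_ge m (k + 5) with h4 | h4
      · have hm4 : m = k + 4 := by omega
        subst hm4
        rw [show k + 4 + 1 - (k + 4) = 1 by omega, b1, norm_neg]
        have hy1 : ‖1 - y‖ ≤ 11 / 10 := (norm_sub_le _ _).trans (by rw [norm_one]; linarith)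
        rw [Nat.choose_self, show k + 4 - 1 = k + 3 by omega,
          show (k + 4).choose (k + 3) = k + 4 from Nat.choose_succ_self_right (k + 3)] at hc ⊢
        have hp : ‖y‖ ^ ((k + 4).choose 2) ≤ ‖y‖ * (1 / 10) ^ (k + 4) :=
          rpow_le' hr0 hy (choose_ge' (by omega))
        rw [e1] at hc ⊢
        have hp0 : 0 ≤ ‖y‖ ^ ((k + 4).choose 2) := by positivity
        have hc1 : ‖(((1 : ℕ) : ℂ)) - (1 - y) * ((k + 4 : ℕ) : ℂ)‖ ≤ 1 + 11 / 10 * ((k : ℝ) + 4) := by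
          push_cast at hc ⊢
          exact hc
        calc ‖y‖ ^ ((k + 4).choose 2) * ‖(((1 : ℕ) : ℂ)) - (1 - y) * ((k + 4 : ℕ) : ℂ)‖ * ‖1 - y‖
            ≤ (‖y‖ * (1 / 10) ^ (k + 4)) * (1 + 11 / 10 * ((k : ℝ) + 4)) * (11 / 10) := by
              gcongr
          _ = (11 / 10) * (1 + 11 / 10 * ((k : ℝ) + 4)) * (‖y‖ * (1 / 10) ^ (k + 4)) := by ring
          _ ≤ (11 / 10) * (1 + 11 / 10 * ((k : ℝ) + 4)) *
              (705 / 1000 * ((1 / 8) ^ (k + 4) * ‖b (k + 4)‖)) :=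
              mul_le_mul_of_nonneg_left e3 (by positivity)
          _ = (11 / 10 * (705 / 1000) * (1 + 11 / 10 * ((k : ℝ) + 4))) *
              ((1 / 8) ^ (k + 4) * ‖b (k + 4)‖) := by ring
          _ ≤ (3 * ((k : ℝ) + 4 - 1)) * ((1 / 8) ^ (k + 4) * ‖b (k + 4)‖) :=
              mul_le_mul_of_nonneg_right (by nlinarith) e6
          _ = _ := by ring
      · have hm5 : m = k + 5 := by omega
        subst hm5
        rw [show k + 4 + 1 - (k + 5) = 0 by omega, b0, norm_one, mul_one]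
        rw [Nat.choose_eq_zero_of_lt (show k + 4 < k + 5 by omega),
          show k + 5 - 1 = k + 4 by omega, Nat.choose_self] at hc ⊢
        have hp : ‖y‖ ^ ((k + 5).choose 2) ≤ ‖y‖ * (1 / 10) ^ (k + 5) :=
          rpow_le' hr0 hy (choose_ge' (by omega))
        have hc1 : ‖(((0 : ℕ) : ℂ)) - (1 - y) * ((1 : ℕ) : ℂ)‖ ≤ 11 / 10 := by
          refine hc.trans ?_
          push_cast
          norm_num
        calc ‖y‖ ^ ((k + 5).choose 2) * ‖(((0 : ℕ) : ℂ)) - (1 - y) * ((1 : ℕ) : ℂ)‖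
            ≤ (‖y‖ * (1 / 10) ^ (k + 5)) * (11 / 10) := by gcongr
          _ = 11 / 100 * (‖y‖ * (1 / 10) ^ (k + 4)) := by ring
          _ ≤ 11 / 100 * (705 / 1000 * ((1 / 8) ^ (k + 4) * ‖b (k + 4)‖)) :=
              mul_le_mul_of_nonneg_left e3 (by positivity)
          _ = (11 / 100 * (705 / 1000)) * ((1 / 8) ^ (k + 4) * ‖b (k + 4)‖) := by ring
          _ ≤ (3 / 8 * (((k + 4 : ℕ) : ℝ) - 1)) * ((1 / 8) ^ (k + 4) * ‖b (k + 4)‖) := by
              refine mul_le_mul_of_nonneg_right ?_ e6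
              rw [e1]
              nlinarith
          _ = _ := by ring

theorem t_bnz : S_bnz := by
  intro y b hy0 hy b0 hrec
  have hr0 : 0 ≤ ‖y‖ := norm_nonneg y
  have b1 : b 1 = -(1 - y) := by
    have := hrec 0
    simp [b0] at this
    rw [this]
    ring
  have b2 : b 2 = 0 := by
    have := hrec 1
    rw [show (1 + 1 : ℕ) = 2 by norm_num, Finset.sum_Icc_succ_top (by norm_num), Finset.Icc_self,
      Finset.sum_singleton] at this
    norm_num [Nat.choose, b0, b1] at this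
    rw [this]
  have b3 : b 3 = -(y * (1 - y) ^ 3) := by
    have := hrec 2
    rw [show (2 + 1 : ℕ) = 3 by norm_num, Finset.sum_Icc_succ_top (by norm_num),
      Finset.sum_Icc_succ_top (by norm_num), Finset.Icc_self, Finset.sum_singleton] at this
    norm_num [Nat.choose, b0, b1, b2] at this
    rw [this]
    ring
  have b4 : b 4 = (2 + y) * (1 - y ^ 2) * b 3 := by
    have := hrec 3
    rw [show (3 + 1 : ℕ) = 4 by norm_num, Finset.sum_Icc_succ_top (by norm_num),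
      Finset.sum_Icc_succ_top (by norm_num), Finset.sum_Icc_succ_top (by norm_num),
      Finset.Icc_self, Finset.sum_singleton] at this
    norm_num [Nat.choose, b0, b1, b2, b3] at this
    rw [this, b3]
    ring
  have h1y : 9 / 10 ≤ ‖1 - y‖ := by
    have := norm_sub_norm_le (1 : ℂ) y
    rw [norm_one] at this
    linarith
  have h3 : 729 / 1000 * ‖y‖ ≤ ‖b 3‖ := by
    rw [b3, norm_neg, norm_mul, norm_pow]
    have : (9 / 10 : ℝ) ^ 3 ≤ ‖1 - y‖ ^ 3 := pow_le_pow_left₀ (by norm_num) h1y 3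
    nlinarith
  have hypos : 0 < ‖y‖ := norm_pos_iff.mpr hy0
  have main : ∀ n : ℕ, 3 ≤ n → b n ≠ 0 ∧
      ‖b (n + 1) - ((n : ℂ) - 1) * b n‖ ≤ 1 / 5 * ((n : ℝ) - 1) * ‖b n‖ := by
    intro n
    induction n using Nat.strong_induction_on with
    | _ n ih =>
    intro hn
    rcases Nat.lt_or_ge n 4 with h4 | h4
    · have hn3 : n = 3 := by omega
      subst hn3
      refine ⟨?_, ?_⟩
      · intro h0
        rw [h0, norm_zero] at h3
        linarith
      · rw [show (3 + 1 : ℕ) = 4 by norm_num, b4,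
          show (2 + y) * (1 - y ^ 2) * b 3 - (((3 : ℕ) : ℂ) - 1) * b 3 =
            (y - 2 * y ^ 2 - y ^ 3) * b 3 by push_cast; ring, norm_mul]
        refine mul_le_mul_of_nonneg_right ?_ (norm_nonneg _)
        have hA : ‖y - 2 * y ^ 2 - y ^ 3‖ ≤ ‖y‖ + 2 * ‖y‖ ^ 2 + ‖y‖ ^ 3 := by
          refine (norm_sub_le _ _).trans ?_
          have hB : ‖y - 2 * y ^ 2‖ ≤ ‖y‖ + 2 * ‖y‖ ^ 2 := by
            refine (norm_sub_le _ _).trans ?_
            rw [norm_mul, norm_pow]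
            norm_num
          rw [norm_pow]
          linarith
        have hC : ‖y‖ ^ 2 ≤ (1 / 10) ^ 2 := pow_le_pow_left₀ hr0 hy 2
        have hD : ‖y‖ ^ 3 ≤ (1 / 10) ^ 3 := pow_le_pow_left₀ hr0 hy 3
        push_cast
        norm_num at hC hD ⊢
        linarith
    · have hstep : ∀ i, i + 3 < n → 4 / 5 * ((i : ℝ) + 2) * ‖b (i + 3)‖ ≤ ‖b (i + 4)‖ := by
        intro i hi
        obtain ⟨-, h⟩ := ih (i + 3) hi (by omega)
        have e : (((i + 3 : ℕ) : ℂ) - 1) * b (i + 3) =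
            b (i + 3 + 1) - (b (i + 3 + 1) - (((i + 3 : ℕ) : ℂ) - 1) * b (i + 3)) := by ring
        have e1 : ‖(((i + 3 : ℕ) : ℂ) - 1) * b (i + 3)‖ = ((i : ℝ) + 2) * ‖b (i + 3)‖ := by
          rw [norm_mul, show (((i + 3 : ℕ) : ℂ) - 1) = ((i + 2 : ℕ) : ℂ) by push_cast; ring,
            Complex.norm_natCast]
          push_cast
          ring
        have e2 : ‖(((i + 3 : ℕ) : ℂ) - 1) * b (i + 3)‖ ≤ ‖b (i + 4)‖ +
            ‖b (i + 3 + 1) - (((i + 3 : ℕ) : ℂ) - 1) * b (i + 3)‖ := by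
          conv_lhs => rw [e]
          exact norm_sub_le _ _
        rw [e1] at e2
        have e3 : (((i + 3 : ℕ) : ℝ) - 1) = (i : ℝ) + 2 := by push_cast; ring
        rw [e3] at h
        linarith
      have hlow : 729 / 1000 * ‖y‖ ≤ (5 / 4) ^ (n - 4 + 1) * ‖b n‖ := by
        have := low (y := y) (b := b) (k := n - 4) h3 (by
          rw [show n - 4 + 4 = n by omega]; exact hstep)
        rwa [show n - 4 + 4 = n by omega] at this
      refine ⟨?_, ?_⟩
      · intro h0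
        rw [h0, norm_zero, mul_zero] at hlow
        linarith
      have hn1 : (4 : ℝ) ≤ (n : ℝ) := by exact_mod_cast h4
      have hbn : 0 ≤ ‖b n‖ := norm_nonneg _
      have hsplit : Finset.Icc 1 (n + 1) = insert 1 (insert 2 (Finset.Icc 3 (n + 1))) := by
        ext x
        simp only [Finset.mem_Icc, Finset.mem_insert]
        omega
      have hrn := hrec n
      rw [hsplit, Finset.sum_insert (by simp), Finset.sum_insert (by simp)] at hrn
      have hT := fun m (hm : m ∈ Finset.Icc 3 (n + 1)) =>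
        term hy b0 b1 b2 h3 h4 hstep m (Finset.mem_Icc.mp hm).1 (Finset.mem_Icc.mp hm).2
      have hS := (norm_sum_le _ _).trans (Finset.sum_le_sum hT)
      set S : ℂ := ∑ m ∈ Finset.Icc 3 (n + 1), (-1) ^ (m + 1) * y ^ (m.choose 2) *
        ((n.choose m : ℂ) - (1 - y) * (n.choose (m - 1) : ℂ)) * b (n + 1 - m) with hSdef
      have hS1 : ‖S‖ ≤ 3 / 100 * ((n : ℝ) - 1) * ‖b n‖ := by
        refine hS.trans ?_
        have e : ∀ m ∈ Finset.Icc 3 (n + 1), 3 * ((n : ℝ) - 1) * (1 / 8) ^ m * ‖b n‖ =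
            3 * ((n : ℝ) - 1) * ‖b n‖ * (1 / 8) ^ m := by intro m _; ring
        rw [Finset.sum_congr rfl e, ← Finset.mul_sum]
        have g := geo (n + 1) (by omega)
        have g0 : (0 : ℝ) ≤ (1 / 8) ^ (n + 1) := by positivity
        have g1 : ∑ m ∈ Finset.Icc 3 (n + 1), (1 / 8 : ℝ) ^ m ≤ 1 / 100 := by linarith
        have g2 : 0 ≤ 3 * ((n : ℝ) - 1) * ‖b n‖ :=
          mul_nonneg (by linarith) hbn
        have g3 := mul_le_mul_of_nonneg_left g1 g2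
        linarith
      set T2 : ℂ := y * ((n.choose 2 : ℂ) - (1 - y) * (n : ℂ)) * b (n - 1) with hT2def
      have hform : b (n + 1) - ((n : ℂ) - 1) * b n = y * b n - T2 + S := by
        rw [hrn, hT2def]
        rw [show n + 1 - 1 = n by omega, show n + 1 - 2 = n - 1 by omega]
        norm_num [Nat.choose_one_right]
        ring
      have hT2 : ‖T2‖ ≤ 7 / 100 * ((n : ℝ) - 1) * ‖b n‖ := by
        obtain ⟨i, rfl⟩ : ∃ i, n = i + 4 := ⟨n - 4, by omega⟩
        have hs := hstep i (by omega)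
        rw [hT2def, norm_mul, norm_mul, show i + 4 - 1 = i + 3 by omega]
        have hc2 : (((i + 4).choose 2 : ℕ) : ℂ) = ((i : ℂ) + 4) * ((i : ℂ) + 3) / 2 := by
          rw [Nat.cast_choose_two]
          push_cast
          ring
        have e1 : (((i + 4).choose 2 : ℕ) : ℂ) - (1 - y) * ((i + 4 : ℕ) : ℂ) =
            (((((i : ℝ) + 4) * ((i : ℝ) + 1) / 2 : ℝ)) : ℂ) + y * ((i + 4 : ℕ) : ℂ) := by
          rw [hc2]
          push_cast
          ring
        have e2 : ‖(((i + 4).choose 2 : ℕ) : ℂ) - (1 - y) * ((i + 4 : ℕ) : ℂ)‖ ≤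
            ((i : ℝ) + 4) * ((i : ℝ) + 1) / 2 + 1 / 10 * ((i : ℝ) + 4) := by
          rw [e1]
          refine (norm_add_le _ _).trans ?_
          rw [Complex.norm_real, Real.norm_of_nonneg (by positivity), norm_mul,
            Complex.norm_natCast]
          push_cast
          have hi4 : (0 : ℝ) ≤ (i : ℝ) + 4 := by positivity
          nlinarith
        have hi0 : (0 : ℝ) ≤ (i : ℝ) := Nat.cast_nonneg _
        have e3 : ((i : ℝ) + 4) * ((i : ℝ) + 1) / 2 + 1 / 10 * ((i : ℝ) + 4) ≤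
            56 / 100 * (((i : ℝ) + 3) * ((i : ℝ) + 2)) := by nlinarith
        have e4 : (((i + 4 : ℕ) : ℝ) - 1) = (i : ℝ) + 3 := by push_cast; ring
        rw [e4]
        calc ‖y‖ * ‖(((i + 4).choose 2 : ℕ) : ℂ) - (1 - y) * ((i + 4 : ℕ) : ℂ)‖ * ‖b (i + 3)‖
            ≤ (1 / 10) * (56 / 100 * (((i : ℝ) + 3) * ((i : ℝ) + 2))) * ‖b (i + 3)‖ := by
              refine mul_le_mul_of_nonneg_right ?_ (norm_nonneg _)
              exact mul_le_mul hy (e2.trans e3) (norm_nonneg _) (by norm_num)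
          _ = 7 / 100 * ((i : ℝ) + 3) * (4 / 5 * ((i : ℝ) + 2) * ‖b (i + 3)‖) := by ring
          _ ≤ 7 / 100 * ((i : ℝ) + 3) * ‖b (i + 4)‖ :=
              mul_le_mul_of_nonneg_left hs (by positivity)
      rw [hform]
      have t1 : ‖y * b n - T2 + S‖ ≤ ‖y * b n‖ + ‖T2‖ + ‖S‖ :=
        (norm_add_le _ _).trans (by
          have := norm_sub_le (y * b n) T2
          linarith)
      have t2 : ‖y * b n‖ ≤ 1 / 10 * ‖b n‖ := by
        rw [norm_mul]
        exact mul_le_mul_of_nonneg_right hy hbn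
      have t3 : 1 / 10 * ‖b n‖ ≤ 1 / 30 * ((n : ℝ) - 1) * ‖b n‖ := by
        refine mul_le_mul_of_nonneg_right ?_ hbn
        linarith
      have t4 : 0 ≤ ((n : ℝ) - 1) * ‖b n‖ := mul_nonneg (by linarith) hbn
      linarith
  exact fun n hn => (main n hn).1

end Pool.Agent.H19.FK.Bnz
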