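import Mathlib
import Pool.Agent.H19.FK.Stm3

/-! Project FK, task INN (helper32): assembly, no flow roots with `0 < |q - 1| ≤ 1/10`. -/

set_option autoImplicit false
set_option linter.unusedVariables false

open Polynomial

namespace Pool.Agent.H19.FK.Inn

open Pool.Agent.H19.FK

theorem sum_shift (f : ℕ → ℂ) (n : ℕ) :
    ∑ m ∈ Finset.Icc 1 (n + 1), f m = ∑ m ∈ Finset.range (n + 1), f (m + 1) := by
  induction n with
  | zero => simp
  | succ n ih => rw [Finset.sum_Icc_succ_top (by omega), ih, Finset.sum_range_succ _ (n + 1)]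

theorem form (hF : S_form) (n : ℕ) (F : ℤ[X]) (h : IsFlowPoly n F) (q : ℂ) :
    q ^ n * aeval q F = (-1) ^ (n.choose 2) * Z (1 - q) q n := by
  have h1 := congrArg (aeval q) (hF n F h)
  simp only [map_mul, map_pow, map_sum, aeval_X, map_neg, map_one, aeval_comp, map_sub] at h1
  rw [h1]
  rfl

theorem rec_b (hZ : S_zrec) (y s : ℂ) (n : ℕ) :
    (-1) ^ (n + 1) * Z y s (n + 1) = ∑ m ∈ Finset.Icc 1 (n + 1), (-1) ^ (m + 1) *
      y ^ (m.choose 2) * ((n.choose m : ℂ) - s * (n.choose (m - 1) : ℂ)) *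
        ((-1) ^ (n + 1 - m) * Z y s (n + 1 - m)) := by
  have h1 := hZ y s n
  rw [Finset.sum_range_succ'] at h1
  have h2 : ∑ m ∈ Finset.range (n + 1), (n.choose (m + 1) : ℂ) * y ^ ((m + 1).choose 2) *
      Z y s (n + 1 - (m + 1)) = ∑ m ∈ Finset.range n, (n.choose (m + 1) : ℂ) *
        y ^ ((m + 1).choose 2) * Z y s (n + 1 - (m + 1)) := by
    rw [Finset.sum_range_succ, Nat.choose_succ_self]
    simp
  rw [← h2] at h1
  simp only [Nat.choose_zero_right, Nat.cast_one, Nat.choose_zero_succ, pow_zero, one_mul,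
    Nat.sub_zero] at h1
  rw [sum_shift]
  have h3 : ∀ m ∈ Finset.range (n + 1), (-1 : ℂ) ^ (m + 1 + 1) * y ^ ((m + 1).choose 2) *
      ((n.choose (m + 1) : ℂ) - s * (n.choose (m + 1 - 1) : ℂ)) *
        ((-1) ^ (n + 1 - (m + 1)) * Z y s (n + 1 - (m + 1))) =
      (-1) ^ (n + 1) * (s * ((n.choose m : ℂ) * y ^ ((m + 1).choose 2) * Z y s (n - m)) -
        (n.choose (m + 1) : ℂ) * y ^ ((m + 1).choose 2) * Z y s (n + 1 - (m + 1))) := by
    intro m hm
    rw [Finset.mem_range] at hm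
    have e1 : (-1 : ℂ) ^ (m + 1 + 1) * (-1) ^ (n + 1 - (m + 1)) = -(-1) ^ (n + 1) := by
      rw [← pow_add, show m + 1 + 1 + (n + 1 - (m + 1)) = (n + 1) + 1 by omega, pow_succ]
      ring
    have e2 : n + 1 - (m + 1) = n - m := by omega
    rw [e2] at e1 ⊢
    rw [Nat.add_sub_cancel]
    linear_combination (y ^ ((m + 1).choose 2) *
      ((n.choose (m + 1) : ℂ) - s * (n.choose m : ℂ)) * Z y s (n - m)) * e1
  rw [Finset.sum_congr rfl h3, ← Finset.mul_sum, Finset.sum_sub_distrib, ← Finset.mul_sum]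
  rw [← h1]
  simp

theorem t_inn (hF : S_form) (hA : S_afact) (hZ : S_zrec) (hZ1 : S_zone) (hB : S_bnz) : S_inn := by
  intro n F hn hFl q hq hq1 h0
  have h1 := form hF n F hFl q
  rw [h0, mul_zero] at h1
  have hy : (1 - q) ≠ 0 := sub_ne_zero.2 hq.symm
  have hy1 : ‖1 - q‖ ≤ 1 / 10 := by rwa [norm_sub_rev]
  have h2 := hB (1 - q) (fun n => (-1) ^ n * Z (1 - q) q n) hy hy1 (by
    simp only [pow_zero, one_mul]
    exact (hZ1 _ _).1) (fun m => by
      have := rec_b hZ (1 - q) q m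
      rw [this]
      refine Finset.sum_congr rfl fun k _ => ?_
      rw [sub_sub_cancel]) n hn
  apply h2
  have h3 : Z (1 - q) q n = 0 := by
    rcases mul_eq_zero.1 h1.symm with h | h
    · exact absurd h (pow_ne_zero _ (by norm_num))
    · exact h
  simp only [h3, mul_zero]

end Pool.Agent.H19.FK.Inn
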