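import Mathlib
import Pool.Agent.H19.FK.Stm3

/-!
# First recursion for `Z_n(s)`
-/

set_option autoImplicit false

open Polynomial

namespace Pool.Agent.H19.FK.Zone

theorem desc_succ (s : ℂ) (k : ℕ) :
    aeval s (descPochhammer ℤ (k + 1)) = s * aeval (s - 1) (descPochhammer ℤ k) := by
  rw [descPochhammer_succ_left, map_mul, aeval_X, aeval_comp, map_sub, aeval_X, map_one]

theorem A_succ (y : ℂ) (n k : ℕ) :
    aeval y (A (n + 1) (k + 1)) = ∑ m ∈ Finset.range (n + 1),
      (n.choose m : ℂ) * y ^ ((m + 1).choose 2) * aeval y (A (n - m) k) := by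
  rw [A, map_sum, Finset.sum_range]
  refine Finset.sum_congr rfl fun m _ => ?_
  rw [map_mul, map_mul, map_natCast, map_pow, aeval_X]

theorem Z_ext (hA : S_afact) (y s : ℂ) (n m : ℕ) :
    ∑ k ∈ Finset.range (n + 1), aeval s (descPochhammer ℤ k) * aeval y (A (n - m) k) =
      Z y s (n - m) := by
  unfold Z
  symm
  apply Finset.sum_subset
  · intro k hk
    rw [Finset.mem_range] at hk ⊢
    omega
  · intro k _ hk
    rw [Finset.mem_range, not_lt] at hk
    rw [hA.1 (n - m) k (by omega), map_zero, mul_zero]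

theorem t_zone (hA : S_afact) : S_zone := by
  intro y s
  constructor
  · unfold Z
    rw [Finset.sum_range_one, hA.2.1 0, descPochhammer_zero, map_one, map_one, mul_one]
  · intro n
    have h0 : Z y s (n + 1) = ∑ k ∈ Finset.range (n + 1),
        aeval s (descPochhammer ℤ (k + 1)) * aeval y (A (n + 1) (k + 1)) := by
      unfold Z
      rw [Finset.sum_range_succ', hA.2.2.2.1 n, map_zero, mul_zero, add_zero]
    rw [h0]
    have h1 : ∀ k ∈ Finset.range (n + 1),
        aeval s (descPochhammer ℤ (k + 1)) * aeval y (A (n + 1) (k + 1)) =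
          ∑ m ∈ Finset.range (n + 1), s * ((n.choose m : ℂ) * y ^ ((m + 1).choose 2) *
            (aeval (s - 1) (descPochhammer ℤ k) * aeval y (A (n - m) k))) := by
      intro k _
      rw [desc_succ, A_succ, Finset.mul_sum]
      refine Finset.sum_congr rfl fun m _ => ?_
      ring
    rw [Finset.sum_congr rfl h1, Finset.sum_comm, Finset.mul_sum]
    refine Finset.sum_congr rfl fun m _ => ?_
    rw [← Finset.mul_sum, ← Finset.mul_sum, Z_ext hA]

end Pool.Agent.H19.FK.Zone
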