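import Mathlib
import Pool.Agent.H19.FK.Stm3

/-! Second recursion via power series (helper448 for helper19). -/

set_option autoImplicit false

namespace Pool.Agent.H19.FK.Zrec

/-- exponential generating function -/
noncomputable def egf (a : ℕ → ℂ) : PowerSeries ℂ :=
  PowerSeries.mk fun n => a n / (n.factorial : ℂ)

theorem coeff_egf (a : ℕ → ℂ) (n : ℕ) :
    PowerSeries.coeff n (egf a) = a n / (n.factorial : ℂ) := PowerSeries.coeff_mk _ _

theorem fac_ne (n : ℕ) : (n.factorial : ℂ) ≠ 0 := Nat.cast_ne_zero.2 (Nat.factorial_ne_zero n)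

theorem coeff_mul_egf (a b : ℕ → ℂ) (n : ℕ) :
    PowerSeries.coeff n (egf a * egf b) =
      (∑ m ∈ Finset.range (n + 1), (n.choose m : ℂ) * a m * b (n - m)) / (n.factorial : ℂ) := by
  rw [PowerSeries.coeff_mul, Finset.Nat.sum_antidiagonal_eq_sum_range_succ
    (fun i j => PowerSeries.coeff i (egf a) * PowerSeries.coeff j (egf b)) n, Finset.sum_div]
  apply Finset.sum_congr rfl
  intro k hk
  have hk' : k ≤ n := Nat.lt_succ_iff.1 (Finset.mem_range.1 hk)
  rw [coeff_egf, coeff_egf, Nat.cast_choose ℂ hk']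
  have h1 := fac_ne k
  have h2 := fac_ne (n - k)
  have h3 := fac_ne n
  field_simp

theorem deriv_egf (a : ℕ → ℂ) :
    PowerSeries.derivative ℂ (egf a) = egf (fun n => a (n + 1)) := by
  ext n
  rw [PowerSeries.coeff_derivative, coeff_egf, coeff_egf, Nat.factorial_succ]
  have h1 := fac_ne n
  have h2 : ((n : ℂ) + 1) ≠ 0 := by exact_mod_cast Nat.succ_ne_zero n
  push_cast
  field_simp

/-- the series `E` -/
noncomputable def E (y : ℂ) : PowerSeries ℂ := egf fun m => y ^ (m.choose 2)

/-- the derivative of `E` -/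
noncomputable def E' (y : ℂ) : PowerSeries ℂ := egf fun m => y ^ ((m + 1).choose 2)

/-- the series `U (s)` -/
noncomputable def U (y s : ℂ) : PowerSeries ℂ := egf (Z y s)

theorem dE (y : ℂ) : PowerSeries.derivative ℂ (E y) = E' y := deriv_egf _

theorem dU (hZ : S_zone) (y s : ℂ) :
    PowerSeries.derivative ℂ (U y s) = PowerSeries.C s * (E' y * U y (s - 1)) := by
  unfold U E'
  rw [deriv_egf]
  ext n
  rw [coeff_egf, PowerSeries.coeff_C_mul, coeff_mul_egf, (hZ y s).2 n, mul_div_assoc]

/-- the difference -/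
noncomputable def D (y s : ℂ) : PowerSeries ℂ := U y (s + 1) - E y * U y s

theorem dD (hZ : S_zone) (y s : ℂ) :
    PowerSeries.derivative ℂ (D y s) = PowerSeries.C s * (E' y * D y (s - 1)) := by
  unfold D
  rw [map_sub, Derivation.leibniz, dE, dU hZ, dU hZ, add_sub_cancel_right, sub_add_cancel,
    smul_eq_mul, smul_eq_mul, map_add, map_one]
  ring

theorem D_zero (hZ : S_zone) (y : ℂ) : ∀ (n : ℕ) (s : ℂ), PowerSeries.coeff n (D y s) = 0 := by
  intro n
  induction n using Nat.strong_induction_on with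
  | _ n ih =>
    intro s
    cases n with
    | zero =>
      unfold D U E
      rw [map_sub, coeff_egf, coeff_mul_egf, (hZ y (s + 1)).1]
      simp [(hZ y s).1]
    | succ n =>
      have h1 := PowerSeries.coeff_derivative (D y s) n
      rw [dD hZ, PowerSeries.coeff_C_mul, PowerSeries.coeff_mul, Finset.sum_eq_zero, mul_zero] at h1
      · have h2 : ((n : ℂ) + 1) ≠ 0 := by exact_mod_cast Nat.succ_ne_zero n
        rcases mul_eq_zero.1 h1.symm with h3 | h3
        · exact h3
        · exact absurd h3 h2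
      · intro ij hij
        have h3 : ij.1 + ij.2 = n := Finset.HasAntidiagonal.mem_antidiagonal.1 hij
        rw [ih ij.2 (by omega), mul_zero]

theorem U_eq (hZ : S_zone) (y s : ℂ) : U y s = E y * U y (s - 1) := by
  have h1 : D y (s - 1) = 0 := by
    ext n
    rw [D_zero hZ y n, map_zero]
  unfold D at h1
  rw [sub_add_cancel] at h1
  exact sub_eq_zero.1 h1

theorem t_zrec (hZ : S_zone) : S_zrec := by
  intro y s n
  have h1 : E y * PowerSeries.derivative ℂ (U y s) = PowerSeries.C s * (E' y * U y s) := by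
    rw [dU hZ]
    conv_rhs => rw [U_eq hZ y s]
    ring
  have h2 := congrArg (PowerSeries.coeff n) h1
  unfold U E E' at h2
  rw [deriv_egf, coeff_mul_egf, PowerSeries.coeff_C_mul, coeff_mul_egf, ← mul_div_assoc,
    div_left_inj' (fac_ne n)] at h2
  rw [← h2]
  apply Finset.sum_congr rfl
  intro m hm
  have hm' : m ≤ n := Nat.lt_succ_iff.1 (Finset.mem_range.1 hm)
  have h3 : n + 1 - m = n - m + 1 := by omega
  rw [h3]

end Pool.Agent.H19.FK.Zrec
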