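import Pool.Agent.H19.FK.All2
import Pool.Agent.H19.FK.Zone
import Pool.Agent.H19.FK.Zrec
import Pool.Agent.H19.FK.Bnz
import Pool.Agent.H19.FK.Inn

set_option autoImplicit false

namespace Pool.Agent.H19.FK

theorem u_zone : S_zone := Zone.t_zone Afact.t_afact
theorem u_inn : S_inn := Inn.t_inn u_form Afact.t_afact (Zrec.t_zrec u_zone) u_zone Bnz.t_bnz

end Pool.Agent.H19.FK
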