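import Pool.Agent.H19.FK.All1

set_option autoImplicit false

open Polynomial

namespace Pool.Agent.H19.FK.Curve

open Pool.Agent.H19.FK

lemma uniq (n : ℕ) (F G : ℤ[X]) (hF : IsFlowPoly n F) (hG : IsFlowPoly n G) : F = G := by
  apply Polynomial.eq_of_infinite_eval_eq
  refine Set.Infinite.mono ?_ (Set.infinite_range_of_injective (f := fun k : ℕ => ((k + 1 : ℕ) : ℤ)) ?_)
  · rintro _ ⟨k, rfl⟩
    show F.eval _ = G.eval _
    rw [hF (k + 1) (by omega), hG (k + 1) (by omega)]
  · intro a b h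
    simpa using h

/-- A closed set which contains all but finitely many points of the circle contains the circle. -/
lemma circle_subset (Z : Set ℂ) (hZ : IsClosed Z) (h : (Metric.sphere (1 : ℂ) 1 \ Z).Finite) :
    Metric.sphere (1 : ℂ) 1 ⊆ Z := by
  have hrank : 1 < Module.rank ℝ ℂ := by
    rw [Complex.rank_real_complex]
    exact Cardinal.one_lt_two
  have hconn : IsPreconnected (Metric.sphere (1 : ℂ) 1) := isPreconnected_sphere hrank 1 1
  have hnt : (Metric.sphere (1 : ℂ) 1).Nontrivial := by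
    refine ⟨0, by simp, 2, ?_, by norm_num⟩
    rw [mem_sphere_iff_norm]
    norm_num
  have hinf : (Metric.sphere (1 : ℂ) 1).Infinite := hconn.infinite_of_nontrivial hnt
  by_contra hcon
  obtain ⟨z, hz, hzZ⟩ := Set.not_subset.1 hcon
  have h1 := isPreconnected_closed_iff.1 hconn Z (Metric.sphere (1 : ℂ) 1 \ Z) hZ h.isClosed
    (by intro x hx; by_cases hxZ : x ∈ Z
        · exact Or.inl hxZ
        · exact Or.inr ⟨hx, hxZ⟩)
    (by
      by_contra hemp
      rw [Set.not_nonempty_iff_eq_empty] at hemp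
      apply hinf
      refine h.subset fun x hx => ⟨hx, fun hxZ => ?_⟩
      have : x ∈ Metric.sphere (1 : ℂ) 1 ∩ Z := ⟨hx, hxZ⟩
      rw [hemp] at this
      exact this)
    ⟨z, hz, hz, hzZ⟩
  obtain ⟨x, _, hx1, hx2⟩ := h1
  exact hx2.2 hx1

end Pool.Agent.H19.FK.Curve
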