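import Mathlib
import Pool.Agent.H19.FK.Stm

/-!
Project FK (helper19), part DUAL (helper385): Fourier duality for the number of the nowhere-zero
flows on the complete graph.
-/

set_option autoImplicit false

namespace Pool.Agent.H19.FK.Dual

variable {n q : ℕ}

theorem mem_prs {p : Fin n × Fin n} : p ∈ prs n ↔ p.1 < p.2 := by simp [prs]

/-- the antisymmetric extension -/
def ext (g : {p : Fin n × Fin n // p ∈ prs n} → ZMod q) (i j : Fin n) : ZMod q :=
  if h : i < j then g ⟨(i, j), mem_prs.2 h⟩ else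
    if h : j < i then - g ⟨(j, i), mem_prs.2 h⟩ else 0

theorem ext_lt (g : {p : Fin n × Fin n // p ∈ prs n} → ZMod q) {i j : Fin n} (h : i < j) :
    ext g i j = g ⟨(i, j), mem_prs.2 h⟩ := dif_pos h

theorem ext_gt (g : {p : Fin n × Fin n // p ∈ prs n} → ZMod q) {i j : Fin n} (h : j < i) :
    ext g i j = - g ⟨(j, i), mem_prs.2 h⟩ := by
  unfold ext
  rw [dif_neg (not_lt.2 h.le), dif_pos h]

theorem ext_self (g : {p : Fin n × Fin n // p ∈ prs n} → ZMod q) (i : Fin n) : ext g i i = 0 := by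
  unfold ext
  rw [dif_neg (lt_irrefl i), dif_neg (lt_irrefl i)]

/-- the flows in terms of the pairs -/
def Good (g : {p : Fin n × Fin n // p ∈ prs n} → ZMod q) : Prop :=
  (∀ e, g e ≠ 0) ∧ ∀ i, ∑ j, ext g i j = 0

theorem ext_res (f : Fin n → Fin n → ZMod q) (hf : IsNZFlow n q f) :
    ext (fun e : {p : Fin n × Fin n // p ∈ prs n} => f e.1.1 e.1.2) = f := by
  funext i j
  rcases lt_trichotomy i j with h | h | h
  · exact ext_lt _ h
  · subst h
    rw [ext_self, hf.2.1]
  · rw [ext_gt _ h, hf.1 i j, neg_neg]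

theorem ext_flow (g : {p : Fin n × Fin n // p ∈ prs n} → ZMod q) (hg : Good g) :
    IsNZFlow n q (ext g) := by
  refine ⟨fun i j => ?_, ext_self g, fun i j hij => ?_, hg.2⟩
  · rcases lt_trichotomy i j with h | h | h
    · rw [ext_lt g h, ext_gt g h]
    · subst h
      rw [ext_self, neg_zero]
    · rw [ext_lt g h, ext_gt g h, neg_neg]
  · rcases lt_or_gt_of_ne hij with h | h
    · rw [ext_lt g h]
      exact hg.1 _
    · rw [ext_gt g h]
      exact neg_ne_zero.2 (hg.1 _)

theorem card_eq : flowCount n q =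
    Nat.card {g : {p : Fin n × Fin n // p ∈ prs n} → ZMod q // Good g} := by
  refine Nat.card_congr
    { toFun := fun f => ⟨fun e => f.1 e.1.1 e.1.2, fun e => ?_, ?_⟩
      invFun := fun g => ⟨ext g.1, ext_flow g.1 g.2⟩
      left_inv := fun f => Subtype.ext (ext_res f.1 f.2)
      right_inv := fun g => Subtype.ext (funext fun e => ext_lt g.1 (mem_prs.1 e.2)) }
  · exact f.2.2.2.1 _ _ (mem_prs.1 e.2).ne
  · intro i
    have h := ext_res f.1 f.2
    rw [h]
    exact f.2.2.2.2 i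

theorem sum_ext (g : {p : Fin n × Fin n // p ∈ prs n} → ZMod q) (σ : Fin n → ZMod q) :
    ∑ i, σ i * ∑ j, ext g i j =
      ∑ e : {p : Fin n × Fin n // p ∈ prs n}, g e * (σ e.1.1 - σ e.1.2) := by
  have h1 : ∀ i, σ i * ∑ j, ext g i j = ∑ j, σ i * ext g i j := fun i => Finset.mul_sum _ _ _
  rw [Finset.sum_congr rfl fun i _ => h1 i, ← Finset.sum_product']
  let G : Fin n × Fin n → ZMod q := fun p => if h : p ∈ prs n then g ⟨p, h⟩ else 0
  have hG : ∀ p (h : p ∈ prs n), G p = g ⟨p, h⟩ := fun p h => dif_pos h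
  have hG0 : ∀ p, p ∉ prs n → G p = 0 := fun p h => dif_neg h
  have h2 : ∀ p : Fin n × Fin n, σ p.1 * ext g p.1 p.2 = σ p.1 * G p - σ p.1 * G p.swap := by
    rintro ⟨i, j⟩
    show σ i * ext g i j = σ i * G (i, j) - σ i * G (j, i)
    rcases lt_trichotomy i j with h | h | h
    · rw [ext_lt g h, hG _ (mem_prs.2 h), hG0 (j, i) (fun h' => lt_asymm h (mem_prs.1 h')),
        mul_zero, sub_zero]
    · subst h
      rw [ext_self, mul_zero, sub_self]
    · rw [ext_gt g h, hG (j, i) (mem_prs.2 h), hG0 (i, j) (fun h' => lt_asymm h (mem_prs.1 h')),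
        mul_zero, zero_sub, mul_neg]
  rw [Finset.univ_product_univ, Finset.sum_congr rfl fun p _ => h2 p, Finset.sum_sub_distrib]
  have h3 : ∑ p : Fin n × Fin n, σ p.1 * G p.swap = ∑ p : Fin n × Fin n, σ p.2 * G p :=
    Fintype.sum_equiv (Equiv.prodComm (Fin n) (Fin n)) _ _ fun p => rfl
  rw [h3, ← Finset.sum_sub_distrib]
  have h4 : ∀ p : Fin n × Fin n, p ∉ prs n → σ p.1 * G p - σ p.2 * G p = 0 := by
    intro p hp
    rw [hG0 p hp, mul_zero, mul_zero, sub_zero]
  rw [← Finset.sum_subset (Finset.subset_univ (prs n)) fun p _ hp => h4 p hp,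
    ← Finset.sum_coe_sort (prs n)]
  refine Finset.sum_congr rfl fun e _ => ?_
  rw [hG e.1 e.2]
  ring

end Pool.Agent.H19.FK.Dual

namespace Pool.Agent.H19.FK

open Pool.Agent.H19.FK.Dual in
theorem Dual.t_dual : S_dual := by
  classical
  intro n q hq
  have hprim := ZMod.isPrimitive_stdAddChar q
  set ψ : AddChar (ZMod q) ℂ := ZMod.stdAddChar with hψ
  have hsum : ∀ b : ZMod q, ∑ x : ZMod q, ψ (x * b) = if b = 0 then (q : ℂ) else 0 := by
    intro b
    rw [AddChar.sum_mulShift b hprim, ZMod.card]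
    split_ifs
    · rfl
    · exact Nat.cast_zero
  -- the count
  have hcount : (flowCount n q : ℂ) =
      ∑ g : {p : Fin n × Fin n // p ∈ prs n} → ZMod q, if Good g then (1 : ℂ) else 0 := by
    rw [card_eq, Nat.card_eq_fintype_card, Fintype.card_subtype, Finset.sum_boole]
  have hgood : ∀ g : {p : Fin n × Fin n // p ∈ prs n} → ZMod q,
      (q : ℂ) ^ n * (if Good g then (1 : ℂ) else 0) = ∑ σ : Fin n → ZMod q,
        ∏ e : {p : Fin n × Fin n // p ∈ prs n},
          ((if g e = 0 then (0 : ℂ) else 1) * ψ (g e * (σ e.1.1 - σ e.1.2))) := by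
    intro g
    have e1 : ∀ σ : Fin n → ZMod q, ∏ e : {p : Fin n × Fin n // p ∈ prs n},
        ψ (g e * (σ e.1.1 - σ e.1.2)) = ∏ i, ψ (σ i * ∑ j, ext g i j) := by
      intro σ
      have e0 : ∀ {ι : Type} (s : Finset ι) (f : ι → ZMod q), ψ (∑ i ∈ s, f i) = ∏ i ∈ s, ψ (f i) := by
        intro ι s f
        induction s using Finset.induction_on with
        | empty => rw [Finset.sum_empty, Finset.prod_empty, AddChar.map_zero_eq_one]
        | insert a s ha ih =>
          rw [Finset.sum_insert ha, Finset.prod_insert ha, AddChar.map_add_eq_mul, ih]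
      rw [← e0, ← e0, sum_ext]
    simp only [Finset.prod_mul_distrib, e1]
    rw [← Finset.mul_sum, ← Fintype.prod_sum fun (i : Fin n) (x : ZMod q) => ψ (x * ∑ j, ext g i j)]
    simp only [hsum]
    by_cases h1 : ∀ e, g e ≠ 0
    · have e2 : ∏ e : {p : Fin n × Fin n // p ∈ prs n}, (if g e = 0 then (0 : ℂ) else 1) = 1 :=
        Finset.prod_eq_one fun e _ => if_neg (h1 e)
      rw [e2, one_mul]
      by_cases h2 : ∀ i, ∑ j, ext g i j = 0
      · rw [if_pos ⟨h1, h2⟩, Finset.prod_congr rfl fun i _ => if_pos (h2 i), Finset.prod_const,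
          Finset.card_univ, Fintype.card_fin, mul_one]
      · rw [if_neg fun h => h2 h.2, mul_zero]
        push Not at h2
        obtain ⟨i, hi⟩ := h2
        exact (Finset.prod_eq_zero (Finset.mem_univ i) (if_neg hi)).symm
    · rw [if_neg fun h => h1 h.1, mul_zero]
      push Not at h1
      obtain ⟨e, he⟩ := h1
      have e4 : ∏ e : {p : Fin n × Fin n // p ∈ prs n}, (if g e = 0 then (0 : ℂ) else 1) = 0 :=
        Finset.prod_eq_zero (Finset.mem_univ e) (if_pos he)
      rw [e4, zero_mul]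
  have hloc : ∀ a b : ZMod q, ∑ x : ZMod q, (if x = 0 then (0 : ℂ) else 1) * ψ (x * (a - b)) =
      if a = b then (q : ℂ) - 1 else -1 := by
    intro a b
    have e3 : ∀ x : ZMod q, (if x = 0 then (0 : ℂ) else 1) * ψ (x * (a - b)) =
        ψ (x * (a - b)) - if x = 0 then 1 else 0 := by
      intro x
      by_cases hx : x = 0
      · rw [if_pos hx, if_pos hx, hx, zero_mul, zero_mul, AddChar.map_zero_eq_one, sub_self]
      · rw [if_neg hx, if_neg hx, one_mul, sub_zero]
    rw [Finset.sum_congr rfl fun x _ => e3 x, Finset.sum_sub_distrib, hsum,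
      Finset.sum_ite_eq' Finset.univ (0 : ZMod q) fun _ => (1 : ℂ), if_pos (Finset.mem_univ _)]
    by_cases hab : a = b
    · rw [if_pos hab, if_pos (sub_eq_zero.2 hab)]
    · rw [if_neg hab, if_neg (sub_ne_zero.2 hab), zero_sub]
  have hmain : (q : ℂ) ^ n * (flowCount n q : ℂ) = ∑ σ : Fin n → ZMod q, ∏ p ∈ prs n,
      (if σ p.1 = σ p.2 then (q : ℂ) - 1 else -1) := by
    rw [hcount, Finset.mul_sum, Finset.sum_congr rfl fun g _ => hgood g, Finset.sum_comm]
    refine Finset.sum_congr rfl fun σ _ => ?_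
    rw [← Fintype.prod_sum fun (e : {p : Fin n × Fin n // p ∈ prs n}) (x : ZMod q) =>
      (if x = 0 then (0 : ℂ) else 1) * ψ (x * (σ e.1.1 - σ e.1.2))]
    rw [Finset.prod_congr rfl fun e _ => hloc (σ e.1.1) (σ e.1.2)]
    exact Finset.prod_coe_sort (prs n) fun p => if σ p.1 = σ p.2 then (q : ℂ) - 1 else -1
  -- the colours
  let c : ZMod q ≃ Fin q := Fintype.equivFinOfCardEq (ZMod.card q)
  have hcol : ∑ σ : Fin n → ZMod q, ∏ p ∈ prs n, (if σ p.1 = σ p.2 then (q : ℂ) - 1 else -1) =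
      ∑ σ : Fin n → Fin q, ∏ p ∈ prs n, (if σ p.1 = σ p.2 then (q : ℂ) - 1 else -1) := by
    refine Fintype.sum_equiv (Equiv.arrowCongr (Equiv.refl (Fin n)) c) _ _ fun σ => ?_
    refine Finset.prod_congr rfl fun p _ => ?_
    show _ = if c (σ p.1) = c (σ p.2) then (q : ℂ) - 1 else -1
    by_cases h : σ p.1 = σ p.2
    · rw [if_pos h, if_pos (congrArg c h)]
    · rw [if_neg h, if_neg fun h' => h (c.injective h')]
  rw [hcol] at hmain
  have hcast : (((q : ℤ) ^ n * (flowCount n q : ℤ) : ℤ) : ℂ) =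
      ((∑ σ : Fin n → Fin q, ∏ p ∈ prs n, (if σ p.1 = σ p.2 then (q : ℤ) - 1 else -1) : ℤ) : ℂ) := by
    push_cast
    exact hmain
  exact_mod_cast hcast

end Pool.Agent.H19.FK
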